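import Pool.Agent.Lib.MP_b4a71d_al.Ops
import Pool.Agent.Lib.MP_b4a71d_al.S.Quot
import Pool.Agent.Lib.MP_b4a71d_al.LevelTwo

section

/-!
# MP_b4a71d_al, S point, part D: levels of an ideal `J` modulo `T`

`JZ J T k d`: the part of `J` in the level `(k, d)` lies in `T`.  `Low J Y d`: the elements of
`J ⊓ WW Y d` obtained from level two by the operators `D j`.
-/

set_option autoImplicit false
set_option linter.unusedSectionVars false
set_option linter.unusedVariables false

namespace Pool.Agent.Lib.MP_b4a71d_al.SD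

universe u

noncomputable section

open Polynomial

variable {F : Type u} [Field F]

/-- The part of `J` in the level `(k, d)` lies in `T`. -/
def JZ (J T : Submodule F (FL F)) (k d : ℕ) : Prop := J ⊓ KE (Finset.Icc 1 k) d ≤ T

/-- `JZ` for other sets of letters.
Proof: as `LZ_of_card` (Ops.lean), with `hJ.ren_mem`. -/
theorem JZ_of_card {J T : Submodule F (FL F)} (hJ : IsTIdeal F J) (hT : IsTIdeal F T) {k d : ℕ}
    (h : JZ J T k d) {Y : Finset ℕ} (h0 : 0 ∉ Y) (hY : Y.card = k) : J ⊓ KE Y d ≤ T := by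
  rintro f ⟨hfJ, hf⟩
  obtain ⟨σ, hσ0, hσ⟩ := exists_perm_image_zero Y (Finset.Icc 1 k)
    (by rw [hY, Nat.card_Icc, Nat.add_sub_cancel]) h0 (zero_notMem_Icc k)
  exact ren_mem_cancel hT σ (h ⟨hJ.ren_mem σ hfJ, ren_KE σ hσ0 hσ hf⟩)

/-- Proof: `exists_KE_of_E` gives `κ ∈ KE Y d` with `u - κ ∈ T`; with the projection `p` of
`exists_prK`: `p u ∈ J ⊓ KE Y d ≤ T`, `p (u - κ) = p u - κ ∈ T`, so `κ ∈ T` and `u ∈ T`. -/
theorem mem_of_E [CharZero F] {J T : Submodule F (FL F)} (hJ : IsTIdeal F J) (hT : IsTIdeal F T)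
    {Y : Finset ℕ} (h0 : 0 ∉ Y) {d : ℕ} (h : J ⊓ KE Y d ≤ T) {u : FL F} (hu : u ∈ J)
    (huW : u ∈ WW Y d) (hE : ∀ j ∈ Y, E j u ∈ T) : u ∈ T := by
  obtain ⟨κ, hκ, huκ⟩ := exists_KE_of_E hT h0 huW hE
  obtain ⟨p, h1, _, h3, _, h5, _⟩ := exists_prK (F := F) Y h0 d
  have h6 : p u ∈ T := h ⟨h5 J hJ u hu, h1 u huW⟩
  have h7 : p (u - κ) ∈ T := h5 T hT _ huκ
  rw [map_sub, h3 κ hκ] at h7
  have h8 : κ ∈ T := by
    have := Submodule.sub_mem _ h6 h7
    rwa [sub_sub_cancel] at this
  have := Submodule.add_mem _ huκ h8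
  rwa [sub_add_cancel] at this

/-- Decomposition inside a T-ideal.
Proof: take `q` from `exists_q Y (Y.card + d)` and `c = q.coeff 0`.  There is a polynomial `r`
with `q = C c + X * r`, so `aeval Om q f = c f + Om (aeval Om r f)`.  Put `κ = c⁻¹ aeval Om q f`
and `g j = - c⁻¹ E j (aeval Om r f)`.  Memberships: `aeval_mem_of_stable`, `IsTIdeal.Om_mem`,
`E_mem`, `IsTIdeal.dd_mem` (compare the proof of `exists_prK` in Ops.lean). -/
theorem dec [CharZero F] {J : Submodule F (FL F)} (hJ : IsTIdeal F J)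
    {Y : Finset ℕ} (h0 : 0 ∉ Y) {d : ℕ} {f : FL F} (hf : f ∈ J) (hfW : f ∈ WW Y d) :
    ∃ (κ : FL F) (g : ℕ → FL F), κ ∈ J ∧ κ ∈ KE Y d ∧
      (∀ j ∈ Y, g j ∈ J ∧ g j ∈ WW (Y.erase j) (d + 1)) ∧ f = κ + ∑ j ∈ Y, D j (g j) := by
  obtain ⟨q, hq0, hq⟩ := exists_q (F := F) Y (Y.card + d)
  have hcardW : Multiset.card (cont Y d) = Y.card + d := by
    rw [cont, Multiset.card_add, Multiset.card_replicate, Finset.card_val, add_comm]
  have hOmW : ∀ g ∈ WW (F := F) Y d, (Om Y : Module.End F (FL F)) g ∈ WW Y d := by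
    intro g hg
    rw [Om, LinearMap.sum_apply]
    apply Submodule.sum_mem
    intro j hj
    rw [Module.End.mul_apply]
    exact Lam_le Y d ((le_iSup₂_of_le
      (f := fun j (_ : j ∈ Y) => (WW (F := F) (Y.erase j) (d + 1)).map (D j))
      j hj le_rfl) ⟨_, E_mem hj h0 hg, rfl⟩)
  have hqe : aeval (Om Y : Module.End F (FL F)) q f =
      (Om Y : Module.End F (FL F)) (aeval (Om Y : Module.End F (FL F)) q.divX f) +
        q.coeff 0 • f := by
    conv_lhs => rw [← Polynomial.divX_mul_X_add q, mul_comm]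
    rw [map_add, map_mul, aeval_X, aeval_C, LinearMap.add_apply, Module.End.mul_apply]
    rfl
  have hr1 : aeval (Om Y : Module.End F (FL F)) q.divX f ∈ J :=
    aeval_mem_of_stable _ J (hJ.Om_mem Y) _ f hf
  have hr2 : aeval (Om Y : Module.End F (FL F)) q.divX f ∈ WW Y d :=
    aeval_mem_of_stable _ (WW Y d) hOmW _ f hfW
  refine ⟨(q.coeff 0)⁻¹ • aeval (Om Y : Module.End F (FL F)) q f,
    fun j => -((q.coeff 0)⁻¹ • E j (aeval (Om Y : Module.End F (FL F)) q.divX f)), ?_, ?_, ?_, ?_⟩
  · exact Submodule.smul_mem _ _ (aeval_mem_of_stable _ J (hJ.Om_mem Y) q f hf)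
  · rw [mem_KE]
    constructor
    · exact Submodule.smul_mem _ _ (aeval_mem_of_stable _ (WW Y d) hOmW q f hfW)
    · intro j hj
      rw [map_smul, (hq (cont Y d) hcardW (fun i hi => mem_cont hi) f hfW j hj).1, smul_zero]
  · intro j hj
    exact ⟨Submodule.neg_mem _ (Submodule.smul_mem _ _ (hJ.dd_mem j 0 hr1)),
      Submodule.neg_mem _ (Submodule.smul_mem _ _ (E_mem hj h0 hr2))⟩
  · have h1 : ∑ j ∈ Y, D j (-((q.coeff 0)⁻¹ • E j
        (aeval (Om Y : Module.End F (FL F)) q.divX f))) =
        -((q.coeff 0)⁻¹ • (Om Y : Module.End F (FL F))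
          (aeval (Om Y : Module.End F (FL F)) q.divX f)) := by
      conv_rhs => rw [Om, LinearMap.sum_apply]
      rw [Finset.smul_sum, ← Finset.sum_neg_distrib]
      apply Finset.sum_congr rfl
      intro j _
      rw [map_neg, map_smul, Module.End.mul_apply]
      rfl
    rw [h1, hqe, smul_add, smul_smul, inv_mul_cancel₀ hq0, one_smul]
    abel

/-- The operators `D j`, `j ≠ 0`, commute.
Proof: for `i = j` trivial.  The map `f ↦ D i (D j f) - D j (D i f)` is a derivation which is
zero on the variables (`D i (D j x) = D i y_j = 0`); use `eq_of_leibniz` with `δ' = 0`. -/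
theorem D_comm {i j : ℕ} (hi : i ≠ 0) (hj : j ≠ 0) (f : FL F) : D i (D j f) = D j (D i f) := by
  have key := eq_of_leibniz ((D (F := F) i) ∘ₗ (D j) - (D j) ∘ₗ (D i)) 0 ?_ ?_
    (fun f g => by simp) f
  · rw [LinearMap.zero_apply, LinearMap.sub_apply, sub_eq_zero] at key
    exact key
  · intro m
    rw [LinearMap.zero_apply, LinearMap.sub_apply, LinearMap.comp_apply, LinearMap.comp_apply]
    by_cases hm : m = 0
    · subst hm
      rw [D, D, dd_X_same, dd_X_same, dd_X_ne hj, dd_X_ne hi, sub_zero]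
    · rw [D, D, dd_X_ne hm, dd_X_ne hm, map_zero, map_zero, sub_zero]
  · intro f g
    rw [LinearMap.sub_apply, LinearMap.sub_apply, LinearMap.sub_apply, LinearMap.comp_apply,
      LinearMap.comp_apply, LinearMap.comp_apply, LinearMap.comp_apply, LinearMap.comp_apply,
      LinearMap.comp_apply]
    rw [D, D, dd_lie, dd_lie, map_add, map_add, dd_lie, dd_lie, dd_lie, dd_lie, lie_sub, sub_lie]
    abel

/-- Iterated `D`. -/
def DL (l : List ℕ) (w : FL F) : FL F := l.foldr (fun j f => D j f) w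

theorem DL_nil (w : FL F) : DL [] w = w := rfl

theorem DL_cons (j : ℕ) (l : List ℕ) (w : FL F) : DL (j :: l) w = D j (DL l w) := rfl

/-- Proof: induction on the permutation, `D_comm`. -/
theorem DL_perm {l l' : List ℕ} (h : l.Perm l') (hl : ∀ i ∈ l, i ≠ 0) (w : FL F) :
    DL l w = DL l' w := by
  induction h with
  | nil => rfl
  | cons x _ ih =>
    rw [DL_cons, DL_cons, ih (fun i hi => hl i (List.mem_cons_of_mem _ hi))]
  | swap x y l =>
    rw [DL_cons, DL_cons, DL_cons, DL_cons,
      D_comm (hl y (by simp)) (hl x (by simp))]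
  | trans h1 _ ih1 ih2 =>
    rw [ih1 hl, ih2 (fun i hi => hl i (h1.mem_iff.2 hi))]

/-- Elements coming from level two. -/
def IsLow (J : Submodule F (FL F)) (Y : Finset ℕ) (d : ℕ) (f : FL F) : Prop :=
  ∃ (l : List ℕ) (Z : Finset ℕ) (w : FL F), l.Nodup ∧ Z.card = 2 ∧ (∀ i ∈ l, i ∉ Z) ∧
    Y = Z ∪ l.toFinset ∧ w ∈ J ∧ w ∈ WW Z (d + l.length) ∧ f = DL l w

/-- The span of the elements coming from level two. -/
def Low (J : Submodule F (FL F)) (Y : Finset ℕ) (d : ℕ) : Submodule F (FL F) :=
  Submodule.span F {f | IsLow J Y d f}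

theorem DL_mem_J [CharZero F] {J : Submodule F (FL F)} (hJ : IsTIdeal F J) (l : List ℕ) {w : FL F}
    (hw : w ∈ J) : DL l w ∈ J := by
  induction l with
  | nil => exact hw
  | cons j l ih => exact hJ.dd_mem 0 j ih

theorem DL_mem_WW {Z : Finset ℕ} (l : List ℕ) (hl : l.Nodup) (hlZ : ∀ i ∈ l, i ∉ Z) {d : ℕ}
    {w : FL F} (hw : w ∈ WW Z (d + l.length)) : DL l w ∈ WW (Z ∪ l.toFinset) d := by
  induction l generalizing d with
  | nil =>
    rw [List.toFinset_nil, Finset.union_empty]
    exact hw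
  | cons j l ih =>
    rw [List.nodup_cons] at hl
    have h1 : DL l w ∈ WW (Z ∪ l.toFinset) (d + 1) := by
      apply ih hl.2 (fun i hi => hlZ i (List.mem_cons_of_mem _ hi))
      rw [List.length_cons] at hw
      rwa [add_assoc, add_comm 1]
    have hj : j ∉ Z ∪ l.toFinset := by
      rw [Finset.mem_union, not_or, List.mem_toFinset]
      exact ⟨hlZ j (by simp), hl.1⟩
    rw [DL_cons, List.toFinset_cons, Finset.union_insert]
    exact D_mem hj h1

theorem IsLow.memW {J : Submodule F (FL F)} {Y : Finset ℕ} {d : ℕ} {f : FL F}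
    (hf : IsLow J Y d f) : f ∈ WW Y d := by
  obtain ⟨l, Z, w, hnd, _, hlZ, hY, hw, hwW, rfl⟩ := hf
  rw [hY]
  exact DL_mem_WW l hnd hlZ hwW

theorem IsLow.mem [CharZero F] {J : Submodule F (FL F)} (hJ : IsTIdeal F J) {Y : Finset ℕ} {d : ℕ} {f : FL F}
    (hf : IsLow J Y d f) : f ∈ J ∧ f ∈ WW Y d := by
  obtain ⟨l, Z, w, hnd, _, hlZ, hY, hw, hwW, rfl⟩ := hf
  rw [hY]
  exact ⟨DL_mem_J hJ l hw, DL_mem_WW l hnd hlZ hwW⟩

theorem IsLow.peelAt {J : Submodule F (FL F)} {Y : Finset ℕ} (h0 : 0 ∉ Y) {d : ℕ} {Z : Finset ℕ}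
    {l : List ℕ} {w : FL F} (hnd : l.Nodup) (hZ : Z.card = 2) (hlZ : ∀ i ∈ l, i ∉ Z)
    (hY : Y = Z ∪ l.toFinset) (hw : w ∈ J) (hwW : w ∈ WW Z (d + l.length)) {a : ℕ} (ha : a ∈ l) :
    a ∈ Y ∧ ∃ h : FL F, IsLow J (Y.erase a) (d + 1) h ∧ DL l w = D a h := by
  have haY : a ∈ Y := by
    rw [hY, Finset.mem_union, List.mem_toFinset]
    exact Or.inr ha
  refine ⟨haY, DL (l.erase a) w, ⟨l.erase a, Z, w, hnd.erase a, hZ,
    fun i hi => hlZ i (List.mem_of_mem_erase hi), ?_, hw, ?_, rfl⟩, ?_⟩
  · ext i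
    rw [hY, Finset.mem_erase, Finset.mem_union, Finset.mem_union, List.mem_toFinset,
      List.mem_toFinset, hnd.mem_erase_iff]
    constructor
    · rintro ⟨h1, h2 | h2⟩
      · exact Or.inl h2
      · exact Or.inr ⟨h1, h2⟩
    · rintro (h2 | ⟨h1, h2⟩)
      · refine ⟨?_, Or.inl h2⟩
        rintro rfl
        exact hlZ i ha h2
      · exact ⟨h1, Or.inr h2⟩
  · have h1 : (l.erase a).length + 1 = l.length := by
      rw [List.length_erase_of_mem ha]
      have := List.length_pos_of_mem ha
      omega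
    rw [show d + 1 + (l.erase a).length = d + l.length by omega]
    exact hwW
  · rw [DL_perm (List.perm_cons_erase ha) _ w, DL_cons]
    intro i hi h
    apply h0
    rw [← h, hY, Finset.mem_union, List.mem_toFinset]
    exact Or.inr hi

theorem IsLow.card {J : Submodule F (FL F)} {Y Z : Finset ℕ} {l : List ℕ} (hnd : l.Nodup)
    (hZ : Z.card = 2) (hlZ : ∀ i ∈ l, i ∉ Z) (hY : Y = Z ∪ l.toFinset) :
    Y.card = 2 + l.length := by
  rw [hY, Finset.card_union_of_disjoint, hZ, List.toFinset_card_of_nodup hnd]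
  rw [Finset.disjoint_right]
  intro i hi
  exact hlZ i (List.mem_toFinset.1 hi)

theorem IsLow.peelA {J : Submodule F (FL F)} {Y : Finset ℕ} (h0 : 0 ∉ Y)
    {d : ℕ} {f : FL F} (hf : IsLow J Y d f) (i : ℕ) (hY : 4 ≤ Y.card) :
    ∃ a ∈ Y, a ≠ i ∧ ∃ h : FL F, IsLow J (Y.erase a) (d + 1) h ∧ f = D a h := by
  obtain ⟨l, Z, w, hnd, hZ, hlZ, hYl, hw, hwW, rfl⟩ := hf
  have hc := IsLow.card (J := J) hnd hZ hlZ hYl
  obtain ⟨a, ha, hai⟩ : ∃ a ∈ l, a ≠ i := by
    match l, hnd, hc with
    | [], _, hc => simp at hc; omega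
    | [x], _, hc => simp at hc; omega
    | x :: y :: l, hnd, _ =>
      by_cases hx : x = i
      · refine ⟨y, by simp, ?_⟩
        rintro rfl
        rw [hx] at hnd
        simp at hnd
      · exact ⟨x, by simp, hx⟩
  obtain ⟨h1, h, h2, h3⟩ := IsLow.peelAt h0 hnd hZ hlZ hYl hw hwW ha
  exact ⟨a, h1, hai, h, h2, h3⟩

theorem IsLow.peelB {J : Submodule F (FL F)} {Y : Finset ℕ} (h0 : 0 ∉ Y)
    {d : ℕ} {f : FL F} (hf : IsLow J Y d f) (hY : 3 ≤ Y.card) :
    ∃ a ∈ Y, ∃ h : FL F, IsLow J (Y.erase a) (d + 1) h ∧ f = D a h := by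
  obtain ⟨l, Z, w, hnd, hZ, hlZ, hYl, hw, hwW, rfl⟩ := hf
  have hc := IsLow.card (J := J) hnd hZ hlZ hYl
  obtain ⟨a, ha⟩ : ∃ a, a ∈ l := by
    match l, hc with
    | [], hc => simp at hc; omega
    | x :: l, _ => exact ⟨x, by simp⟩
  obtain ⟨h1, h, h2, h3⟩ := IsLow.peelAt h0 hnd hZ hlZ hYl hw hwW ha
  exact ⟨a, h1, h, h2, h3⟩

/-- One peeled operator, `l ≠ i`: possible if there are at least two operators or `i` is not one
of them.  Proof: `Y.card = 2 + l.length`; choose a member `a ≠ i` of the list, move it to the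
front by `DL_perm` (`List.perm_cons_erase`); `h = DL (l.erase a) w ∈ WW (Y.erase a) (d + 1)` by
iterating `D_mem` (Red.lean), and in `J` by `IsTIdeal.dd_mem`. -/
theorem IsLow.peel [CharZero F] {J : Submodule F (FL F)} (hJ : IsTIdeal F J) {Y : Finset ℕ} (h0 : 0 ∉ Y)
    {d : ℕ} {f : FL F} (hf : IsLow J Y d f) (i : ℕ) (hY : 4 ≤ Y.card) :
    ∃ a ∈ Y, a ≠ i ∧ ∃ h : FL F, h ∈ J ∧ h ∈ WW (Y.erase a) (d + 1) ∧ f = D a h := by
  obtain ⟨a, ha, hai, h, h1, h2⟩ := IsLow.peelA h0 hf i hY
  exact ⟨a, ha, hai, h, (h1.mem hJ).1, (h1.mem hJ).2, h2⟩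

/-- As `IsLow.peel`, without a forbidden letter. -/
theorem IsLow.peel' [CharZero F] {J : Submodule F (FL F)} (hJ : IsTIdeal F J) {Y : Finset ℕ} (h0 : 0 ∉ Y)
    {d : ℕ} {f : FL F} (hf : IsLow J Y d f) (hY : 3 ≤ Y.card) :
    ∃ a ∈ Y, ∃ h : FL F, h ∈ J ∧ h ∈ WW (Y.erase a) (d + 1) ∧ f = D a h := by
  obtain ⟨a, ha, h, h1, h2⟩ := IsLow.peelB h0 hf hY
  exact ⟨a, ha, h, (h1.mem hJ).1, (h1.mem hJ).2, h2⟩

/-- Two peeled operators. -/
theorem IsLow.peel2 [CharZero F] {J : Submodule F (FL F)} (hJ : IsTIdeal F J) {Y : Finset ℕ} (h0 : 0 ∉ Y)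
    {d : ℕ} {f : FL F} (hf : IsLow J Y d f) (i : ℕ) (hY : 5 ≤ Y.card) :
    ∃ a ∈ Y, ∃ b ∈ Y, a ≠ i ∧ b ≠ i ∧ a ≠ b ∧ ∃ h : FL F, h ∈ J ∧
      h ∈ WW ((Y.erase a).erase b) (d + 2) ∧ f = D a (D b h) := by
  obtain ⟨a, ha, hai, h, h1, h2⟩ := IsLow.peelA h0 hf i (by omega)
  have h0' : 0 ∉ Y.erase a := fun h => h0 (Finset.mem_of_mem_erase h)
  obtain ⟨b, hb, hbi, h', h3, h4⟩ := IsLow.peelA h0' h1 i (by
    rw [Finset.card_erase_of_mem ha]; omega)
  exact ⟨a, ha, b, Finset.mem_of_mem_erase hb, hai, hbi, (Finset.ne_of_mem_erase hb).symm, h',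
    (h3.mem hJ).1, (h3.mem hJ).2, by rw [h2, h4]⟩

/-- Level two is low. -/
theorem IsLow.two {J : Submodule F (FL F)} {Z : Finset ℕ} (hZ : Z.card = 2) {d : ℕ} {w : FL F}
    (hw : w ∈ J) (hwW : w ∈ WW Z d) : IsLow J Z d w :=
  ⟨[], Z, w, List.nodup_nil, hZ, by simp, by simp, hw, hwW, rfl⟩

/-- Proof: cons on the list; `D_mem` is not needed, only the shape. -/
theorem IsLow.step {J : Submodule F (FL F)} {Y : Finset ℕ} {d : ℕ} {f : FL F}
    {j : ℕ} (hj : j ∈ Y) (h0 : 0 ∉ Y) (hf : IsLow J (Y.erase j) (d + 1) f) :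
    IsLow J Y d (D j f) := by
  obtain ⟨l, Z, w, hnd, hZ, hlZ, hYl, hw, hwW, rfl⟩ := hf
  have hjn : j ∉ Z ∪ l.toFinset := by
    rw [← hYl]
    exact Finset.notMem_erase j Y
  rw [Finset.mem_union, not_or, List.mem_toFinset] at hjn
  refine ⟨j :: l, Z, w, List.nodup_cons.2 ⟨hjn.2, hnd⟩, hZ, ?_, ?_, hw, ?_, rfl⟩
  · intro i hi
    rcases List.mem_cons.1 hi with rfl | hi
    · exact hjn.1
    · exact hlZ i hi
  · rw [List.toFinset_cons, Finset.union_insert, ← hYl, Finset.insert_erase hj]
  · rw [List.length_cons, show d + (l.length + 1) = d + 1 + l.length by omega]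
    exact hwW

theorem D_low [CharZero F] {J T : Submodule F (FL F)} (hT : IsTIdeal F T) {Y : Finset ℕ} {d : ℕ} {j : ℕ}
    (hj : j ∈ Y) (h0 : 0 ∉ Y) {g : FL F} (hg : g ∈ T ⊔ Low J (Y.erase j) (d + 1)) :
    D j g ∈ T ⊔ Low J Y d := by
  obtain ⟨a, ha, b, hb, rfl⟩ := Submodule.mem_sup.1 hg
  rw [map_add]
  refine Submodule.add_mem _ (Submodule.mem_sup_left (hT.dd_mem 0 j ha))
    (Submodule.mem_sup_right ?_)
  have h1 : Low J (Y.erase j) (d + 1) ≤ (Low J Y d).comap (D (F := F) j) := by
    rw [Low, Submodule.span_le]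
    intro f hf
    exact Submodule.subset_span (IsLow.step hj h0 hf)
  exact h1 hb

/-- Normal form: if the part of `J` in all levels `(k, n - k)`, `3 ≤ k < |Y|`, lies in `T`, then
`J ⊓ WW Y d ≤ (J ⊓ KE Y d) ⊔ (T ⊔ Low J Y d)`, where `|Y| + d = n`.
Proof: induction on `Y.card`.  For `Y.card = 2`: `IsLow.two`.  For `Y.card ≥ 3`: `dec`, with
`g j ∈ T ⊔ Low J (Y.erase j) (d + 1)` (for `Y.card = 3` by `IsLow.two`, otherwise by induction
and `JZ_of_card`), and `D j` maps `T` to `T` and `Low J (Y.erase j) (d + 1)` to `Low J Y d`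
(`IsLow.step`). -/
theorem le_low' [CharZero F] {J T : Submodule F (FL F)} (hJ : IsTIdeal F J) (hT : IsTIdeal F T)
    {n : ℕ} (Y : Finset ℕ) (h0 : 0 ∉ Y) (hY : 2 ≤ Y.card) {d : ℕ} (hn : Y.card + d = n)
    (h : ∀ k, 3 ≤ k → k < Y.card → JZ J T k (n - k)) :
    J ⊓ WW Y d ≤ (J ⊓ KE Y d) ⊔ (T ⊔ Low J Y d) := by
  obtain ⟨m, hm⟩ : ∃ m, m = Y.card := ⟨_, rfl⟩
  induction m using Nat.strong_induction_on generalizing Y d with
  | _ m ih =>
    rintro f ⟨hfJ, hfW⟩
    by_cases h2 : Y.card = 2
    · exact Submodule.mem_sup_right (Submodule.mem_sup_right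
        (Submodule.subset_span (IsLow.two h2 hfJ hfW)))
    · obtain ⟨κ, g, hκJ, hκ, hg, rfl⟩ := dec hJ h0 hfJ hfW
      refine Submodule.add_mem _ (Submodule.mem_sup_left ⟨hκJ, hκ⟩)
        (Submodule.mem_sup_right (Submodule.sum_mem _ ?_))
      intro j hj
      apply D_low hT hj h0
      have hc : (Y.erase j).card = Y.card - 1 := Finset.card_erase_of_mem hj
      have h0' : 0 ∉ Y.erase j := fun h => h0 (Finset.mem_of_mem_erase h)
      by_cases h3 : (Y.erase j).card = 2
      · exact Submodule.mem_sup_right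
          (Submodule.subset_span (IsLow.two h3 (hg j hj).1 (hg j hj).2))
      · have h4 := ih (Y.erase j).card (by omega) (Y.erase j) h0' (by omega) (d := d + 1)
          (by omega) (fun k hk1 hk2 => h k hk1 (by omega)) rfl ⟨(hg j hj).1, (hg j hj).2⟩
        have h5 : J ⊓ KE (Y.erase j) (d + 1) ≤ T := by
          have h6 := h (Y.erase j).card (by omega) (by omega)
          rw [show n - (Y.erase j).card = d + 1 by omega] at h6
          exact JZ_of_card hJ hT h6 h0' rfl
        exact (sup_le (h5.trans le_sup_left) le_rfl) h4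

/-- Proof: `le_low'` and, for `3 ≤ Y.card`, `JZ_of_card`; for `Y.card = 2` `IsLow.two`. -/
theorem le_low [CharZero F] {J T : Submodule F (FL F)} (hJ : IsTIdeal F J) (hT : IsTIdeal F T)
    {n : ℕ} (Y : Finset ℕ) (h0 : 0 ∉ Y) (hY : 2 ≤ Y.card) {d : ℕ} (hn : Y.card + d = n)
    (h : ∀ k, 3 ≤ k → k ≤ Y.card → JZ J T k (n - k)) :
    J ⊓ WW Y d ≤ T ⊔ Low J Y d := by
  rintro f ⟨hfJ, hfW⟩
  by_cases h2 : Y.card = 2
  · exact Submodule.mem_sup_right (Submodule.subset_span (IsLow.two h2 hfJ hfW))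
  · have h4 := le_low' hJ hT Y h0 hY hn (fun k hk1 hk2 => h k hk1 hk2.le) ⟨hfJ, hfW⟩
    have h5 : J ⊓ KE Y d ≤ T := by
      have h6 := h Y.card (by omega) le_rfl
      rw [show n - Y.card = d by omega] at h6
      exact JZ_of_card hJ hT h6 h0 rfl
    exact (sup_le (h5.trans le_sup_left) le_rfl) h4

/-- The elements of `WW Y (d + 1)` produced from `J` in smaller degree. -/
def Gn (J : Submodule F (FL F)) (Y : Finset ℕ) (d : ℕ) : Submodule F (FL F) :=
  (⨆ i ∈ Y, (J ⊓ WW Y d).map ((tt (F := F) i : FL F →ₗ⁅F⁆ FL F) : FL F →ₗ[F] FL F)) ⊔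
  (⨆ j ∈ Y, (J ⊓ WW (Y.erase j) (d + 1)).map (lieBy (X F j))) ⊔
  (⨆ j ∈ Y, ⨆ i ∈ Y.erase j, (J ⊓ WW (Y.erase j) (d + 1)).map
    ((ss (F := F) i j : FL F →ₗ⁅F⁆ FL F) : FL F →ₗ[F] FL F))

/-- `J` is generated in degree `g`, for the contents `cont Y (d + 1)`. -/
def IsGen (J : Submodule F (FL F)) (g : ℕ) : Prop :=
  ∀ (Y : Finset ℕ) (d : ℕ), 0 ∉ Y → g < Y.card + (d + 1) → J ⊓ WW Y (d + 1) ≤ Gn J Y d

theorem low_span {J T : Submodule F (FL F)} {Y : Finset ℕ} {d : ℕ} {g : FL F}
    (φ : FL F →ₗ[F] FL F) (L : Submodule F (FL F)) (hφT : ∀ f ∈ T, φ f ∈ L ⊔ T)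
    (hφ : ∀ f, IsLow J Y d f → φ f ∈ L) (hg : g ∈ T ⊔ Low J Y d) : φ g ∈ L ⊔ T := by
  have h1 : T ⊔ Low J Y d ≤ (L ⊔ T).comap φ := by
    apply sup_le
    · intro f hf
      exact hφT f hf
    · rw [Low, Submodule.span_le]
      intro f hf
      exact Submodule.mem_sup_left (hφ f hf)
  exact h1 hg

/-- `tt i g ∈ Lam ⊔ T` for low `g` and at least five letters.
Proof: for `IsLow` elements `g = D a (D b h)`, `a, b ≠ i` (`IsLow.peel2`).  By `D_tt`
(with `j = a`): `tt i (D a f) = D a (tt i f) - ss i a f` for `f = D b h ∈ WW (Y.erase a) (d+1)`;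
`D a (tt i f) ∈ Lam Y (d + 1)` (`D_mem_Lam`, `tt_mem`) and `ss i a (D b h) = D b (ss i a h)`
(`D_ss`) is in `Lam`. -/
theorem tt_low {J T : Submodule F (FL F)} (hJ : IsTIdeal F J) (hT : IsTIdeal F T) {Y : Finset ℕ}
    (h0 : 0 ∉ Y) (hY : 5 ≤ Y.card) {d : ℕ} {i : ℕ} (hi : i ∈ Y) {g : FL F}
    (hg : g ∈ T ⊔ Low J Y d) : tt i g ∈ Lam Y (d + 1) ⊔ T := by
  refine low_span (T := T) ((tt (F := F) i : FL F →ₗ⁅F⁆ FL F) : FL F →ₗ[F] FL F) (Lam Y (d + 1))
    (fun f hf => Submodule.mem_sup_right (hT.tt_mem i hf)) ?_ hg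
  intro f hf
  change tt i f ∈ _
  obtain ⟨a, ha, hai, h', h1', rfl⟩ := hf.peelA h0 i (by omega)
  obtain ⟨b, hb', hbi, h, h3', rfl⟩ := h1'.peelA (fun h => h0 (Finset.mem_of_mem_erase h)) i (by
    rw [Finset.card_erase_of_mem ha]; omega)
  have hb := Finset.mem_of_mem_erase hb'
  have hab : a ≠ b := (Finset.ne_of_mem_erase hb').symm
  have hh := h3'.memW
  have ha0 : a ≠ 0 := fun h => h0 (h ▸ ha)
  have hb0 : b ≠ 0 := fun h => h0 (h ▸ hb)
  have hi0 : i ≠ 0 := fun h => h0 (h ▸ hi)
  have hbe : b ∈ Y.erase a := Finset.mem_erase.2 ⟨hab.symm, hb⟩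
  have hie : i ∈ Y.erase a := Finset.mem_erase.2 ⟨hai.symm, hi⟩
  have h0a : 0 ∉ Y.erase a := fun h => h0 (Finset.mem_of_mem_erase h)
  have h0b : 0 ∉ (Y.erase a).erase b := fun h => h0a (Finset.mem_of_mem_erase h)
  have hf' : D b h ∈ WW (Y.erase a) (d + 1) := by
    have := D_mem (Finset.notMem_erase b (Y.erase a)) hh
    rwa [Finset.insert_erase hbe] at this
  have h1 := D_tt hie h0a (Finset.notMem_erase a Y) ha0 hf'
  rw [← sub_eq_iff_eq_add] at h1
  rw [← h1]
  refine Submodule.sub_mem _ (D_mem_Lam ha (tt_mem hie h0a hf')) ?_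
  rw [← D_ss hb0 hbi hi0 ha0]
  apply D_mem_Lam hb
  have h2 := ss_mem (Finset.mem_erase.2 ⟨hbi.symm, hie⟩) h0b
    (fun h => Finset.notMem_erase a Y (Finset.mem_of_mem_erase h)) ha0 hh
  rwa [Finset.erase_right_comm, Finset.insert_erase (Finset.mem_erase.2 ⟨hab, ha⟩)] at h2

/-- Proof: `g = D a h` (`IsLow.peel'` for the letters `Y.erase j`, three at least), and
`⁅D a h, y_j⁆ = D a ⁅h, y_j⁆` (`D_lie_y`), which is in `Lam Y (d + 1)`
(`⁅h, y_j⁆ ∈ WW (Y.erase a) (d + 2)` by `lie_X_mem_WW`). -/
theorem lie_low {J T : Submodule F (FL F)} (hJ : IsTIdeal F J) (hT : IsTIdeal F T) {Y : Finset ℕ}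
    (h0 : 0 ∉ Y) (hY : 4 ≤ Y.card) {d : ℕ} {j : ℕ} (hj : j ∈ Y) {g : FL F}
    (hg : g ∈ T ⊔ Low J (Y.erase j) (d + 1)) : ⁅g, X F j⁆ ∈ Lam Y (d + 1) ⊔ T := by
  have hj0 : j ≠ 0 := fun h => h0 (h ▸ hj)
  have h0j : 0 ∉ Y.erase j := fun h => h0 (Finset.mem_of_mem_erase h)
  refine low_span (T := T) (lieBy (X F j)) (Lam Y (d + 1))
    (fun f hf => Submodule.mem_sup_right (hT.lie_mem f hf _)) ?_ hg
  intro f hf
  change ⁅f, X F j⁆ ∈ _
  obtain ⟨a, ha, h, hh', rfl⟩ := hf.peelB h0j (by
    rw [Finset.card_erase_of_mem hj]; omega)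
  have hh := hh'.memW
  rw [← D_lie_y a hj0]
  apply D_mem_Lam (Finset.mem_of_mem_erase ha)
  have h2 := lie_X_mem_WW (j := j)
    (fun h => Finset.notMem_erase j Y (Finset.mem_of_mem_erase h)) hh
  rwa [Finset.erase_right_comm, Finset.insert_erase
    (Finset.mem_erase.2 ⟨(Finset.ne_of_mem_erase ha).symm, hj⟩)] at h2

/-- Proof: `g = D a h` with `a ≠ i` (`IsLow.peel` for the letters `Y.erase j`, four at least), and
`ss i j (D a h) = D a (ss i j h)` (`D_ss`), which is in `Lam Y (d + 1)`. -/
theorem ss_low {J T : Submodule F (FL F)} (hJ : IsTIdeal F J) (hT : IsTIdeal F T) {Y : Finset ℕ}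
    (h0 : 0 ∉ Y) (hY : 5 ≤ Y.card) {d : ℕ} {i j : ℕ} (hj : j ∈ Y) (hi : i ∈ Y.erase j) {g : FL F}
    (hg : g ∈ T ⊔ Low J (Y.erase j) (d + 1)) : ss i j g ∈ Lam Y (d + 1) ⊔ T := by
  have hj0 : j ≠ 0 := fun h => h0 (h ▸ hj)
  have hi0 : i ≠ 0 := fun h => h0 (h ▸ Finset.mem_of_mem_erase hi)
  have h0j : 0 ∉ Y.erase j := fun h => h0 (Finset.mem_of_mem_erase h)
  refine low_span (T := T) ((ss (F := F) i j : FL F →ₗ⁅F⁆ FL F) : FL F →ₗ[F] FL F)
    (Lam Y (d + 1)) (fun f hf => Submodule.mem_sup_right (hT.ss_mem i j hf)) ?_ hg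
  intro f hf
  change ss i j f ∈ _
  obtain ⟨a, ha, hai, h, hh', rfl⟩ := hf.peelA h0j i (by
    rw [Finset.card_erase_of_mem hj]; omega)
  have hh := hh'.memW
  have ha0 : a ≠ 0 := fun h => h0j (h ▸ ha)
  rw [← D_ss ha0 hai hi0 hj0]
  apply D_mem_Lam (Finset.mem_of_mem_erase ha)
  have h2 := ss_mem (j := j) (Finset.mem_erase.2 ⟨hai.symm, hi⟩)
    (fun h => h0j (Finset.mem_of_mem_erase h))
    (fun h => Finset.notMem_erase j Y (Finset.mem_of_mem_erase h)) hj0 hh
  rwa [Finset.erase_right_comm, Finset.insert_erase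
    (Finset.mem_erase.2 ⟨(Finset.ne_of_mem_erase ha).symm, hj⟩)] at h2

/-- The recursion for at least five letters.
Proof: `Y = Icc 1 k`.  For `f ∈ J ⊓ KE Y (d + 1)` it is enough by `mem_T_of_KE'` that
`f ∈ Lam Y (d + 1) ⊔ T`; use `hG`, `le_low` (for `Y` and `d`, and for `Y.erase j` and `d + 1`,
both in degree `k + d`), `tt_low`, `lie_low`, `ss_low`. -/
theorem JZ_succ_of_five [CharZero F] {J T : Submodule F (FL F)} (hJ : IsTIdeal F J)
    (hT : IsTIdeal F T) {g : ℕ} (hG : IsGen J g) {k d : ℕ} (hk : 5 ≤ k) (hg : g < k + (d + 1))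
    (h : ∀ k', 3 ≤ k' → k' ≤ k → JZ J T k' (k + d - k')) : JZ J T k (d + 1) := by
  rintro f ⟨hfJ, hf⟩
  have h0 := zero_notMem_Icc k
  have hc : (Finset.Icc 1 k).card = k := by rw [Nat.card_Icc, Nat.add_sub_cancel]
  apply mem_T_of_KE' hT h0 hf
  have h1 := hG (Finset.Icc 1 k) d h0 (by rw [hc]; exact hg) ⟨hfJ, KE_le _ _ hf⟩
  have hlow : J ⊓ WW (Finset.Icc 1 k) d ≤ T ⊔ Low J (Finset.Icc 1 k) d :=
    le_low hJ hT _ h0 (by omega) (n := k + d) (by omega)
      (fun k' h3 h4 => h k' h3 (by omega))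
  have hlow' : ∀ j ∈ Finset.Icc 1 k, J ⊓ WW ((Finset.Icc 1 k).erase j) (d + 1) ≤
      T ⊔ Low J ((Finset.Icc 1 k).erase j) (d + 1) := by
    intro j hj
    have hc' := Finset.card_erase_of_mem hj
    exact le_low hJ hT _ (fun h => h0 (Finset.mem_of_mem_erase h)) (by omega) (n := k + d)
      (by omega) (fun k' h3 h4 => h k' h3 (by omega))
  have h2 : Gn J (Finset.Icc 1 k) d ≤ Lam (Finset.Icc 1 k) (d + 1) ⊔ T := by
    refine sup_le (sup_le ?_ ?_) ?_
    · refine iSup₂_le fun i hi => ?_
      rw [Submodule.map_le_iff_le_comap]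
      intro g hg
      exact tt_low hJ hT h0 (by omega) hi (hlow hg)
    · refine iSup₂_le fun j hj => ?_
      rw [Submodule.map_le_iff_le_comap]
      intro g hg
      exact lie_low hJ hT h0 (by omega) hj (hlow' j hj hg)
    · refine iSup₂_le fun j hj => iSup₂_le fun i hi => ?_
      rw [Submodule.map_le_iff_le_comap]
      intro g hg
      exact ss_low hJ hT h0 (by omega) hj hi (hlow' j hj hg)
  exact h2 h1

/-- Levels of `T` and of `T ⊔ J` agree where `J` lies in `T ⊔ Lam`.
Proof: let `Y = Icc 1 k`.  First `J ⊓ W k d ≤ Lam Y d ⊔ T`: for `k = 0` use that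
`WW ∅ d` is zero for `d ≠ 1` (`homC_replicate`; for `d = 0` `homC_zero`); otherwise `dec` and
`h`.  By homogeneity (`IsTIdeal.sup_inf_homC`) `(T ⊔ J) ⊓ W k d ≤ (T ⊓ W k d) ⊔ (J ⊓ W k d)`, and
`J ⊓ W k d ≤ (Lam Y d ⊔ T) ⊓ W k d = Lam Y d ⊔ (T ⊓ W k d)` (modular law, `Lam_le`).  So
`LevU T k d U` implies `LevU (T ⊔ J) k d U`. -/
theorem levelGood_of_sup [CharZero F] {J T : Submodule F (FL F)} (hJ : IsTIdeal F J)
    (hT : IsTIdeal F T) {k d : ℕ} (hk : 1 ≤ k) (h : JZ J T k d)
    (hg : LevelGood (T ⊔ J) k d) : LevelGood T k d := by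
  have h0 := zero_notMem_Icc k
  have key : ∀ U : Submodule F (FL F), LevU T k d U → LevU (T ⊔ J) k d U := by
    intro U hU
    refine ⟨hU.lam_le, ?_, hU.le_W, hU.stab⟩
    refine (hT.sup_inf_homC hJ _).trans (sup_le hU.T_le ?_)
    rintro f ⟨hfJ, hfW⟩
    obtain ⟨κ, g, hκJ, hκ, hg', rfl⟩ := dec hJ h0 hfJ hfW
    refine Submodule.add_mem _ (hU.T_le ⟨h ⟨hκJ, hκ⟩, KE_le _ _ hκ⟩) (Submodule.sum_mem _ ?_)
    intro j hj
    exact hU.lam_le (D_mem_Lam hj (hg' j hj).2)
  intro U1 U2 U3 h1 h2 h3
  exact hg U1 U2 U3 (key U1 h1) (key U2 h2) (key U3 h3)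

end

end Pool.Agent.Lib.MP_b4a71d_al.SD
end

section

/-!
# MP_b4a71d_al, S point, part D: generation of the T-ideal of one multilinear element
-/

set_option autoImplicit false
set_option linter.unusedSectionVars false
set_option linter.unusedVariables false

namespace Pool.Agent.Lib.MP_b4a71d_al.SD

universe u

noncomputable section

variable {F : Type u} [Field F]

/-- The span of the consequences of `g`: monomials substituted, then bracketed with letters. -/
def GS (g : FL F) : Submodule F (FL F) :=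
  Submodule.span F {f | ∃ (w : ℕ → FL F) (s : ℕ → Multiset ℕ) (l : List ℕ),
    (∀ i, IsMonoC (s i) (w i)) ∧ f = lnm (sb w g) l}

/-- Proof: the set of all `h` such that `⁅f, h⁆ ∈ GS g` for all `f ∈ GS g` contains the variables
(`lnm_concat`), and it is closed under brackets by `⁅f, ⁅a, b⁆⁆ = ⁅⁅f, a⁆, b⁆ - ⁅⁅f, b⁆, a⁆`; use
`fl_induction` and `homC_induction`. -/
theorem GS_lie {g f : FL F} (hf : f ∈ GS g) (h : FL F) : ⁅f, h⁆ ∈ GS g := by
  revert f
  refine fl_induction (p := fun h => ∀ {f : FL F}, f ∈ GS g → ⁅f, h⁆ ∈ GS g) ?_ ?_ h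
  · intro s h hh
    refine homC_induction (p := fun _ h => ∀ {f : FL F}, f ∈ GS g → ⁅f, h⁆ ∈ GS g)
      ?_ ?_ ?_ ?_ ?_ hh
    · intro i f hf
      induction hf using Submodule.span_induction with
      | mem f hf =>
        obtain ⟨w, s, l, hw, rfl⟩ := hf
        rw [← lnm_concat]
        exact Submodule.subset_span ⟨w, s, l ++ [i], hw, rfl⟩
      | zero => rw [zero_lie]; exact Submodule.zero_mem _
      | add a b _ _ h1 h2 => rw [add_lie]; exact Submodule.add_mem _ h1 h2
      | smul c a _ h1 => rw [smul_lie]; exact Submodule.smul_mem _ _ h1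
    · intro s t a b _ _ ha hb f hf
      have e1 : ⁅f, ⁅a, b⁆⁆ = ⁅⁅f, a⁆, b⁆ - ⁅⁅f, b⁆, a⁆ := by
        rw [leibniz_lie, ← lie_skew a ⁅f, b⁆, sub_eq_add_neg]
      rw [e1]
      exact Submodule.sub_mem _ (hb (ha hf)) (ha (hb hf))
    · intro s f _
      rw [lie_zero]
      exact Submodule.zero_mem _
    · intro s a b _ _ ha hb f hf
      rw [lie_add]
      exact Submodule.add_mem _ (ha hf) (hb hf)
    · intro s c a _ ha f hf
      rw [lie_smul]
      exact Submodule.smul_mem _ _ (ha hf)
  · intro a b ha hb f hf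
    rw [lie_add]
    exact Submodule.add_mem _ (ha hf) (hb hf)

/-- Proof: the claim for all `w` such that `w i` is a monomial for `i` outside a finite set `S` of
positions, by induction on `S` (`S ⊆ range n`; outside `range n` replace `w i` by a variable,
`sb_congr`); a new position is treated by linearity (`sb_add`, `sb_smul`, `fl_induction`,
`HomC s` is the span of the monomials of content `s`). -/
theorem sb_mem_GS {n : ℕ} {g : FL F} (hg : g ∈ P n) (w : ℕ → FL F) : sb w g ∈ GS g := by
  have key : ∀ S : Finset ℕ, S ⊆ Finset.range n → ∀ w : ℕ → FL F,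
      (∀ i, i ∉ S → ∃ s : Multiset ℕ, IsMonoC s (w i)) → sb w g ∈ GS g := by
    intro S
    induction S using Finset.induction_on with
    | empty =>
      intro _ w hw
      choose s hs using fun i => hw i (Finset.notMem_empty i)
      exact Submodule.subset_span ⟨w, s, [], hs, rfl⟩
    | insert a S ha ih =>
      intro hS w hw
      have han : a < n := Finset.mem_range.1 (hS (Finset.mem_insert_self a S))
      have hc : (Multiset.range n).count a = 1 :=
        Multiset.count_eq_one_of_mem (Multiset.nodup_range n) (Multiset.mem_range.2 han)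
      have h1 : ∀ v : FL F, sb (Function.update w a v) g ∈ GS g := by
        intro v
        refine fl_induction (p := fun v => sb (Function.update w a v) g ∈ GS g) ?_ ?_ v
        · intro s v hv
          induction hv using Submodule.span_induction with
          | mem v hv =>
            apply ih (fun i hi => hS (Finset.mem_insert_of_mem hi))
            intro i hi
            by_cases hia : i = a
            · subst hia
              rw [Function.update_self]
              exact ⟨s, hv⟩
            · rw [Function.update_of_ne hia]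
              exact hw i (fun h => (Finset.mem_insert.1 h).elim hia hi)
          | zero =>
            rw [sb_zero hg w hc]
            exact Submodule.zero_mem _
          | add b c _ _ h1 h2 =>
            rw [sb_add hg w hc]
            exact Submodule.add_mem _ h1 h2
          | smul c b _ h1 =>
            rw [sb_smul hg w hc]
            exact Submodule.smul_mem _ _ h1
        · intro b c h1 h2
          rw [sb_add hg w hc]
          exact Submodule.add_mem _ h1 h2
      have h2 := h1 (w a)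
      rwa [Function.update_eq_self] at h2
  have h1 : sb w g = sb (fun i => if i ∈ Finset.range n then w i else X F i) g := by
    apply sb_congr hg
    intro i hi
    rw [if_pos]
    exact Finset.mem_range.2 (Multiset.mem_range.1 hi)
  rw [h1]
  apply key (Finset.range n) subset_rfl
  intro i hi
  rw [if_neg hi]
  exact ⟨{i}, IsMonoC.var i⟩

/-- Proof: `φ (lnm (sb w g) l)` is an iterated bracket starting with
`φ (sb w g) = sb (fun i => φ (w i)) g`; use `sb_mem_GS`, `GS_lie`, `map_lnm`. -/
theorem GS_isTIdeal {n : ℕ} {g : FL F} (hg : g ∈ P n) : IsTIdeal F (GS g) := by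
  constructor
  · intro f hf h
    exact GS_lie hf h
  · intro φ f hf
    have h1 : ∀ (l : List ℕ) (u : FL F), u ∈ GS g →
        l.foldl (fun v i => ⁅v, φ (X F i)⁆) u ∈ GS g := by
      intro l
      induction l with
      | nil => intro u hu; exact hu
      | cons i l ih =>
        intro u hu
        rw [List.foldl_cons]
        exact ih _ (GS_lie hu _)
    induction hf using Submodule.span_induction with
    | mem f hf =>
      obtain ⟨w, s, l, hw, rfl⟩ := hf
      rw [map_lnm]
      apply h1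
      have h2 : φ (sb w g) = sb (fun i => φ (w i)) g := by
        change (φ.comp (sb w)) g = _
        apply hom_congr hg
        intro i _
        rw [LieHom.comp_apply, sb_X, sb_X]
      rw [h2]
      exact sb_mem_GS hg _
    | zero => rw [map_zero]; exact Submodule.zero_mem _
    | add a b _ _ h1 h2 => rw [map_add]; exact Submodule.add_mem _ h1 h2
    | smul c a _ h1 => rw [map_smul]; exact Submodule.smul_mem _ _ h1

/-- Proof: `g = sb (X F) g`. -/
theorem genT_le_GS {n : ℕ} {g : FL F} (hg : g ∈ P n) : genT {g} ≤ GS g := by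
  apply genT_le (GS_isTIdeal hg)
  intro f hf
  rw [Set.mem_singleton_iff] at hf
  subst hf
  have h1 : sb (X F) f = f := by
    have h2 := hom_congr hg (sb (X F)) (LieHom.id : FL F →ₗ⁅F⁆ FL F) (fun i _ => by
      rw [sb_X, LieHom.id_apply])
    rwa [LieHom.id_apply] at h2
  have h2 := sb_mem_GS hg (X F)
  rw [h1] at h2
  exact h2

theorem erase_add_self (s : Multiset ℕ) (j : ℕ) : (s + {j}).erase j = s := by
  have h : ({j} : Multiset ℕ).erase j = 0 := by simp
  rw [Multiset.erase_add_right_pos _ (Multiset.mem_singleton_self j), h, add_zero]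

/-- A monomial of degree at least two whose non zero letters occur once is zero or up to sign a
substitution `y_a → [y_a, x_b]` in a smaller monomial.  (`ss a 0 = tt a`.)
Proof: induction on the monomial `⁅p, q⁆`.  If both factors are letters `X i`, `X j`: for
`i = j = 0` it is zero; for `i ≠ 0` take `a = i`, `b = j` (`j ≠ i`, otherwise `i` occurs twice);
for `i = 0` and `j ≠ 0` take `a = j`, `b = 0`, sign `-1`.  If one factor has degree at least two,
use the induction hypothesis for it; `a` does not occur in the other factor, so the other factor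
is fixed by `ss a b` (`hom_congr`).  A monomial of degree one is a letter (`IsMonoC.eq_X`). -/
theorem cherry {s : Multiset ℕ} {m : FL F} (hm : IsMonoC s m) (hs : 2 ≤ Multiset.card s)
    (h1 : ∀ a, a ≠ 0 → s.count a ≤ 1) :
    m = 0 ∨ ∃ (a b : ℕ) (m' : FL F) (c : F), a ≠ 0 ∧ b ≠ a ∧ a ∈ s ∧ b ∈ s ∧
      IsMonoC (s.erase b) m' ∧ m = c • ss a b m' := by
  induction hm with
  | var i =>
    rw [Multiset.card_singleton] at hs
    omega
  | @brac s t p q hp hq ih1 ih2 =>
    have hfix : ∀ {t : Multiset ℕ} {q : FL F} (a b : ℕ), IsMonoC t q → a ∉ t →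
        ss a b q = q := by
      intro t q a b hq ha
      have h2 := hom_congr hq.mem (ss a b) (LieHom.id : FL F →ₗ⁅F⁆ FL F) (fun i hi => by
        rw [ss_X_ne, LieHom.id_apply]
        rintro rfl
        exact ha hi)
      rwa [LieHom.id_apply] at h2
    have hcount : ∀ a, a ≠ 0 → s.count a + t.count a ≤ 1 := by
      intro a ha
      have := h1 a ha
      rwa [Multiset.count_add] at this
    by_cases h2 : 2 ≤ Multiset.card s
    · rcases ih1 h2 (fun a ha => by have := hcount a ha; omega) with h3 | h3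
      · left
        rw [h3, zero_lie]
      · obtain ⟨a, b, m', c, ha, hb, has, hbs, hm', rfl⟩ := h3
        right
        have hat : a ∉ t := by
          intro h
          have h4 := hcount a ha
          have h5 := Multiset.count_pos.2 has
          have h6 := Multiset.count_pos.2 h
          omega
        refine ⟨a, b, ⁅m', q⁆, c, ha, hb, Multiset.mem_add.2 (Or.inl has),
          Multiset.mem_add.2 (Or.inl hbs), ?_, ?_⟩
        · rw [Multiset.erase_add_left_pos t hbs]
          exact IsMonoC.brac hm' hq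
        · rw [LieHom.map_lie, hfix a b hq hat, smul_lie]
    · by_cases h3 : 2 ≤ Multiset.card t
      · rcases ih2 h3 (fun a ha => by have := hcount a ha; omega) with h4 | h4
        · left
          rw [h4, lie_zero]
        · obtain ⟨a, b, m', c, ha, hb, has, hbs, hm', rfl⟩ := h4
          right
          have hat : a ∉ s := by
            intro h
            have h4 := hcount a ha
            have h5 := Multiset.count_pos.2 has
            have h6 := Multiset.count_pos.2 h
            omega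
          refine ⟨a, b, ⁅p, m'⁆, c, ha, hb, Multiset.mem_add.2 (Or.inr has),
            Multiset.mem_add.2 (Or.inr hbs), ?_, ?_⟩
          · rw [Multiset.erase_add_right_pos s hbs]
            exact IsMonoC.brac hp hm'
          · rw [LieHom.map_lie, hfix a b hp hat, lie_smul]
      · have h4 := hp.card_pos
        have h5 := hq.card_pos
        obtain ⟨i, rfl, rfl⟩ := hp.eq_X (by omega)
        obtain ⟨j, rfl, rfl⟩ := hq.eq_X (by omega)
        have e1 : ∀ i j : ℕ, ({i} + {j} : Multiset ℕ).erase j = {i} := by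
          intro i j
          exact erase_add_self _ _
        have e2 : ∀ i j : ℕ, ({i} + {j} : Multiset ℕ).erase i = {j} := by
          intro i j
          rw [add_comm, e1]
        by_cases hi : i = 0
        · subst hi
          by_cases hj : j = 0
          · subst hj
            left
            rw [lie_self]
          · right
            refine ⟨j, 0, X F j, -1, hj, fun h => hj h.symm, ?_, ?_, ?_, ?_⟩
            · exact Multiset.mem_add.2 (Or.inr (Multiset.mem_singleton_self j))
            · exact Multiset.mem_add.2 (Or.inl (Multiset.mem_singleton_self 0))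
            · rw [e2]
              exact IsMonoC.var j
            · rw [ss_X_same, neg_smul, one_smul, lie_skew]
        · right
          have hij : i ≠ j := by
            rintro rfl
            have := hcount i hi
            rw [Multiset.count_singleton_self] at this
            omega
          refine ⟨i, j, X F i, 1, hi, fun h => hij h.symm, ?_, ?_, ?_, ?_⟩
          · exact Multiset.mem_add.2 (Or.inl (Multiset.mem_singleton_self i))
          · exact Multiset.mem_add.2 (Or.inr (Multiset.mem_singleton_self j))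
          · rw [e1]
            exact IsMonoC.var i
          · rw [ss_X_same, one_smul]

theorem gen_count_le {Y : Finset ℕ} (d : ℕ) {p : ℕ} (hp : p ≠ 0) :
    (cont Y d).count p ≤ 1 := by
  rw [cont, Multiset.count_add, Multiset.count_replicate, if_neg (Ne.symm hp), zero_add]
  exact (Multiset.nodup_iff_count_le_one.1 Y.nodup) p

/-- Proof: `f = cmp (cont Y (d + 1)) f` and `f ∈ GS g`, so `f` is in the span of the generators
`lnm (sb w g) l` of content `cont Y (d + 1)` (the content is `∑ i ∈ range n, s i + l`; the others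
have component zero).  For such a generator: if `l = l' ++ [i]`, it is `⁅u, X i⁆` with
`u = lnm (sb w g) l' ∈ genT {g}`; for `i = 0` use `lie_x`; for `i ∈ Y` the second part of `Gn`.
If `l = []`, some `s i`, `i < n`, has at least two elements (pigeonhole); apply `cherry` to `w i`;
the letter `a` does not occur in the other `s j`, so
`sb w g = c • ss a b (sb (Function.update w i m') g)`, which is in the first part of `Gn` for
`b = 0` (`ss a 0 = tt a`) and in the third part for `b ∈ Y`. -/
theorem isGen_genT [CharZero F] {n : ℕ} {g : FL F} (hg : g ∈ P n) : IsGen (genT {g}) n := by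
  intro Y d h0 hn f hf
  have hJ : IsTIdeal F (genT {g}) := genT_isTIdeal _
  have hgJ : g ∈ genT {g} := subset_genT _ rfl
  have hf1 : f ∈ GS g := genT_le_GS hg hf.1
  have hf2 : cmp (cont Y (d + 1)) f = f := cmp_of_mem hf.2
  rw [← hf2]
  clear hf2 hf
  induction hf1 using Submodule.span_induction with
  | zero => rw [map_zero]; exact Submodule.zero_mem _
  | add a b _ _ h1 h2 => rw [map_add]; exact Submodule.add_mem _ h1 h2
  | smul c a _ h1 => rw [map_smul]; exact Submodule.smul_mem _ _ h1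
  | mem x hx =>
    obtain ⟨w, s, l, hw, rfl⟩ := hx
    have hsb : sb w g ∈ HomC (F := F) ((Multiset.range n).bind s) :=
      hom_mem hg (sb w) s (fun i _ => by rw [sb_X]; exact (hw i).mem)
    have hsbJ : sb w g ∈ genT {g} := hJ.map_mem _ _ hgJ
    by_cases hc : (Multiset.range n).bind s + (l : Multiset ℕ) = cont Y (d + 1)
    swap
    · rw [cmp_of_mem_ne (lnm_mem hsb l) hc]
      exact Submodule.zero_mem _
    rw [cmp_of_mem (by rw [← hc]; exact lnm_mem hsb l)]
    rcases List.eq_nil_or_concat l with rfl | ⟨l', i, rfl⟩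
    · -- no bracket
      rw [Multiset.coe_nil, add_zero] at hc
      rw [lnm_nil]
      have hcard : n < Multiset.card ((Multiset.range n).bind s) := by
        rw [hc, cont, Multiset.card_add, Multiset.card_replicate, Finset.card_val]
        omega
      obtain ⟨i, hi, hi2⟩ : ∃ i, i < n ∧ 2 ≤ Multiset.card (s i) := by
        by_contra hcon
        push Not at hcon
        rw [Multiset.card_bind] at hcard
        have h1 : (Multiset.map (Multiset.card ∘ s) (Multiset.range n)).sum ≤
            Multiset.card (Multiset.map (Multiset.card ∘ s) (Multiset.range n)) • 1 := by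
          apply Multiset.sum_le_card_nsmul
          intro x hx
          obtain ⟨i, hi, rfl⟩ := Multiset.mem_map.1 hx
          have := hcon i (Multiset.mem_range.1 hi)
          rw [Function.comp_apply]
          omega
        rw [Multiset.card_map, Multiset.card_range, smul_eq_mul, mul_one] at h1
        omega
      have hle : ∀ a, a ≠ 0 → ((Multiset.range n).bind s).count a ≤ 1 := by
        intro a ha
        rw [hc]
        exact gen_count_le (d + 1) ha
      have hsplit : (Multiset.range n) = i ::ₘ (Multiset.range n).erase i :=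
        (Multiset.cons_erase (Multiset.mem_range.2 hi)).symm
      have hbind : (Multiset.range n).bind s = s i + ((Multiset.range n).erase i).bind s := by
        conv_lhs => rw [hsplit]
        rw [Multiset.cons_bind]
      have hci : (Multiset.range n).count i = 1 :=
        Multiset.count_eq_one_of_mem (Multiset.nodup_range n) (Multiset.mem_range.2 hi)
      rcases cherry (hw i) hi2 (fun a ha => by
        have h1 := hle a ha
        rw [hbind, Multiset.count_add] at h1
        omega) with h1 | ⟨a, b, m', c, ha, hba, has, hbs, hm', hwi⟩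
      · have h2 : sb (Function.update w i (0 : FL F)) g = 0 := sb_zero hg w hci
        have h3 : Function.update w i (0 : FL F) = w := by
          rw [← h1]
          exact Function.update_eq_self i w
        rw [h3] at h2
        rw [h2]
        exact Submodule.zero_mem _
      · have hcontent : ((Multiset.range n).bind (Function.update s i ((s i).erase b))) =
            (cont Y (d + 1)).erase b := by
          rw [← hc, hbind, Multiset.erase_add_left_pos _ hbs]
          conv_lhs => rw [hsplit]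
          rw [Multiset.cons_bind, Function.update_self]
          congr 1
          apply Multiset.bind_congr
          intro j hj
          rw [Function.update_of_ne]
          rintro rfl
          exact (Multiset.Nodup.notMem_erase (Multiset.nodup_range n)) hj
        have hnot : ∀ j ∈ Multiset.range n, j ≠ i → a ∉ s j := by
          intro j hj hji haj
          have h1 := hle a ha
          rw [hbind, Multiset.count_add] at h1
          have h2 := Multiset.count_pos.2 has
          have h3 : a ∈ ((Multiset.range n).erase i).bind s :=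
            Multiset.mem_bind.2 ⟨j, (Multiset.mem_erase_of_ne hji).2 hj, haj⟩
          have h4 := Multiset.count_pos.2 h3
          omega
        have hw' : sb w g = c • ss a b (sb (Function.update w i m') g) := by
          have h1 : ss a b (sb (Function.update w i m') g) =
              sb (Function.update w i (ss a b m')) g := by
            change ((ss a b).comp (sb (Function.update w i m'))) g = _
            apply hom_congr hg
            intro j hj
            rw [LieHom.comp_apply, sb_X, sb_X]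
            by_cases hji : j = i
            · subst hji
              rw [Function.update_self, Function.update_self]
            · rw [Function.update_of_ne hji, Function.update_of_ne hji]
              have h2 := hom_congr (hw j).mem (ss a b) (LieHom.id : FL F →ₗ⁅F⁆ FL F)
                (fun k hk => by
                  rw [ss_X_ne, LieHom.id_apply]
                  rintro rfl
                  exact hnot j hj hji hk)
              rwa [LieHom.id_apply] at h2
          rw [h1, ← sb_smul hg w hci, ← hwi, Function.update_eq_self]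
        have hmem : sb (Function.update w i m') g ∈ HomC (F := F) ((cont Y (d + 1)).erase b) := by
          rw [← hcontent]
          apply hom_mem hg
          intro j _
          rw [sb_X]
          by_cases hji : j = i
          · subst hji
            rw [Function.update_self, Function.update_self]
            exact hm'.mem
          · rw [Function.update_of_ne hji, Function.update_of_ne hji]
            exact (hw j).mem
        have hmemJ : sb (Function.update w i m') g ∈ genT {g} := hJ.map_mem _ _ hgJ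
        have haY : a ∈ Y := by
          have h1 : a ∈ cont Y (d + 1) := by
            rw [← hc, hbind]
            exact Multiset.mem_add.2 (Or.inl has)
          exact (mem_cont h1).resolve_left ha
        have hbc : b ∈ cont Y (d + 1) := by
          rw [← hc, hbind]
          exact Multiset.mem_add.2 (Or.inl hbs)
        rw [hw']
        apply Submodule.smul_mem
        by_cases hb0 : b = 0
        · subst hb0
          have h1 : (cont Y (d + 1)).erase 0 = cont Y d := by
            rw [← cont_add_zero]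
            exact erase_add_self _ _
          rw [h1] at hmem
          refine Submodule.mem_sup_left (Submodule.mem_sup_left ?_)
          exact (le_iSup₂_of_le (f := fun i (_ : i ∈ Y) => (genT {g} ⊓ WW Y d).map
            ((tt (F := F) i : FL F →ₗ⁅F⁆ FL F) : FL F →ₗ[F] FL F)) a haY le_rfl)
            ⟨_, ⟨hmemJ, hmem⟩, rfl⟩
        · have hbY : b ∈ Y := (mem_cont hbc).resolve_left hb0
          have h1 : (cont Y (d + 1)).erase b = cont (Y.erase b) (d + 1) := by
            conv_lhs => rw [← Finset.insert_erase hbY, ← cont_add_new (Finset.notMem_erase b Y)]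
            exact erase_add_self _ _
          rw [h1] at hmem
          refine Submodule.mem_sup_right ?_
          have haY' : a ∈ Y.erase b := Finset.mem_erase.2 ⟨fun h => hba h.symm, haY⟩
          refine (le_iSup₂_of_le (f := fun j (_ : j ∈ Y) => ⨆ i ∈ Y.erase j,
            (genT {g} ⊓ WW (Y.erase j) (d + 1)).map
              ((ss (F := F) i j : FL F →ₗ⁅F⁆ FL F) : FL F →ₗ[F] FL F)) b hbY le_rfl) ?_
          exact (le_iSup₂_of_le (f := fun i (_ : i ∈ Y.erase b) =>
            (genT {g} ⊓ WW (Y.erase b) (d + 1)).map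
              ((ss (F := F) i b : FL F →ₗ⁅F⁆ FL F) : FL F →ₗ[F] FL F)) a haY' le_rfl)
            ⟨_, ⟨hmemJ, hmem⟩, rfl⟩
    · -- a bracket
      rw [List.concat_eq_append] at hc ⊢
      rw [lnm_concat]
      have hu : lnm (sb w g) l' ∈ HomC (F := F) ((Multiset.range n).bind s + (l' : Multiset ℕ)) :=
        lnm_mem hsb l'
      have huJ : lnm (sb w g) l' ∈ genT {g} := by
        clear hc hu
        have : ∀ (l : List ℕ) (u : FL F), u ∈ genT {g} → lnm u l ∈ genT {g} := by
          intro l
          induction l with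
          | nil => intro u hu; exact hu
          | cons i l ih => intro u hu; exact ih _ (hJ.lie_mem u hu _)
        exact this l' _ hsbJ
      have hc' : ((Multiset.range n).bind s + (l' : Multiset ℕ)) + {i} = cont Y (d + 1) := by
        rw [← hc, ← Multiset.coe_add, Multiset.coe_singleton, add_assoc]
      have hic : i ∈ cont Y (d + 1) := by
        rw [← hc']
        exact Multiset.mem_add.2 (Or.inr (Multiset.mem_singleton_self i))
      rcases mem_cont hic with rfl | hiY
      · have h1 : (Multiset.range n).bind s + (l' : Multiset ℕ) = cont Y d := by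
          rw [← cont_add_zero] at hc'
          exact add_right_cancel hc'
        rw [h1] at hu
        rw [lie_x h0 hu]
        apply Submodule.sum_mem
        intro a haY
        refine Submodule.mem_sup_left (Submodule.mem_sup_left ?_)
        exact (le_iSup₂_of_le (f := fun i (_ : i ∈ Y) => (genT {g} ⊓ WW Y d).map
          ((tt (F := F) i : FL F →ₗ⁅F⁆ FL F) : FL F →ₗ[F] FL F)) a haY le_rfl)
          ⟨_, ⟨huJ, hu⟩, rfl⟩
      · have h1 : (Multiset.range n).bind s + (l' : Multiset ℕ) = cont (Y.erase i) (d + 1) := by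
          have h2 : cont (Y.erase i) (d + 1) + {i} = cont Y (d + 1) := by
            rw [cont_add_new (Finset.notMem_erase i Y), Finset.insert_erase hiY]
          rw [← h2] at hc'
          exact add_right_cancel hc'
        rw [h1] at hu
        refine Submodule.mem_sup_left (Submodule.mem_sup_right ?_)
        exact (le_iSup₂_of_le (f := fun j (_ : j ∈ Y) =>
          (genT {g} ⊓ WW (Y.erase j) (d + 1)).map (lieBy (X F j))) i hiY le_rfl)
          ⟨_, ⟨huJ, hu⟩, rfl⟩

/-- The T-ideal of the law of `sl₂`. -/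
def J5 (F : Type u) [Field F] : Submodule F (FL F) := genT {S.lawFL F}

theorem J5_isTIdeal : IsTIdeal F (J5 F) := genT_isTIdeal _

theorem lawFL_mem_J5 : S.lawFL F ∈ J5 F := subset_genT _ rfl

/-- Proof: unfold `lawFL`, `phi`; every monomial has content `{0, 1, 2, 3, 4}`. -/
theorem phi_mem {s1 s2 s3 s4 : Multiset ℕ} {a b c d : FL F} (ha : a ∈ HomC s1)
    (hb : b ∈ HomC s2) (hc : c ∈ HomC s3) (hd : d ∈ HomC s4) :
    S.phi a b c d ∈ HomC (F := F) (s1 + s2 + s3 + s4) := by
  rw [S.phi]
  refine Submodule.sub_mem _ (Submodule.sub_mem _ (Submodule.sub_mem _ ?_ ?_) ?_) ?_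
  · have h := lie_mem_homC (lie_mem_homC ha hc) (lie_mem_homC hb hd)
    rwa [show s1 + s3 + (s2 + s4) = s1 + s2 + s3 + s4 by abel] at h
  · have h := lie_mem_homC (lie_mem_homC ha hd) (lie_mem_homC hb hc)
    rwa [show s1 + s4 + (s2 + s3) = s1 + s2 + s3 + s4 by abel] at h
  · have h := lie_mem_homC (lie_mem_homC (lie_mem_homC hc hd) ha) hb
    rwa [show s3 + s4 + s1 + s2 = s1 + s2 + s3 + s4 by abel] at h
  · have h := lie_mem_homC (lie_mem_homC (lie_mem_homC hc hd) hb) ha
    rwa [show s3 + s4 + s2 + s1 = s1 + s2 + s3 + s4 by abel] at h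

theorem lawFL_mem_P : S.lawFL F ∈ P (F := F) 5 := by
  have e : (Multiset.range 5) = {0} + {1} + {2} + {3} + {4} := by decide
  rw [P, e, S.lawFL]
  refine Submodule.sub_mem _ ?_ ?_
  · exact lie_mem_homC (phi_mem (X_mem 0) (X_mem 1) (X_mem 2) (X_mem 3)) (X_mem 4)
  · have h := phi_mem (X_mem (F := F) 0) (X_mem 1) (lie_mem_homC (X_mem 2) (X_mem 3)) (X_mem 4)
    rwa [← add_assoc] at h

theorem isGen_J5 [CharZero F] : IsGen (J5 F) 5 := isGen_genT lawFL_mem_P

end

end Pool.Agent.Lib.MP_b4a71d_al.SD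
end

section

/-!
# MP_b4a71d_al, S point, part D: the identities of `gl₂`
-/

set_option autoImplicit false
set_option linter.unusedSectionVars false
set_option linter.unusedVariables false

namespace Pool.Agent.Lib.MP_b4a71d_al.SD

universe u

noncomputable section

variable {F : Type u} [Field F]

/-- Two by two matrices. -/
abbrev M2 (F : Type u) [Field F] := Matrix (Fin 2) (Fin 2) F

instance instLieRingM2 : LieRing (M2 F) := LieRing.ofAssociativeRing

instance instLieAlgebraM2 : LieAlgebra F (M2 F) := LieAlgebra.ofAssociativeAlgebra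

theorem lie_M2 (a b : M2 F) : ⁅a, b⁆ = a * b - b * a := rfl

/-- The identities of `gl₂`. -/
def Isl (F : Type u) [Field F] : Submodule F (FL F) where
  carrier := {f | ∀ φ : FL F →ₗ⁅F⁆ M2 F, φ f = 0}
  add_mem' := by
    intro a b ha hb φ
    rw [map_add, ha φ, hb φ, add_zero]
  zero_mem' := by
    intro φ
    rw [map_zero]
  smul_mem' := by
    intro c a ha φ
    rw [map_smul, ha φ, smul_zero]

theorem mem_Isl {f : FL F} : f ∈ Isl F ↔ ∀ φ : FL F →ₗ⁅F⁆ M2 F, φ f = 0 := Iff.rfl

theorem Isl_isTIdeal : IsTIdeal F (Isl F) where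
  lie_mem := by
    intro f hf g φ
    rw [LieHom.map_lie, hf φ, zero_lie]
  map_mem := by
    intro ψ f hf φ
    exact hf (φ.comp ψ)

/-- The invariant form: `2 tr (ab) - tr a tr b`, up to sign and factor as needed in `phi_M2`. -/
def qf (a b : M2 F) : F := 2 * (a * b).trace - a.trace * b.trace

/-- `phi a b c d` is a multiple of `[c, d]` by the invariant form. -/
theorem phi_M2 (a b c d : M2 F) : S.phi a b c d = (-2 * qf a b) • ⁅c, d⁆ := by
  ext i j
  fin_cases i <;> fin_cases j <;>
  · simp only [S.phi, lie_M2, qf, Matrix.trace_fin_two, Matrix.sub_apply, Matrix.smul_apply,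
      Matrix.mul_apply, Fin.sum_univ_two, smul_eq_mul, Fin.zero_eta, Fin.mk_one, Fin.isValue]
    ring

/-- The law holds in `gl₂`.  Proof: `phi_M2` twice. -/
theorem law_M2 : S.Law (M2 F) := by
  intro a b c d v
  rw [phi_M2, phi_M2, smul_lie]

/-- Proof: `genT_le Isl_isTIdeal`; `φ (lawFL F) = 0` by `law_M2`. -/
theorem J5_le_Isl : J5 F ≤ Isl F := by
  apply genT_le Isl_isTIdeal
  intro f hf
  rw [Set.mem_singleton_iff] at hf
  subst hf
  intro φ
  have h := law_M2 (F := F) (φ (X F 0)) (φ (X F 1)) (φ (X F 2)) (φ (X F 3)) (φ (X F 4))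
  rw [← sub_eq_zero] at h
  rw [S.lawFL, map_sub, LieHom.map_lie]
  simp only [S.phi, map_sub, LieHom.map_lie] at h ⊢
  exact h

/-- `diag(1,-1)` -/
def mh : M2 F := !![1, 0; 0, -1]

/-- `E12` -/
def me : M2 F := !![0, 1; 0, 0]

/-- `E21` -/
def mf : M2 F := !![0, 0; 1, 0]

theorem me_mh : ⁅(me : M2 F), (mh : M2 F)⁆ = (-2 : F) • (me : M2 F) := by
  ext i j
  fin_cases i <;> fin_cases j <;> simp [lie_M2, me, mh]
  all_goals norm_num

theorem mf_mh : ⁅(mf : M2 F), (mh : M2 F)⁆ = (2 : F) • (mf : M2 F) := by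
  ext i j
  fin_cases i <;> fin_cases j <;> simp [lie_M2, mf, mh]
  all_goals norm_num

theorem me_mf : ⁅(me : M2 F), (mf : M2 F)⁆ = (mh : M2 F) := by
  ext i j
  fin_cases i <;> fin_cases j <;> simp [lie_M2, me, mf, mh]

/-- The substitution `x ↦ h`, `y_1, y_2, y_3 ...↦ w 1, w 2, ...`. -/
def evh (w : ℕ → M2 F) : FL F →ₗ⁅F⁆ M2 F := sb (fun i => if i = 0 then mh else w i)

theorem evh_zero (w : ℕ → M2 F) : evh w (X F 0) = mh := by
  rw [evh, sb_X, if_pos rfl]

theorem evh_ne (w : ℕ → M2 F) {i : ℕ} (h : i ≠ 0) : evh w (X F i) = w i := by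
  rw [evh, sb_X, if_neg h]

/-- Proof: `evh w (tt l (X i))` is `c • w l` for `i = l`; `f` is linear in `y_l`
(`sb_if_smul`-like argument: use `hom_eq`/`hom_congr` to write `(evh w).comp (tt l)` on
`HomC (cont Y d)` as `sb` of the function with `c • w l` at `l`, and `sb_smul`, `sb_congr`,
`Function.update`). -/
theorem evh_tt {Y : Finset ℕ} {l d : ℕ} (hl : l ∈ Y) (h0 : 0 ∉ Y) {f : FL F} (hf : f ∈ WW Y d)
    (w : ℕ → M2 F) (c : F) (hc : ⁅w l, (mh : M2 F)⁆ = c • w l) :
    evh w (tt l f) = c • evh w f := by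
  have hl0 : l ≠ 0 := fun h => h0 (h ▸ hl)
  have h1 : evh w (tt l f) =
      sb (Function.update (fun i => if i = 0 then mh else w i) l (c • w l)) f := by
    change ((evh w).comp (tt l)) f = _
    apply hom_congr hf
    intro i _
    rw [LieHom.comp_apply, sb_X]
    by_cases hi : i = l
    · subst hi
      rw [tt_X_same, LieHom.map_lie, evh_ne w hl0, evh_zero, hc, Function.update_self]
    · rw [tt_X_ne hi, Function.update_of_ne hi, evh, sb_X]
  have h2 : Function.update (fun i => if i = 0 then mh else w i) l (w l) =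
      (fun i => if i = 0 then mh else w i) := by
    funext i
    by_cases hi : i = l
    · subst hi
      rw [Function.update_self, if_neg hl0]
    · rw [Function.update_of_ne hi]
  rw [h1, sb_smul hf _ (count_cont hl h0 d), h2, evh]

/-- `⁅⁅⁅y1, x⁆, ⁅y2, x⁆⁆, x⁆` is a consequence of the law.  This is the T-ideal membership of
degree five; proof by a certificate in another file. -/
def w3 (F : Type u) [Field F] : FL F := ⁅⁅⁅X F 1, X F 0⁆, ⁅X F 2, X F 0⁆⁆, X F 0⁆

/-- `J ⊓ WW {j} d` is zero for `J ≤ Isl`.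
Proof: `WW {j} d` is spanned by `yx j d` (`WW_singleton`, `yx`), and `evh (fun _ => me)` maps it
to `(-2)^d me ≠ 0`. -/
theorem Isl_one [CharZero F] {j d : ℕ} (hj : j ≠ 0) {f : FL F} (hf : f ∈ Isl F)
    (hfW : f ∈ WW {j} d) : f = 0 := by
  rw [WW_singleton] at hfW
  obtain ⟨c, rfl⟩ := Submodule.mem_span_singleton.1 hfW
  have h1 : ∀ d, evh (fun _ => (me : M2 F)) (yx (F := F) j d) = ((-2 : F) ^ d) • me := by
    intro d
    induction d with
    | zero => rw [yx_zero, evh_ne _ hj, pow_zero, one_smul]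
    | succ d ih =>
      rw [yx_succ, LieHom.map_lie, ih, evh_zero, smul_lie, me_mh, smul_smul, pow_succ]
  have h2 := hf (evh (fun _ => (me : M2 F)))
  rw [map_smul] at h2
  have h3 : evh (fun _ => (me : M2 F)) (lnm (X F j) (List.replicate d 0)) =
      ((-2 : F) ^ d) • me := h1 d
  rw [h3, smul_smul] at h2
  have h4 := congrFun (congrFun h2 0) 1
  have h5 : c * (-2 : F) ^ d = 0 := by
    simpa [me] using h4
  have h6 : c = 0 := by
    rcases mul_eq_zero.1 h5 with h | h
    · exact h
    · exact absurd h (pow_ne_zero _ (by norm_num))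
  rw [h6, zero_smul]

end

end Pool.Agent.Lib.MP_b4a71d_al.SD
end
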