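import Pool.Agent.Lib.MP_b4a71d_al.SD.Eval

section

/-!
# MP_b4a71d_al, S point, part D: level two
-/

set_option autoImplicit false
set_option linter.unusedSectionVars false
set_option linter.unusedVariables false

namespace Pool.Agent.Lib.MP_b4a71d_al.SD

universe u

noncomputable section

variable {F : Type u} [Field F]

/-- The relation `a_S`: `t1 t2 (t1 + t2)^2 [y1, y2] ∈ T`. -/
def RelA (T : Submodule F (FL F)) : Prop :=
  ⁅⁅⁅⁅X F 1, X F 0⁆, ⁅X F 2, X F 0⁆⁆, X F 0⁆, X F 0⁆ ∈ T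

/-- `t_a^(m+1) t_b (t_a + t_b) [y_a, y_b]`. -/
def wv (a b m : ℕ) : FL F := ⁅⁅yx (F := F) a (m + 1), ⁅X F b, X F 0⁆⁆, X F 0⁆

/-- Proof: contents (`yx_mem`, `lie_mem_homC`), `E_lie_x`, `E_yx_succ`, `E_yx_ne`. -/
theorem wv_mem {a b : ℕ} (ha : a ≠ 0) (hb : b ≠ 0) (hab : a ≠ b) (m : ℕ) :
    wv a b m ∈ KE (F := F) {a, b} (m + 3) := by
  have h1 := lie_mem_homC (yx_mem (F := F) a (m + 1)) (yx_mem (F := F) b 1)
  have h2 : cont {a} (m + 1) + cont {b} 1 = cont {a, b} (m + 2) := by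
    have h4 : ({a, b} : Finset ℕ).val = ({a} : Finset ℕ).val + ({b} : Finset ℕ).val := by
      rw [Finset.insert_val_of_notMem (by rw [Finset.mem_singleton]; exact hab)]
      rfl
    rw [cont, cont, cont, h4, show m + 2 = m + 1 + 1 from rfl,
      Multiset.replicate_add (m + 1) 1]
    abel
  rw [h2] at h1
  have h3 : ⁅yx (F := F) a (m + 1), yx (F := F) b 1⁆ ∈ WW {a, b} (m + 2) := h1
  rw [mem_KE]
  refine ⟨lie_X0_mem_WW h3, ?_⟩
  intro j hj
  have h5 : E a ⁅yx (F := F) a (m + 1), yx (F := F) b 1⁆ = 0 := by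
    have e1 : dd a 0 (yx (F := F) b 1) = 0 := E_yx_ne 1 ha (Ne.symm hab)
    have e2 : dd a 0 (yx (F := F) a (m + 1)) = 0 := E_yx_succ m ha
    rw [E, dd_lie, e1, e2, lie_zero, zero_lie, add_zero]
  have h6 : E b ⁅yx (F := F) a (m + 1), yx (F := F) b 1⁆ = 0 := by
    have e1 : dd b 0 (yx (F := F) b 1) = 0 := E_yx_succ 0 hb
    have e2 : dd b 0 (yx (F := F) a (m + 1)) = 0 := E_yx_ne (m + 1) hb hab
    rw [E, dd_lie, e1, e2, lie_zero, zero_lie, add_zero]
  rw [Finset.mem_insert, Finset.mem_singleton] at hj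
  have h7 : wv (F := F) a b m = ⁅⁅yx (F := F) a (m + 1), yx (F := F) b 1⁆, X F 0⁆ := rfl
  rcases hj with rfl | rfl
  · rw [h7, E_lie_x ha, h5, zero_lie]
  · rw [h7, E_lie_x hb, h6, zero_lie]

theorem wv_mem_WW {a b : ℕ} (ha : a ≠ 0) (hb : b ≠ 0) (hab : a ≠ b) (m : ℕ) :
    wv a b m ∈ WW (F := F) {a, b} (m + 3) := KE_le _ _ (wv_mem ha hb hab m)

theorem ren_wv (σ : Equiv.Perm ℕ) (h0 : σ 0 = 0) (a b m : ℕ) :
    ren σ (wv (F := F) a b m) = wv (σ a) (σ b) m := by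
  rw [wv, LieHom.map_lie, LieHom.map_lie, LieHom.map_lie, ren_yx σ h0, ren_X, ren_X, h0, wv]

theorem tt_wv_left {a b : ℕ} (ha : a ≠ 0) (hb : b ≠ 0) (hab : a ≠ b) (m : ℕ) :
    tt a (wv (F := F) a b m) = wv a b (m + 1) := by
  rw [wv, LieHom.map_lie, LieHom.map_lie, LieHom.map_lie, tt_yx_same a _ ha,
    tt_X_ne (Ne.symm ha), tt_X_ne (Ne.symm hab), wv]

/-- Proof: the relation with `y1, y2` replaced by `y_a, y_b` (a renaming fixing `0`), then `m`
times `tt a`: `⁅wv a b m, x⁆ ∈ T`. -/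
theorem lie_wv {T : Submodule F (FL F)} (hT : IsTIdeal F T) (hA : RelA T) {a b : ℕ}
    (ha : a ≠ 0) (hb : b ≠ 0) (hab : a ≠ b) (m : ℕ) : ⁅wv (F := F) a b m, X F 0⁆ ∈ T := by
  induction m with
  | zero =>
    have h1 := hT.ren_mem (fun i => if i = 0 then 0 else if i = 1 then a else b) hA
    rw [LieHom.map_lie, LieHom.map_lie, LieHom.map_lie, LieHom.map_lie, LieHom.map_lie, ren_X,
      ren_X, ren_X] at h1
    exact h1
  | succ m ih =>
    have h1 := hT.tt_mem a ih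
    rw [LieHom.map_lie, tt_wv_left ha hb hab, tt_X_ne (Ne.symm ha)] at h1
    exact h1

/-- Proof: `⁅wv, x⁆ = tt a wv + tt b wv` (`lie_x`), `tt_wv_left`, `lie_wv`. -/
theorem tt_wv_right {T : Submodule F (FL F)} (hT : IsTIdeal F T) (hA : RelA T) {a b : ℕ}
    (ha : a ≠ 0) (hb : b ≠ 0) (hab : a ≠ b) (m : ℕ) :
    tt b (wv (F := F) a b m) + wv a b (m + 1) ∈ T := by
  have h0 : (0 : ℕ) ∉ ({a, b} : Finset ℕ) := by
    rw [Finset.mem_insert, Finset.mem_singleton, not_or]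
    exact ⟨Ne.symm ha, Ne.symm hb⟩
  have h1 := lie_wv hT hA ha hb hab m
  rw [lie_x h0 (wv_mem_WW ha hb hab m), Finset.sum_pair hab, tt_wv_left ha hb hab, add_comm] at h1
  exact h1

/-- Proof: induction on `m`: `wv b a 0 = - wv a b 0` exactly; `wv b a (m+1) = tt b (wv b a m)`,
which is `(-1)^(m+1) tt b (wv a b m) = -(-1)^(m+1) wv a b (m+1)` modulo `T`. -/
theorem wv_swap {T : Submodule F (FL F)} (hT : IsTIdeal F T) (hA : RelA T) {a b : ℕ}
    (ha : a ≠ 0) (hb : b ≠ 0) (hab : a ≠ b) (m : ℕ) :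
    wv (F := F) b a m - ((-1 : F) ^ (m + 1)) • wv a b m ∈ T := by
  induction m with
  | zero =>
    have h1 : wv (F := F) b a 0 - ((-1 : F) ^ (0 + 1)) • wv a b 0 = 0 := by
      rw [zero_add, pow_one, neg_smul, one_smul, sub_neg_eq_add, wv, wv, zero_add, yx_succ, yx_succ,
        yx_zero, yx_zero, ← lie_skew ⁅X F a, X F 0⁆ ⁅X F b, X F 0⁆, neg_lie, add_neg_cancel]
    rw [h1]
    exact T.zero_mem
  | succ m ih =>
    have h1 := hT.tt_mem b ih
    rw [map_sub, map_smul, tt_wv_left hb ha (Ne.symm hab)] at h1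
    have h2 := T.smul_mem ((-1 : F) ^ (m + 1)) (tt_wv_right hT hA ha hb hab m)
    have h3 := T.add_mem h1 h2
    have h4 : wv (F := F) b a (m + 1) - (-1 : F) ^ (m + 1) • tt b (wv (F := F) a b m) +
        (-1 : F) ^ (m + 1) • (tt b (wv (F := F) a b m) + wv a b (m + 1)) =
        wv b a (m + 1) - ((-1 : F) ^ (m + 1 + 1)) • wv a b (m + 1) := by
      rw [pow_succ (-1 : F) (m + 1), smul_add]
      simp only [mul_neg, mul_one, neg_smul]
      abel
    rw [h4] at h3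
    exact h3

/-- Proof: `wv a b m` is `m` times `tt a` of a renaming of `w3 F`. -/
theorem wv_mem_J {J : Submodule F (FL F)} (hJ : IsTIdeal F J) (h : w3 F ∈ J) {a b : ℕ}
    (ha : a ≠ 0) (hb : b ≠ 0) (hab : a ≠ b) (m : ℕ) : wv (F := F) a b m ∈ J := by
  induction m with
  | zero =>
    have h1 := hJ.ren_mem (fun i => if i = 0 then 0 else if i = 1 then a else b) h
    rw [w3, LieHom.map_lie, LieHom.map_lie, LieHom.map_lie, LieHom.map_lie, ren_X,
      ren_X, ren_X] at h1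
    exact h1
  | succ m ih =>
    have h1 := hJ.tt_mem a ih
    rw [tt_wv_left ha hb hab] at h1
    exact h1

/-- The generator of the relation `a_S` alone. -/
def TA (F : Type u) [Field F] : Submodule F (FL F) :=
  genT {⁅⁅⁅⁅X F 1, X F 0⁆, ⁅X F 2, X F 0⁆⁆, X F 0⁆, X F 0⁆}

theorem w3_M2 (a b x : M2 F) : ⁅⁅⁅a, x⁆, ⁅b, x⁆⁆, x⁆ = 0 := by
  ext i j
  fin_cases i <;> fin_cases j <;>
  · simp only [lie_M2, Matrix.sub_apply, Matrix.mul_apply, Fin.sum_univ_two, Fin.zero_eta,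
      Fin.mk_one, Fin.isValue, Matrix.zero_apply]
    ring

/-- Proof: `genT_le`; for `φ` put `a = ⁅φ y1, φ x⁆`, `b = ⁅φ y2, φ x⁆`; already
`⁅⁅⁅a', x⁆, ⁅b', x⁆⁆, x⁆ = 0` for two by two matrices (entries, `ring`).  Or from `w3 F ∈ Isl F`.
-/
theorem TA_le_Isl : TA F ≤ Isl F := by
  apply genT_le Isl_isTIdeal
  intro f hf
  rw [Set.mem_singleton_iff] at hf
  subst hf
  intro φ
  rw [LieHom.map_lie, LieHom.map_lie, LieHom.map_lie, LieHom.map_lie, LieHom.map_lie, w3_M2,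
    zero_lie]

theorem w3_mem_Isl : w3 F ∈ Isl F := by
  intro φ
  rw [w3, LieHom.map_lie, LieHom.map_lie, LieHom.map_lie, LieHom.map_lie, w3_M2]

theorem relA_TA : RelA (TA F) := subset_genT _ rfl

theorem TA_isTIdeal : IsTIdeal F (TA F) := genT_isTIdeal _

theorem wv12 (m : ℕ) : wv (F := F) 1 2 m = MM (m + 2) 1 + MM (m + 1) 2 := by
  have h1 : wv (F := F) 1 2 m = ⁅MM (m + 1) 1, X F 0⁆ := rfl
  rw [h1, MM_lie]

theorem rel_TA : (1 : F) • (MM 3 1 + MM 1 3) + (2 : F) • MM (F := F) 2 2 ∈ TA F := by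
  have h1 : (1 : F) • (MM 3 1 + MM 1 3) + (2 : F) • MM (F := F) 2 2 =
      ⁅⁅⁅⁅X F 1, X F 0⁆, ⁅X F 2, X F 0⁆⁆, X F 0⁆, X F 0⁆ := by
    have h2 : ⁅⁅⁅⁅X F 1, X F 0⁆, ⁅X F 2, X F 0⁆⁆, X F 0⁆, X F 0⁆ =
        ⁅⁅MM (F := F) 1 1, X F 0⁆, X F 0⁆ := rfl
    rw [h2, MM_lie, add_lie, MM_lie, MM_lie, one_smul, two_smul]
    abel
  rw [h1]
  exact relA_TA

theorem two12_MM (m : ℕ) : ∀ b a : ℕ, a + b = m + 1 → ∃ α β : F,
    MM (a + 1) (b + 1) - α • MM (m + 2) 1 - β • wv (F := F) 1 2 m ∈ TA F := by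
  intro b
  induction b using Nat.strong_induction_on with
  | _ b ih =>
    intro a hab
    match b, ih, hab with
    | 0, _, hab =>
      obtain rfl : a = m + 1 := by omega
      refine ⟨1, 0, ?_⟩
      rw [one_smul, zero_smul, zero_add, sub_self, sub_zero]
      exact Submodule.zero_mem _
    | 1, _, hab =>
      obtain rfl : a = m := by omega
      refine ⟨-1, 1, ?_⟩
      have h1 : MM (F := F) (a + 1) (1 + 1) - (-1 : F) • MM (a + 2) 1 - (1 : F) • wv 1 2 a = 0 := by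
        rw [wv12, neg_smul, one_smul, one_smul]
        abel
      rw [h1]
      exact Submodule.zero_mem _
    | b + 2, ih, hab =>
      obtain ⟨α1, β1, h1⟩ := ih b (by omega) (a + 2) (by omega)
      obtain ⟨α2, β2, h2⟩ := ih (b + 1) (by omega) (a + 1) (by omega)
      refine ⟨-α1 - 2 * α2, -β1 - 2 * β2, ?_⟩
      have h3 := rel_shift TA_isTIdeal (rel_TA (F := F)) a b
      have h4 := Submodule.sub_mem _ (Submodule.sub_mem _ h3 h1)
        (Submodule.smul_mem _ (2 : F) h2)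
      rw [show 3 + a = a + 2 + 1 by omega, show 1 + b = b + 1 by omega,
        show 1 + a = a + 1 by omega, show 3 + b = b + 2 + 1 by omega,
        show 2 + a = a + 1 + 1 by omega, show 2 + b = b + 1 + 1 by omega] at h4
      have h5 : (1 : F) • (MM (a + 2 + 1) (b + 1) + MM (a + 1) (b + 2 + 1)) +
          (2 : F) • MM (a + 1 + 1) (b + 1 + 1) -
          (MM (a + 2 + 1) (b + 1) - α1 • MM (m + 2) 1 - β1 • wv (F := F) 1 2 m) -
          (2 : F) • (MM (a + 1 + 1) (b + 1 + 1) - α2 • MM (m + 2) 1 - β2 • wv (F := F) 1 2 m) =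
          MM (a + 1) (b + 2 + 1) - (-α1 - 2 * α2) • MM (m + 2) 1 -
            (-β1 - 2 * β2) • wv (F := F) 1 2 m := by
        module
      rw [h5] at h4
      exact h4

theorem two12_aux [CharZero F] (m : ℕ) {f : FL F} (hfK : f ∈ KE (F := F) (Finset.Icc 1 2) (m + 3)) :
    ∃ α β : F, f - α • MM (m + 2) 1 - β • wv (F := F) 1 2 m ∈ TA F := by
  have h1 := KE_two (F := F) (m + 2) hfK
  clear hfK
  induction h1 using Submodule.span_induction with
  | mem f h =>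
    obtain ⟨a, b, hab, rfl⟩ := h
    exact two12_MM m b a (by omega)
  | zero =>
    refine ⟨0, 0, ?_⟩
    rw [zero_smul, zero_smul, sub_zero, sub_zero]
    exact Submodule.zero_mem _
  | add f g _ _ h1 h2 =>
    obtain ⟨α1, β1, h1⟩ := h1
    obtain ⟨α2, β2, h2⟩ := h2
    refine ⟨α1 + α2, β1 + β2, ?_⟩
    have h3 := Submodule.add_mem _ h1 h2
    have h4 : f - α1 • MM (m + 2) 1 - β1 • wv (F := F) 1 2 m +
        (g - α2 • MM (m + 2) 1 - β2 • wv (F := F) 1 2 m) =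
        f + g - (α1 + α2) • MM (m + 2) 1 - (β1 + β2) • wv (F := F) 1 2 m := by
      module
    rw [h4] at h3
    exact h3
  | smul c f _ h1 =>
    obtain ⟨α1, β1, h1⟩ := h1
    refine ⟨c * α1, c * β1, ?_⟩
    have h3 := Submodule.smul_mem _ c h1
    have h4 : c • (f - α1 • MM (m + 2) 1 - β1 • wv (F := F) 1 2 m) =
        c • f - (c * α1) • MM (m + 2) 1 - (c * β1) • wv (F := F) 1 2 m := by
      module
    rw [h4] at h3
    exact h3

theorem evh_yx (w : ℕ → M2 F) {j : ℕ} (hj : j ≠ 0) (c : F) (hc : ⁅w j, (mh : M2 F)⁆ = c • w j)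
    (d : ℕ) : evh w (yx (F := F) j d) = (c ^ d) • w j := by
  induction d with
  | zero => rw [yx_zero, evh_ne _ hj, pow_zero, one_smul]
  | succ d ih =>
    rw [yx_succ, LieHom.map_lie, ih, evh_zero, smul_lie, hc, smul_smul, pow_succ]

theorem evh_MM (m : ℕ) : evh (fun i => if i = 1 then (me : M2 F) else mf) (MM (F := F) (m + 2) 1) =
    ((-2 : F) ^ (m + 2) * 2) • mh := by
  have h1 : evh (fun i => if i = 1 then (me : M2 F) else mf) (yx (F := F) 1 (m + 2)) =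
      ((-2 : F) ^ (m + 2)) • me :=
    evh_yx (fun i => if i = 1 then (me : M2 F) else mf) (by norm_num) (-2)
      (by simpa using me_mh (F := F)) (m + 2)
  have h2 : evh (fun i => if i = 1 then (me : M2 F) else mf) (yx (F := F) 2 1) =
      ((2 : F) ^ 1) • mf :=
    evh_yx (fun i => if i = 1 then (me : M2 F) else mf) (by norm_num) 2
      (by simpa using mf_mh (F := F)) 1
  rw [MM, LieHom.map_lie, h1, h2, pow_one, smul_lie, lie_smul, me_mf, smul_smul]

theorem exists_perm_two {a b : ℕ} (ha : a ≠ 0) (hb : b ≠ 0) (hab : a ≠ b) :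
    ∃ σ : Equiv.Perm ℕ, σ 0 = 0 ∧ σ a = 1 ∧ σ b = 2 := by
  have h0 : (Equiv.swap a 1) 0 = 0 :=
    Equiv.swap_apply_of_ne_of_ne (Ne.symm ha) (by norm_num)
  have ha1 : (Equiv.swap a 1) a = 1 := Equiv.swap_apply_left a 1
  have hb0 : (Equiv.swap a 1) b ≠ 0 := fun h =>
    hb ((Equiv.swap a 1).injective (h.trans h0.symm))
  have hb1 : (Equiv.swap a 1) b ≠ 1 := fun h =>
    hab ((Equiv.swap a 1).injective (h.trans ha1.symm)).symm
  refine ⟨Equiv.swap ((Equiv.swap a 1) b) 2 * Equiv.swap a 1, ?_, ?_, ?_⟩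
  · rw [Equiv.Perm.mul_apply, h0]
    exact Equiv.swap_apply_of_ne_of_ne (Ne.symm hb0) (by norm_num)
  · rw [Equiv.Perm.mul_apply, ha1]
    exact Equiv.swap_apply_of_ne_of_ne (Ne.symm hb1) (by norm_num)
  · rw [Equiv.Perm.mul_apply]
    exact Equiv.swap_apply_left _ _

/-- Level two, letters 1 and 2.
Proof: `KE_two` with `d + 1 = m + 3`: `f` is a combination of the `MM (a+1) (b+1)`,
`a + b = m + 1`.  Modulo `TA F`, by `rel_shift` with `al = 1`, `be = 2`
(`MM 3 1 + MM 1 3 + 2 MM 2 2` is the generator of `TA`), `MM (a+1) (b+1)` is a combination of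
`MM (m+2) 1` and `MM (m+1) 2`, so of `MM (m+2) 1` and `wv 1 2 m = MM (m+2) 1 + MM (m+1) 2`
(induction on `b`).  So `f - α MM (m+2) 1 - β wv 1 2 m ∈ TA F ≤ Isl F`; apply `evh w` with
`w 1 = me`, `w 2 = mf`: `MM (m+2) 1 ↦ (-2)^(m+2) * 2 • mh ≠ 0`, `wv 1 2 m ↦ 0` (`w3_mem_Isl`,
`wv_mem_J`), `f ↦ 0`.  So `α = 0`. -/
theorem two12 [CharZero F] {T : Submodule F (FL F)} (hT : IsTIdeal F T) (hA : RelA T) (m : ℕ)
    {f : FL F} (hf : f ∈ Isl F) (hfK : f ∈ KE (F := F) (Finset.Icc 1 2) (m + 3)) :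
    ∃ c : F, f - c • wv 1 2 m ∈ T := by
  obtain ⟨α, β, h1⟩ := two12_aux m hfK
  have h2 : f - α • MM (m + 2) 1 - β • wv (F := F) 1 2 m ∈ Isl F := TA_le_Isl h1
  have h3 := h2 (evh (fun i => if i = 1 then me else mf))
  have hw : wv (F := F) 1 2 m ∈ Isl F :=
    wv_mem_J Isl_isTIdeal w3_mem_Isl (by norm_num) (by norm_num) (by norm_num) m
  rw [map_sub, map_sub, map_smul, map_smul, hf, hw, smul_zero, sub_zero, zero_sub, neg_eq_zero,
    evh_MM, smul_smul] at h3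
  have h4 := congrFun (congrFun h3 0) 0
  have h5 : α * ((-2 : F) ^ (m + 2) * 2) = 0 := by
    simpa [mh] using h4
  have h6 : α = 0 := by
    rcases mul_eq_zero.1 h5 with h | h
    · exact h
    · exact absurd h (mul_ne_zero (pow_ne_zero _ (by norm_num)) (by norm_num))
  rw [h6, zero_smul, sub_zero] at h1
  refine ⟨β, ?_⟩
  have h7 : TA F ≤ T := by
    apply genT_le hT
    intro f hf
    rw [Set.mem_singleton_iff] at hf
    rw [hf]
    exact hA
  exact h7 h1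

/-- Level two in general.  Proof: rename (`exists_perm_image_zero` is not enough, the images of
`a` and `b` are prescribed: use `σ 0 = 0`, `σ a = 1`, `σ b = 2`), `ren_KE`, `two12`. -/
theorem two [CharZero F] {T : Submodule F (FL F)} (hT : IsTIdeal F T) (hA : RelA T) {a b : ℕ}
    (ha : a ≠ 0) (hb : b ≠ 0) (hab : a ≠ b) (m : ℕ)
    {f : FL F} (hf : f ∈ Isl F) (hfK : f ∈ KE (F := F) {a, b} (m + 3)) :
    ∃ c : F, f - c • wv a b m ∈ T := by
  obtain ⟨σ, h0, h1, h2⟩ := exists_perm_two ha hb hab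
  have himg : ({a, b} : Finset ℕ).image σ = Finset.Icc 1 2 := by
    rw [Finset.image_insert, Finset.image_singleton, h1, h2]
    rfl
  obtain ⟨c, hc⟩ := two12 hT hA m (Isl_isTIdeal.ren_mem σ hf) (ren_KE σ h0 himg hfK)
  refine ⟨c, ren_mem_cancel hT σ ?_⟩
  rw [map_sub, map_smul, ren_wv σ h0, h1, h2]
  exact hc

/-- An element of `Isl` in `WW {a, b} N` is in `KE {a, b} N`.
Proof: `E a f ∈ WW {b} (N + 1)` and in `Isl`, so zero by `Isl_one`. -/
theorem two_KE [CharZero F] {a b N : ℕ} (ha : a ≠ 0) (hb : b ≠ 0) (hab : a ≠ b) {f : FL F}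
    (hf : f ∈ Isl F) (hfW : f ∈ WW {a, b} N) : f ∈ KE (F := F) {a, b} N := by
  have h0 : (0 : ℕ) ∉ ({a, b} : Finset ℕ) := by
    rw [Finset.mem_insert, Finset.mem_singleton, not_or]
    exact ⟨Ne.symm ha, Ne.symm hb⟩
  rw [mem_KE]
  refine ⟨hfW, ?_⟩
  intro j hj
  have h1 := E_mem hj h0 hfW
  have h2 : E j f ∈ Isl F := Isl_isTIdeal.dd_mem j 0 hf
  rw [Finset.mem_insert, Finset.mem_singleton] at hj
  rcases hj with rfl | rfl
  · have h3 : ({j, b} : Finset ℕ).erase j = {b} := by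
      apply Finset.erase_insert
      rw [Finset.mem_singleton]
      exact hab
    rw [h3] at h1
    exact Isl_one hb h2 h1
  · have h3 : ({a, j} : Finset ℕ).erase j = {a} := by
      rw [Finset.pair_comm]
      apply Finset.erase_insert
      rw [Finset.mem_singleton]
      exact Ne.symm hab
    rw [h3] at h1
    exact Isl_one ha h2 h1

end

end Pool.Agent.Lib.MP_b4a71d_al.SD
end

section

/-!
# MP_b4a71d_al, S point, part D: relations in levels three and four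
-/

set_option autoImplicit false
set_option linter.unusedSectionVars false
set_option linter.unusedVariables false

namespace Pool.Agent.Lib.MP_b4a71d_al.SD

universe u

noncomputable section

variable {F : Type u} [Field F]

/-- The situation at the point S. -/
structure SHyp (J T : Submodule F (FL F)) : Prop where
  hJ : IsTIdeal F J
  hT : IsTIdeal F T
  sl : J ≤ Isl F
  relA : RelA T
  w3 : w3 F ∈ J
  gen : IsGen J 5
  three : ∀ d, JZ J T 3 (d + 4)

/-- The equations for the coefficients; `M = m + 4`, `ε = (-1) ^ m`. -/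
structure Coef (m : ℕ) (ε c1 c2 c3 la mu nu : F) : Prop where
  heps : ε = (-1 : F) ^ m
  r1 : -ε * c1 - c2 + (m + 4) * c3 = 1
  r2 : (m + 4) * c1 - c2 - ε * c3 = -ε
  r3 : -c1 + (m + 4) * c2 - c3 = 0
  c31 : c3 = -ε * c1
  hmu : mu = -ε * la
  hnu : nu * (1 + ε) = 0
  q1 : -la * (m + 4) - ε * nu = c1 - ε * c2
  q2 : -mu * (m + 4) - ε * nu = c2 - ε * c1
  q3 : la * (m + 3) - mu = -c1
  q4 : -mu * (1 - ε) + nu * (m + 3) = -c2
  q5 : -la + mu * (m + 3) = ε * c1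
  q6 : -la * (1 - ε) + nu * (m + 3) = ε * c2
  hc1 : c1 ≠ 0
  hdet : (1 - la * ε - c3) ^ 2 - nu ^ 2 ≠ 0

/-- Proof: for even `m`, `ε = 1`: `c1 = -1/(M+1)`, `c2 = 0`, `c3 = 1/(M+1)`, `la = 1/(M(M+1))`,
`mu = -la`, `nu = 0`, where `M = m + 4`; here `1 - la - c3 = 1 - 1/M`.
For odd `m`, `ε = -1`: `c1 = c3 = M/((M+2)(M-1))`, `c2 = 2/((M+2)(M-1))`,
`la = mu = -M/((M+2)(M-1)(M-2))`, `nu = -4/((M+2)(M-1)(M-2))`; here `A = 1 + la - c3` and
`A - nu`, `A + nu` are `(M^3-2M^2-3M+8)/N` and `M(M-3)(M+1)/N`, `N = (M+2)(M-1)(M-2)`.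
All denominators are casts of positive natural numbers (`M ≥ 4`, write `M - 1 = m + 3`, ...);
`field_simp`, `ring`. -/
theorem exists_coef [CharZero F] (m : ℕ) :
    ∃ ε c1 c2 c3 la mu nu : F, Coef m ε c1 c2 c3 la mu nu := by
  have nz : ∀ n : ℕ, n ≠ 0 → (n : F) ≠ 0 := fun n hn => Nat.cast_ne_zero.mpr hn
  have n1 : (m : F) + 1 ≠ 0 := by have := nz (m + 1) (by omega); push_cast at this; exact this
  have n2 : (m : F) + 2 ≠ 0 := by have := nz (m + 2) (by omega); push_cast at this; exact this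
  have n3 : (m : F) + 3 ≠ 0 := by have := nz (m + 3) (by omega); push_cast at this; exact this
  have n4 : (m : F) + 4 ≠ 0 := by have := nz (m + 4) (by omega); push_cast at this; exact this
  have n5 : (m : F) + 5 ≠ 0 := by have := nz (m + 5) (by omega); push_cast at this; exact this
  have n6 : (m : F) + 6 ≠ 0 := by have := nz (m + 6) (by omega); push_cast at this; exact this
  rcases Nat.even_or_odd m with hm | hm
  · refine ⟨1, -1 / (m + 5), 0, 1 / (m + 5), 1 / ((m + 4) * (m + 5)), -1 / ((m + 4) * (m + 5)), 0,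
      ⟨hm.neg_one_pow.symm, ?_, ?_, ?_, ?_, ?_, ?_, ?_, ?_, ?_, ?_, ?_, ?_, ?_, ?_⟩⟩
    · field_simp; ring
    · field_simp; ring
    · field_simp; ring
    · field_simp
    · field_simp
    · ring
    · field_simp
    · field_simp; ring
    · field_simp; ring
    · ring
    · field_simp; ring
    · ring
    · exact div_ne_zero (neg_ne_zero.mpr one_ne_zero) n5
    · have e : (1 - 1 / (((m : F) + 4) * (m + 5)) * 1 - 1 / (m + 5)) ^ 2 - 0 ^ 2 = (((m : F) + 3) / (m + 4)) ^ 2 := by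
        field_simp
        ring
      rw [e]
      exact pow_ne_zero 2 (div_ne_zero n3 n4)
  · refine ⟨-1, (m + 4) / ((m + 6) * (m + 3)), 2 / ((m + 6) * (m + 3)), (m + 4) / ((m + 6) * (m + 3)),
      -(m + 4) / ((m + 6) * (m + 3) * (m + 2)), -(m + 4) / ((m + 6) * (m + 3) * (m + 2)),
      -4 / ((m + 6) * (m + 3) * (m + 2)),
      ⟨hm.neg_one_pow.symm, ?_, ?_, ?_, ?_, ?_, ?_, ?_, ?_, ?_, ?_, ?_, ?_, ?_, ?_⟩⟩
    · field_simp; ring
    · field_simp; ring
    · field_simp; ring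
    · ring
    · ring
    · ring
    · field_simp; ring
    · field_simp; ring
    · field_simp; ring
    · field_simp; ring
    · field_simp; ring
    · field_simp; ring
    · exact div_ne_zero n4 (mul_ne_zero n6 n3)
    · have e : (1 - -((m : F) + 4) / ((m + 6) * (m + 3) * (m + 2)) * -1 - (m + 4) / ((m + 6) * (m + 3))) ^ 2 -
          (-4 / ((m + 6) * (m + 3) * (m + 2))) ^ 2 =
          (((m : F) ^ 3 + 10 * m ^ 2 + 29 * m + 28) * ((m + 4) * (m + 1) * (m + 5))) /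
            ((m + 6) * (m + 3) * (m + 2)) ^ 2 := by
        field_simp
        ring
      have e2 : (m : F) ^ 3 + 10 * m ^ 2 + 29 * m + 28 ≠ 0 := by
        have := nz (m ^ 3 + 10 * m ^ 2 + 29 * m + 28) (by positivity)
        push_cast at this
        exact this
      rw [e]
      exact div_ne_zero (mul_ne_zero e2 (mul_ne_zero (mul_ne_zero n4 n1) n5))
        (pow_ne_zero 2 (mul_ne_zero (mul_ne_zero n6 n3) n2))

theorem Rel_E_left {p q : ℕ} (hp : p ≠ 0) (hq : q ≠ 0) (hpq : p ≠ q) (k : ℕ) :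
    E p (wv (F := F) p q k) = 0 := (mem_KE.mp (wv_mem hp hq hpq k)).2 p (by simp)

theorem Rel_E_right {p q : ℕ} (hp : p ≠ 0) (hq : q ≠ 0) (hpq : p ≠ q) (k : ℕ) :
    E q (wv (F := F) p q k) = 0 := (mem_KE.mp (wv_mem hp hq hpq k)).2 q (by simp)

theorem Rel_E_out {p q j : ℕ} (hp : p ≠ 0) (hq : q ≠ 0) (hj : j ≠ 0) (hpq : p ≠ q) (hjp : j ≠ p) (hjq : j ≠ q)
    (k : ℕ) : E j (wv (F := F) p q k) = 0 :=
  dd_eq_zero 0 (wv_mem_WW hp hq hpq k) (notMem_cont (by simp [hjp, hjq]) hj)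

theorem Rel_ren {p q x y : ℕ} (hx : x ≠ 0) (hy : y ≠ 0) (k : ℕ) :
    ren (Equiv.swap x y) (wv (F := F) p q k) = wv (Equiv.swap x y p) (Equiv.swap x y q) k :=
  ren_wv _ (Equiv.swap_apply_of_ne_of_ne hx.symm hy.symm) _ _ _

theorem Rel_h0 {p q : ℕ} (hp : p ≠ 0) (hq : q ≠ 0) : (0 : ℕ) ∉ ({p, q} : Finset ℕ) := by
  simp [hp.symm, hq.symm]

/-- `E p (D j w_{pq}) = - w_{jq}` -/
theorem Rel_ED_left {p q j : ℕ} (hp : p ≠ 0) (hq : q ≠ 0) (hj : j ≠ 0) (hpq : p ≠ q) (hjp : j ≠ p) (hjq : j ≠ q)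
    (k : ℕ) : E p (D j (wv (F := F) p q k)) = - wv j q k := by
  rw [E_D_ne (Y := {p, q}) (by simp) (by simp [hjp, hjq]) hj (Rel_h0 hp hq) (wv_mem_WW hp hq hpq k),
    Rel_E_left hp hq hpq, map_zero, zero_sub, Rel_ren hp hj, Equiv.swap_apply_left,
    Equiv.swap_apply_of_ne_of_ne hpq.symm hjq.symm]

/-- `E q (D j w_{pq}) = - w_{pj}` -/
theorem Rel_ED_right {p q j : ℕ} (hp : p ≠ 0) (hq : q ≠ 0) (hj : j ≠ 0) (hpq : p ≠ q) (hjp : j ≠ p) (hjq : j ≠ q)
    (k : ℕ) : E q (D j (wv (F := F) p q k)) = - wv p j k := by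
  rw [E_D_ne (Y := {p, q}) (by simp) (by simp [hjp, hjq]) hj (Rel_h0 hp hq) (wv_mem_WW hp hq hpq k),
    Rel_E_right hp hq hpq, map_zero, zero_sub, Rel_ren hq hj, Equiv.swap_apply_left,
    Equiv.swap_apply_of_ne_of_ne hpq hjp.symm]

/-- `E j (D j w_{pq}) = (k + 3) w_{pq}` -/
theorem Rel_ED_same {p q j : ℕ} (hp : p ≠ 0) (hq : q ≠ 0) (hj : j ≠ 0) (hpq : p ≠ q) (hjp : j ≠ p) (hjq : j ≠ q)
    (k : ℕ) : E j (D j (wv (F := F) p q k)) = ((k + 3 : ℕ) : F) • wv p q k :=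
  E_D_same (Y := {p, q}) (by simp [hjp, hjq]) hj (Rel_h0 hp hq) (wv_mem_WW hp hq hpq k)

variable [CharZero F] {J T : Submodule F (FL F)}

/-- `E i (D j f) = 0` if `i` is neither a letter of `Y`, nor `j`, nor `0`: the letter `i` does not
occur in `D j f` (`dd_eq_zero`). -/
theorem E_D_out {Y : Finset ℕ} {i j d : ℕ} (hi : i ∉ Y) (hij : i ≠ j) (hi0 : i ≠ 0)
    {f : FL F} (hf : f ∈ WW Y (d + 1)) (hj : j ∉ Y) : E i (D j f) = 0 := by
  have h1 : D j f ∈ WW (insert j Y) d := D_mem hj hf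
  have h2 : i ∉ insert j Y := by
    rw [Finset.mem_insert]
    rintro (h | h)
    · exact hij h
    · exact hi h
  exact dd_eq_zero 0 h1 (notMem_cont h2 hi0)

/-- `⁅w_{ab}(m+1), y_c⁆ ∈ T`.
Proof: `u = ⁅wv a b m, y_c⁆ ∈ J ⊓ WW {a, b, c} (m + 3)`; `E c u = ⁅wv a b m, x⁆ ∈ T`
(`E_lie_y_same`, `lie_wv`, and `E c (wv a b m) = 0`), `E a u = E b u = 0`; so `u ∈ T` by
`mem_of_E` and `JZ J T 3 (m + 3)` (needs `m ≥ 1`, `JZ_of_card`). -/
theorem lie_wv_y (H : SHyp J T) {a b c : ℕ} (ha : a ≠ 0) (hb : b ≠ 0) (hc : c ≠ 0)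
    (hab : a ≠ b) (hac : a ≠ c) (hbc : b ≠ c) {m : ℕ} (hm : 1 ≤ m) :
    ⁅wv (F := F) a b m, X F c⁆ ∈ T := by
  have hcn : c ∉ ({a, b} : Finset ℕ) := by simp [hac.symm, hbc.symm]
  have hw := wv_mem_WW (F := F) ha hb hab m
  have h0 : (0 : ℕ) ∉ (insert c {a, b} : Finset ℕ) := by simp [ha.symm, hb.symm, hc.symm]
  have hcard : (insert c {a, b} : Finset ℕ).card = 3 := by
    rw [Finset.card_insert_of_notMem hcn, Finset.card_pair hab]
  have h3 : JZ J T 3 (m + 3) := by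
    have := H.three (m - 1)
    rwa [show m - 1 + 4 = m + 3 by omega] at this
  refine mem_of_E H.hJ H.hT h0 (JZ_of_card H.hJ H.hT h3 h0 hcard)
    (H.hJ.lie_mem _ (wv_mem_J H.hJ H.w3 ha hb hab m) _) (lie_X_mem_WW hcn hw) fun j hj => ?_
  rw [Finset.mem_insert, Finset.mem_insert, Finset.mem_singleton] at hj
  rcases hj with rfl | rfl | rfl
  · rw [E_lie_y_same, Rel_E_out ha hb hc hab hac.symm hbc.symm, zero_lie, zero_add]
    exact lie_wv H.hT H.relA ha hb hab m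
  · rw [E_lie_y_ne hac.symm, Rel_E_left ha hb hab, zero_lie]
    exact T.zero_mem
  · rw [E_lie_y_ne hbc.symm, Rel_E_right ha hb hab, zero_lie]
    exact T.zero_mem

/-- The relation R in level three.
Proof: the difference `u` is in `J ⊓ WW {a, b, c} (m + 3)`; by `mem_of_E` (with
`JZ J T 3 (m + 3)`, `JZ_of_card`) it is enough that `E j u ∈ T` for `j = a, b, c`.
With `M = m + 4` and `w_{pq} = wv p q (m + 1) ∈ WW {p, q} M`:
`E c (ss a c w) = tt a w = w_{ab}` (`E_ss_new`, `w = wv a b m`),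
`E a (ss a c w) = - tt c (ren (swap a c) w) = - tt c (wv c b m) = - w_{cb} ≡ - ε w_{bc}`
(`E_ss_old`, `wv_swap`), `E b (ss a c w) = ss a c (E b w) = 0` (`E_ss_other`);
`E p (D p f) = M f` (`E_D_same`), `E q (D p w_{qr}) = - ren (swap q p) w_{qr} = - w_{pr}`
(`E_D_ne`, `E q w_{qr} = 0`).  So
`E c`: `w_{ab}` against `c1 (- w_{ba}) + c2 (- w_{ab}) + c3 M w_{ab}`, with `w_{ba} ≡ ε w_{ab}`;
`E a`: `- w_{cb}` against `c1 M w_{bc} + c2 (- w_{bc}) + c3 (- w_{cb})`, `w_{cb} ≡ ε w_{bc}`;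
`E b`: `0` against `c1 (- w_{ac}) + c2 M w_{ac} + c3 (- w_{ac})`. -/
theorem rel_R (H : SHyp J T) {m : ℕ} (hm : 1 ≤ m) {ε c1 c2 c3 la mu nu : F}
    (hC : Coef m ε c1 c2 c3 la mu nu) {a b c : ℕ} (ha : a ≠ 0) (hb : b ≠ 0) (hc : c ≠ 0)
    (hab : a ≠ b) (hac : a ≠ c) (hbc : b ≠ c) :
    ss a c (wv (F := F) a b m) - (c1 • D a (wv b c (m + 1)) + c2 • D b (wv a c (m + 1))
      + c3 • D c (wv a b (m + 1))) ∈ T := by
  have hcn : c ∉ ({a, b} : Finset ℕ) := by simp [hac.symm, hbc.symm]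
  have hw := wv_mem_WW (F := F) ha hb hab m
  have h0 : (0 : ℕ) ∉ (insert c {a, b} : Finset ℕ) := by simp [ha.symm, hb.symm, hc.symm]
  have hcard : (insert c {a, b} : Finset ℕ).card = 3 := by
    rw [Finset.card_insert_of_notMem hcn, Finset.card_pair hab]
  have h3 : JZ J T 3 (m + 3) := by
    have := H.three (m - 1)
    rwa [show m - 1 + 4 = m + 3 by omega] at this
  have s1 : (insert a {b, c} : Finset ℕ) = insert c {a, b} := by
    ext x
    simp only [Finset.mem_insert, Finset.mem_singleton]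
    tauto
  have s2 : (insert b {a, c} : Finset ℕ) = insert c {a, b} := by
    ext x
    simp only [Finset.mem_insert, Finset.mem_singleton]
    tauto
  have w1 : D a (wv (F := F) b c (m + 1)) ∈ WW (insert c {a, b}) (m + 3) := by
    rw [← s1]
    exact D_mem (by simp [hab, hac]) (wv_mem_WW hb hc hbc (m + 1))
  have w2 : D b (wv (F := F) a c (m + 1)) ∈ WW (insert c {a, b}) (m + 3) := by
    rw [← s2]
    exact D_mem (by simp [hab.symm, hbc]) (wv_mem_WW ha hc hac (m + 1))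
  have w3' : D c (wv (F := F) a b (m + 1)) ∈ WW (insert c {a, b}) (m + 3) :=
    D_mem hcn (wv_mem_WW ha hb hab (m + 1))
  have hsw : ∀ p q : ℕ, p ≠ 0 → q ≠ 0 → p ≠ q → wv (F := F) q p (m + 1) - ε • wv p q (m + 1) ∈ T := by
    intro p q hp hq hpq
    have := wv_swap H.hT H.relA hp hq hpq (m + 1)
    rw [show ((-1 : F)) ^ (m + 1 + 1) = ε by rw [hC.heps, pow_succ, pow_succ]; ring] at this
    exact this
  refine mem_of_E H.hJ H.hT h0 (JZ_of_card H.hJ H.hT h3 h0 hcard) ?_ ?_ fun j hj => ?_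
  · refine J.sub_mem (H.hJ.ss_mem _ _ (wv_mem_J H.hJ H.w3 ha hb hab m)) (J.add_mem (J.add_mem ?_ ?_) ?_)
    · exact J.smul_mem _ (H.hJ.dd_mem _ _ (wv_mem_J H.hJ H.w3 hb hc hbc _))
    · exact J.smul_mem _ (H.hJ.dd_mem _ _ (wv_mem_J H.hJ H.w3 ha hc hac _))
    · exact J.smul_mem _ (H.hJ.dd_mem _ _ (wv_mem_J H.hJ H.w3 ha hb hab _))
  · refine Submodule.sub_mem _ (ss_mem (by simp) (Rel_h0 ha hb) hcn hc hw) (Submodule.add_mem _
      (Submodule.add_mem _ (Submodule.smul_mem _ _ w1) (Submodule.smul_mem _ _ w2)) (Submodule.smul_mem _ _ w3'))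
  · rw [Finset.mem_insert, Finset.mem_insert, Finset.mem_singleton] at hj
    rw [map_sub, map_add, map_add, map_smul, map_smul, map_smul]
    have hM : ((m + 1 + 3 : ℕ) : F) = (m : F) + 4 := by
      push_cast
      ring
    rcases hj with rfl | rfl | rfl
    · rw [E_ss_new (Y := {a, b}) (by simp) (Rel_h0 ha hb) hcn hc hw, tt_wv_left ha hb hab,
        Rel_ED_right hb hc ha hbc hab hac, Rel_ED_right ha hc hb hac hab.symm hbc,
        Rel_ED_same ha hb hc hab hac.symm hbc.symm, hM]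
      have e := T.smul_mem c1 (hsw a b ha hb hab)
      refine (congrArg (· ∈ T) ?_).mp e
      linear_combination (norm := module) hC.r1 • wv (F := F) a b (m + 1)
    · rw [E_ss_old (Y := {j, b}) (by simp) (Rel_h0 ha hb) hcn hc hw, Rel_ren ha hc, Equiv.swap_apply_left,
        Equiv.swap_apply_of_ne_of_ne hab.symm hbc, tt_wv_left hc hb hbc.symm,
        Rel_ED_same hb hc ha hbc hab hac, Rel_ED_left ha hc hb hac hab.symm hbc,
        Rel_ED_left ha hb hc hab hac.symm hbc.symm, hM]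
      have e := T.smul_mem (c3 - 1) (hsw b c hb hc hbc)
      refine (congrArg (· ∈ T) ?_).mp e
      linear_combination (norm := module) hC.r2 • wv (F := F) b c (m + 1)
    · rw [E_ss_other hb hab.symm hbc ha, Rel_E_right ha hb hab, map_zero,
        Rel_ED_left hb hc ha hbc hab hac, Rel_ED_same ha hc hb hac hab.symm hbc,
        Rel_ED_right ha hb hc hab hac.symm hbc.symm, hM]
      refine (congrArg (· ∈ T) ?_).mp T.zero_mem
      linear_combination (norm := module) hC.r3 • wv (F := F) a c (m + 1)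

/-- The class in level four. -/
def qv (a b c e m : ℕ) : FL F := ss c e (D c (wv (F := F) a b (m + 1)))

/-- `E p (D p (D q w_{rs})) = (k + 2) D q w_{rs}` -/
theorem Q_out {p q r s : ℕ} (hp : p ≠ 0) (hq : q ≠ 0) (hr : r ≠ 0) (hs : s ≠ 0) (hpq : p ≠ q) (hpr : p ≠ r)
    (hps : p ≠ s) (hqr : q ≠ r) (hqs : q ≠ s) (hrs : r ≠ s) (k : ℕ) :
    E p (D p (D q (wv (F := F) r s k))) = ((k + 2 : ℕ) : F) • D q (wv r s k) :=
  E_D_same (Y := insert q {r, s}) (by simp [hpq, hpr, hps]) hp (by simp [hq.symm, hr.symm, hs.symm])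
    (D_mem (by simp [hqr, hqs]) (wv_mem_WW hr hs hrs k))

/-- The general case. -/
theorem Q_gen {i p q r s : ℕ} (hp : p ≠ 0) (hq : q ≠ 0) (hr : r ≠ 0) (hs : s ≠ 0) (hpq : p ≠ q) (hpr : p ≠ r)
    (hps : p ≠ s) (hqr : q ≠ r) (hqs : q ≠ s) (hrs : r ≠ s) (hi : i ∈ (insert q {r, s} : Finset ℕ)) (k : ℕ) :
    E i (D p (D q (wv (F := F) r s k))) = D p (E i (D q (wv r s k))) -
      D (Equiv.swap i p q) (wv (Equiv.swap i p r) (Equiv.swap i p s) k) := by
  have hi0 : i ≠ 0 := by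
    rintro rfl
    simp [hq.symm, hr.symm, hs.symm] at hi
  rw [E_D_ne (Y := insert q {r, s}) hi (by simp [hpq, hpr, hps]) hp (by simp [hq.symm, hr.symm, hs.symm])
    (D_mem (by simp [hqr, hqs]) (wv_mem_WW hr hs hrs k)),
    ren_D _ (Equiv.swap_apply_of_ne_of_ne hi0.symm hp.symm), Rel_ren hi0 hp]

/-- `E q (D p (D q w_{rs})) = (k + 2) D p w_{rs}` -/
theorem Q_mid {p q r s : ℕ} (hp : p ≠ 0) (hq : q ≠ 0) (hr : r ≠ 0) (hs : s ≠ 0) (hpq : p ≠ q) (hpr : p ≠ r)
    (hps : p ≠ s) (hqr : q ≠ r) (hqs : q ≠ s) (hrs : r ≠ s) (k : ℕ) :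
    E q (D p (D q (wv (F := F) r s k))) = ((k + 2 : ℕ) : F) • D p (wv r s k) := by
  rw [Q_gen hp hq hr hs hpq hpr hps hqr hqs hrs (by simp), Rel_ED_same hr hs hq hrs hqr hqs,
    Equiv.swap_apply_left, Equiv.swap_apply_of_ne_of_ne hqr.symm hpr.symm,
    Equiv.swap_apply_of_ne_of_ne hqs.symm hps.symm, map_smul]
  push_cast
  module

/-- `E r (D p (D q w_{rs})) = - D p w_{qs} - D q w_{ps}` -/
theorem Q_left {p q r s : ℕ} (hp : p ≠ 0) (hq : q ≠ 0) (hr : r ≠ 0) (hs : s ≠ 0) (hpq : p ≠ q) (hpr : p ≠ r)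
    (hps : p ≠ s) (hqr : q ≠ r) (hqs : q ≠ s) (hrs : r ≠ s) (k : ℕ) :
    E r (D p (D q (wv (F := F) r s k))) = - D p (wv q s k) - D q (wv p s k) := by
  rw [Q_gen hp hq hr hs hpq hpr hps hqr hqs hrs (by simp), Rel_ED_left hr hs hq hrs hqr hqs,
    Equiv.swap_apply_left, Equiv.swap_apply_of_ne_of_ne hqr hpq.symm,
    Equiv.swap_apply_of_ne_of_ne hrs.symm hps.symm, map_neg]

/-- `E s (D p (D q w_{rs})) = - D p w_{rq} - D q w_{rp}` -/
theorem Q_right {p q r s : ℕ} (hp : p ≠ 0) (hq : q ≠ 0) (hr : r ≠ 0) (hs : s ≠ 0) (hpq : p ≠ q) (hpr : p ≠ r)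
    (hps : p ≠ s) (hqr : q ≠ r) (hqs : q ≠ s) (hrs : r ≠ s) (k : ℕ) :
    E s (D p (D q (wv (F := F) r s k))) = - D p (wv r q k) - D q (wv r p k) := by
  rw [Q_gen hp hq hr hs hpq hpr hps hqr hqs hrs (by simp), Rel_ED_right hr hs hq hrs hqr hqs,
    Equiv.swap_apply_left, Equiv.swap_apply_of_ne_of_ne hqs hpq.symm,
    Equiv.swap_apply_of_ne_of_ne hrs hpr.symm, map_neg]

/-- `ε ^ 2 = 1`. -/
theorem Coef.sq {m : ℕ} {ε c1 c2 c3 la mu nu : F} (hC : Coef m ε c1 c2 c3 la mu nu) : ε * ε = 1 := by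
  rw [hC.heps, ← mul_pow]
  simp

/-- The swap modulo `T`, index `m + 1`. -/
theorem Q_swap (H : SHyp J T) {m : ℕ} {ε c1 c2 c3 la mu nu : F}
    (hC : Coef m ε c1 c2 c3 la mu nu) {p q : ℕ} (hp : p ≠ 0) (hq : q ≠ 0) (hpq : p ≠ q) :
    wv (F := F) q p (m + 1) - ε • wv p q (m + 1) ∈ T := by
  have := wv_swap H.hT H.relA hp hq hpq (m + 1)
  rw [show ((-1 : F)) ^ (m + 1 + 1) = ε by rw [hC.heps, pow_succ, pow_succ]; ring] at this
  exact this

/-- The swap modulo `T`, index `m`. -/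
theorem Q_swap' (H : SHyp J T) {m : ℕ} {ε c1 c2 c3 la mu nu : F}
    (hC : Coef m ε c1 c2 c3 la mu nu) {p q : ℕ} (hp : p ≠ 0) (hq : q ≠ 0) (hpq : p ≠ q) :
    wv (F := F) p q m + ε • wv q p m ∈ T := by
  have := wv_swap H.hT H.relA hq hp hpq.symm m
  rw [show ((-1 : F)) ^ (m + 1) = -ε by rw [hC.heps, pow_succ]; ring] at this
  refine (congrArg (· ∈ T) ?_).mp this
  module

theorem Q_swapD (H : SHyp J T) {m : ℕ} {ε c1 c2 c3 la mu nu : F}
    (hC : Coef m ε c1 c2 c3 la mu nu) (r : ℕ) {p q : ℕ} (hp : p ≠ 0) (hq : q ≠ 0) (hpq : p ≠ q) :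
    D r (wv (F := F) q p (m + 1)) - ε • D r (wv p q (m + 1)) ∈ T := by
  rw [← map_smul, ← map_sub]
  exact H.hT.dd_mem 0 r (Q_swap H hC hp hq hpq)

/-- `tt c (D c w_{ab}) ≡ (c1 - ε c2) D a w_{bc} + (c2 - ε c1) D b w_{ac}`. -/
theorem Q_tt (H : SHyp J T) {m : ℕ} (hm : 1 ≤ m)
    {ε c1 c2 c3 la mu nu : F} (hC : Coef m ε c1 c2 c3 la mu nu) {a b c : ℕ}
    (ha : a ≠ 0) (hb : b ≠ 0) (hc : c ≠ 0) (hab : a ≠ b) (hac : a ≠ c) (hbc : b ≠ c) :
    tt c (D c (wv (F := F) a b m)) - ((c1 - ε * c2) • D a (wv b c (m + 1)) +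
      (c2 - ε * c1) • D b (wv a c (m + 1))) ∈ T := by
  have hcn : c ∉ ({a, b} : Finset ℕ) := by simp [hac.symm, hbc.symm]
  have h0' : (0 : ℕ) ∉ ({a, b} : Finset ℕ) := Rel_h0 ha hb
  have h0 : (0 : ℕ) ∉ (insert c {a, b} : Finset ℕ) := by simp [ha.symm, hb.symm, hc.symm]
  have hw := wv_mem_WW (F := F) ha hb hab m
  have e1 := lie_x h0 (D_mem hcn hw)
  rw [Finset.sum_insert hcn, Finset.sum_pair hab] at e1
  have e2 := D_lie_x c (wv (F := F) a b m)
  have e3 := D_tt (F := F) (show a ∈ ({a, b} : Finset ℕ) by simp) h0' hcn hc hw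
  have e4 := D_tt (F := F) (show b ∈ ({a, b} : Finset ℕ) by simp) h0' hcn hc hw
  rw [tt_wv_left ha hb hab] at e3
  have t1 : D c ⁅wv (F := F) a b m, X F 0⁆ ∈ T := H.hT.dd_mem 0 c (lie_wv H.hT H.relA ha hb hab m)
  have t2 := lie_wv_y H ha hb hc hab hac hbc hm
  have t3 : D c (tt b (wv (F := F) a b m) + wv a b (m + 1)) ∈ T :=
    H.hT.dd_mem 0 c (tt_wv_right H.hT H.relA ha hb hab m)
  have t4 := rel_R H hm hC ha hb hc hab hac hbc
  have t5 := T.smul_mem ε (rel_R H hm hC hb ha hc hab.symm hbc hac)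
  have t6 : ss b c (wv (F := F) a b m + ε • wv b a m) ∈ T := H.hT.ss_mem b c (Q_swap' H hC ha hb hab)
  have t7 : D c (wv (F := F) b a (m + 1) - ε • wv a b (m + 1)) ∈ T := H.hT.dd_mem 0 c (Q_swap H hC ha hb hab)
  rw [map_add, map_smul] at t6
  rw [map_sub, map_smul] at t7
  rw [map_add] at t3
  have key := T.add_mem (T.add_mem (T.sub_mem (T.sub_mem t1 t2) t3) t4) (T.sub_mem (T.sub_mem t6 t5) (T.smul_mem (ε * c3) t7))
  refine (congrArg (· ∈ T) ?_).mp key
  have hs := hC.sq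
  linear_combination (norm := module) e1 + e2 - e3 - e4 + (c3 * hs) • D c (wv (F := F) a b (m + 1))

/-- The expansion of `qv` of smaller index.
Proof: the difference `u` is in `J ⊓ WW {a, b, c, e} (m + 2)`; by `mem_of_E` and `h` it is enough
that `E j u ∈ T` for the four letters.  Write `w = wv a b m`, `w_{pq} = wv p q (m + 1)`,
`M = m + 4`.
`E e (ss c e (D c w)) = tt c (D c w) = ⁅D c w, x⁆ - tt a (D c w) - tt b (D c w)`, where
`⁅D c w, x⁆ = D c ⁅w, x⁆ - ⁅w, y_c⁆ ∈ T`, `tt a (D c w) = D c (tt a w) - ss a c w`,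
`tt b (D c w) = D c (tt b w) - ss b c w` (`D_tt`), `tt a w = w_{ab}`, `tt b w ≡ - w_{ab}`: so it is
`≡ ss a c w + ss b c w`, and `ss b c (wv a b m) ≡ - ε ss b c (wv b a m)`; with `rel_R` (for
`(a, b, c)` and `(b, a, c)`) it is `≡ (c1 - ε c2) D a w_{bc} + (c2 - ε c1) D b w_{ac}`.
`E c (ss c e (D c w)) = - tt e (ren (swap c e) (D c w)) = - tt e (D e w)`, the same with `c` and
`e` exchanged.
`E a (ss c e (D c w)) = ss c e (E a (D c w)) = - ss c e (wv c b m)`, and `rel_R` for `(c, b, e)`.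
`E b (ss c e (D c w)) = - ss c e (wv a c m) ≡ ε ss c e (wv c a m)`, and `rel_R` for `(c, a, e)`.
On the other side use `E_D_same` (`E p (D p f) = (m + 3) f` for `f ∈ WW _ (m + 3)`, and
`= (m + 4) f` for `f ∈ WW _ (m + 4)`), `E_D_ne`, `ren_D`, `ren_wv`, `wv_swap`, `D_comm`.
The equations `q1, ..., q6`, `hmu`, `hnu`, `c31` of `hC` and `ε ^ 2 = 1` are exactly the
comparisons of coefficients. -/
theorem rel_Q (H : SHyp J T) {m : ℕ} (hm : 1 ≤ m) (h : JZ J T 4 (m + 2))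
    {ε c1 c2 c3 la mu nu : F} (hC : Coef m ε c1 c2 c3 la mu nu) {a b c e : ℕ}
    (ha : a ≠ 0) (hb : b ≠ 0) (hc : c ≠ 0) (he : e ≠ 0)
    (hab : a ≠ b) (hac : a ≠ c) (hae : a ≠ e) (hbc : b ≠ c) (hbe : b ≠ e) (hce : c ≠ e) :
    ss c e (D c (wv (F := F) a b m)) -
      (la • (D a (D c (wv b e (m + 1))) - D a (D e (wv b c (m + 1))))
      + mu • (D b (D c (wv a e (m + 1))) - D b (D e (wv a c (m + 1))))
      + nu • D a (D b (wv c e (m + 1)))) ∈ T := by
  have hcn : c ∉ ({a, b} : Finset ℕ) := by simp [hac.symm, hbc.symm]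
  have hen : e ∉ (insert c {a, b} : Finset ℕ) := by simp [hae.symm, hbe.symm, hce.symm]
  have h0' : (0 : ℕ) ∉ ({a, b} : Finset ℕ) := Rel_h0 ha hb
  have h0'' : (0 : ℕ) ∉ (insert c {a, b} : Finset ℕ) := by simp [ha.symm, hb.symm, hc.symm]
  have h0 : (0 : ℕ) ∉ (insert e (insert c {a, b}) : Finset ℕ) := by
    simp [ha.symm, hb.symm, hc.symm, he.symm]
  have hcard : (insert e (insert c {a, b}) : Finset ℕ).card = 4 := by
    rw [Finset.card_insert_of_notMem hen, Finset.card_insert_of_notMem hcn, Finset.card_pair hab]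
  have hw := wv_mem_WW (F := F) ha hb hab m
  have hDw := D_mem hcn hw
  have hs := hC.sq
  -- memberships of the terms
  have mW : ∀ p q r s : ℕ, p ≠ 0 → q ≠ 0 → r ≠ 0 → s ≠ 0 → p ≠ q → p ≠ r → p ≠ s → q ≠ r → q ≠ s → r ≠ s →
      (insert p (insert q {r, s}) : Finset ℕ) = insert e (insert c {a, b}) →
      D p (D q (wv (F := F) r s (m + 1))) ∈ WW (insert e (insert c {a, b})) (m + 2) := by
    intro p q r s hp hq hr hs hpq hpr hps hqr hqs hrs hset
    rw [← hset]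
    exact D_mem (by simp [hpq, hpr, hps]) (D_mem (by simp [hqr, hqs]) (wv_mem_WW hr hs hrs (m + 1)))
  have mJ : ∀ p q r s : ℕ, r ≠ 0 → s ≠ 0 → r ≠ s → D p (D q (wv (F := F) r s (m + 1))) ∈ J := by
    intro p q r s hr hs hrs
    exact H.hJ.dd_mem _ _ (H.hJ.dd_mem _ _ (wv_mem_J H.hJ H.w3 hr hs hrs _))
  have hset : ∀ x : ℕ, x ∈ (insert e (insert c {a, b}) : Finset ℕ) ↔ (x = e ∨ x = c ∨ x = a ∨ x = b) := by
    intro x
    simp only [Finset.mem_insert, Finset.mem_singleton]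
  refine mem_of_E H.hJ H.hT h0 (JZ_of_card H.hJ H.hT h h0 hcard) ?_ ?_ fun j hj => ?_
  · refine J.sub_mem (H.hJ.ss_mem _ _ (H.hJ.dd_mem _ _ (wv_mem_J H.hJ H.w3 ha hb hab m)))
      (J.add_mem (J.add_mem ?_ ?_) ?_)
    · exact J.smul_mem _ (J.sub_mem (mJ _ _ _ _ hb he hbe) (mJ _ _ _ _ hb hc hbc))
    · exact J.smul_mem _ (J.sub_mem (mJ _ _ _ _ ha he hae) (mJ _ _ _ _ ha hc hac))
    · exact J.smul_mem _ (mJ _ _ _ _ hc he hce)
  · refine Submodule.sub_mem _ (ss_mem (by simp) h0'' hen he hDw) (Submodule.add_mem _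
      (Submodule.add_mem _ ?_ ?_) ?_)
    · refine Submodule.smul_mem _ _ (Submodule.sub_mem _ ?_ ?_)
      · refine mW a c b e ha hc hb he hac hab hae hbc.symm hce hbe ?_
        ext x
        rw [hset]
        simp only [Finset.mem_insert, Finset.mem_singleton]
        tauto
      · refine mW a e b c ha he hb hc hae hab hac hbe.symm hce.symm hbc ?_
        ext x
        rw [hset]
        simp only [Finset.mem_insert, Finset.mem_singleton]
        tauto
    · refine Submodule.smul_mem _ _ (Submodule.sub_mem _ ?_ ?_)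
      · refine mW b c a e hb hc ha he hbc hab.symm hbe hac.symm hce hae ?_
        ext x
        rw [hset]
        simp only [Finset.mem_insert, Finset.mem_singleton]
        tauto
      · refine mW b e a c hb he ha hc hbe hab.symm hbc hae.symm hce.symm hac ?_
        ext x
        rw [hset]
        simp only [Finset.mem_insert, Finset.mem_singleton]
        tauto
    · refine Submodule.smul_mem _ _ (mW a b c e ha hb hc he hab hac hae hbc hbe hce ?_)
      ext x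
      rw [hset]
      simp only [Finset.mem_insert, Finset.mem_singleton]
      tauto
  · have hM : ((m + 1 + 2 : ℕ) : F) = (m : F) + 3 := by
      push_cast
      ring
    rw [hset] at hj
    rw [map_sub, map_add, map_add, map_smul, map_smul, map_smul, map_sub, map_sub]
    rcases hj with rfl | rfl | rfl | rfl
    · -- E e
      rw [E_ss_new (by simp) h0'' hen he hDw,
        Q_right ha hc hb he hac hab hae hbc.symm hce hbe,
        Q_mid ha he hb hc hae hab hac hbe.symm hce.symm hbc,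
        Q_right hb hc ha he hbc hab.symm hbe hac.symm hce hae,
        Q_mid hb he ha hc hbe hab.symm hbc hae.symm hce.symm hac,
        Q_right ha hb hc he hab hac hae hbc hbe hce, hM]
      have t1 := Q_tt H hm hC ha hb hc hab hac hbc
      have t2 := T.smul_mem nu (Q_swapD H hC a hb hc hbc)
      have t3 := T.smul_mem nu (Q_swapD H hC b ha hc hac)
      have t4 := T.smul_mem la (Q_swapD H hC c ha hb hab)
      refine (congrArg (· ∈ T) ?_).mp (T.add_mem (T.add_mem (T.add_mem t1 t4) t2) t3)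
      linear_combination (norm := module) hC.q1 • D a (wv (F := F) b c (m + 1)) +
        hC.q2 • D b (wv (F := F) a c (m + 1)) - hC.hmu • D c (wv (F := F) a b (m + 1))
    · -- E c
      rw [E_ss_old (by simp) h0'' hen he hDw, ren_D _ (Equiv.swap_apply_of_ne_of_ne hc.symm he.symm),
        Equiv.swap_apply_left, Rel_ren hc he, Equiv.swap_apply_of_ne_of_ne hac hae,
        Equiv.swap_apply_of_ne_of_ne hbc hbe,
        Q_mid ha hc hb he hac hab hae hbc.symm hce hbe,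
        Q_right ha he hb hc hae hab hac hbe.symm hce.symm hbc,
        Q_mid hb hc ha he hbc hab.symm hbe hac.symm hce hae,
        Q_right hb he ha hc hbe hab.symm hbc hae.symm hce.symm hac,
        Q_left ha hb hc he hab hac hae hbc hbe hce, hM]
      have t1 := Q_tt H hm hC ha hb he hab hae hbe
      have t4 := T.smul_mem la (Q_swapD H hC e ha hb hab)
      refine (congrArg (· ∈ T) ?_).mp (T.sub_mem (T.neg_mem t1) t4)
      linear_combination (norm := module) -(hC.q1 • D a (wv (F := F) b e (m + 1))) -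
        hC.hnu • D a (wv (F := F) b e (m + 1)) - hC.q2 • D b (wv (F := F) a e (m + 1)) -
        hC.hnu • D b (wv (F := F) a e (m + 1)) + hC.hmu • D e (wv (F := F) a b (m + 1))
    · -- E a
      rw [E_ss_other ha hac hae hc, Rel_ED_left ha hb hc hab hac.symm hbc.symm, map_neg,
        Q_out ha hc hb he hac hab hae hbc.symm hce hbe,
        Q_out ha he hb hc hae hab hac hbe.symm hce.symm hbc,
        Q_left hb hc ha he hbc hab.symm hbe hac.symm hce hae,
        Q_left hb he ha hc hbe hab.symm hbc hae.symm hce.symm hac,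
        Q_out ha hb hc he hab hac hae hbc hbe hce, hM]
      have t1 := rel_R H hm hC hc hb he hbc.symm hce hbe
      have t2 := T.smul_mem c3 (Q_swapD H hC e hb hc hbc)
      have t3 := T.smul_mem mu (Q_swapD H hC b hc he hce)
      refine (congrArg (· ∈ T) ?_).mp (T.sub_mem (T.sub_mem (T.neg_mem t1) t2) t3)
      linear_combination (norm := module) hC.q3 • D c (wv (F := F) b e (m + 1)) -
        (c1 * hs) • D e (wv (F := F) b c (m + 1)) + (ε * hC.c31) • D e (wv (F := F) b c (m + 1)) -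
        hC.q3 • D e (wv (F := F) b c (m + 1)) + hC.q4 • D b (wv (F := F) c e (m + 1))
    · -- E b
      rw [E_ss_other hb hbc hbe hc, Rel_ED_right ha hb hc hab hac.symm hbc.symm, map_neg,
        Q_left ha hc hb he hac hab hae hbc.symm hce hbe,
        Q_left ha he hb hc hae hab hac hbe.symm hce.symm hbc,
        Q_out hb hc ha he hbc hab.symm hbe hac.symm hce hae,
        Q_out hb he ha hc hbe hab.symm hbc hae.symm hce.symm hac,
        Q_mid ha hb hc he hab hac hae hbc hbe hce, hM]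
      have t0 := H.hT.ss_mem c e (Q_swap' H hC ha hc hac)
      rw [map_add, map_smul] at t0
      have t1 := T.smul_mem ε (rel_R H hm hC hc ha he hac.symm hce hae)
      have t2 := T.smul_mem (ε * c3) (Q_swapD H hC e ha hc hac)
      have t3 := T.smul_mem la (Q_swapD H hC a hc he hce)
      refine (congrArg (· ∈ T) ?_).mp (T.sub_mem (T.add_mem (T.add_mem (T.neg_mem t0) t1) t2) t3)
      linear_combination (norm := module) hC.q5 • D c (wv (F := F) a e (m + 1)) -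
        (c3 * hs) • D e (wv (F := F) a c (m + 1)) - hC.c31 • D e (wv (F := F) a c (m + 1)) -
        hC.q5 • D e (wv (F := F) a c (m + 1)) + hC.q6 • D a (wv (F := F) c e (m + 1))

end

end Pool.Agent.Lib.MP_b4a71d_al.SD
end
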