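import Pool.Agent.Lib.MP_b4a71d_al.K3a
import Pool.Agent.Lib.MP_b4a71d_al.SD.Rel

section

/-!
# Level 3 at the point S
-/

set_option autoImplicit false

namespace Pool.Agent.Lib.MP_b4a71d_al

universe u

noncomputable section

/-- `q_0 = (t_2 - t_3) e_1 + (t_3 - t_1) e_2 + (t_1 - t_2) e_3`. -/
def q0v {F : Type*} [Field F] {Q : Type*} [AddCommGroup Q] [Module (R3 F) Q] (e : Fin 3 → Q) : Q :=
  ∑ i : Fin 3, (MvPolynomial.X (i + 1) - MvPolynomial.X (i + 2) : R3 F) • e i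

/-- The vectors `s1^(m+1) (s1 (e_{i+1} - e_{i+2}) + q_0)`, permuted by `S_3` (no sign). -/
def vS {F : Type*} [Field F] {Q : Type*} [AddCommGroup Q] [Module (R3 F) Q] (e : Fin 3 → Q)
    (m : ℕ) (i : Fin 3) : Q :=
  (s1 ^ (m + 1) : R3 F) • ((s1 : R3 F) • (e (i + 1) - e (i + 2)) + q0v (F := F) e)

section

variable {F : Type*} [Field F] {Q : Type*} [AddCommGroup Q] [Module (R3 F) Q] {e : Fin 3 → Q}

private theorem sE (hE : ERel F e) : (MvPolynomial.X 0 : R3 F) • e 0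
    + (MvPolynomial.X 1 : R3 F) • e 1 + (MvPolynomial.X 2 : R3 F) • e 2 = 0 := by
  rw [ERel, Fin.sum_univ_three] at hE
  exact hE

private theorem sK (h : KRel e (-1 : F) 1 0) (i j : Fin 3) :
    (MvPolynomial.X i - s1 : R3 F) • e i = (MvPolynomial.X j - s1 : R3 F) • e j := by
  have h1 := h i j
  simp only [map_neg, map_one, map_zero, neg_mul, one_mul, zero_mul, zero_smul, add_zero] at h1
  linear_combination (norm := module) h1

private theorem sG (h : KRel e (0 : F) 0 1) (i j : Fin 3) :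
    (MvPolynomial.X i : R3 F) • GG e = (MvPolynomial.X j : R3 F) • GG e := by
  have h1 := h i j
  simp only [map_one, map_zero, one_mul, zero_mul, zero_smul, zero_add] at h1
  exact h1

private theorem sGs (h : KRel e (0 : F) 0 1) (i : Fin 3) :
    (3 * MvPolynomial.X i : R3 F) • GG e = (s1 : R3 F) • GG e := by
  have h0 := sG h i 0
  have h1 := sG h i 1
  have h2 := sG h i 2
  rw [s1]
  linear_combination (norm := module) h0 + h1 + h2

private theorem sKs (hE : ERel F e) (h : KRel e (-1 : F) 1 0) (i : Fin 3) :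
    (3 * (MvPolynomial.X i - s1) : R3 F) • e i + (s1 : R3 F) • GG e = 0 := by
  have h0 := sK h i 0
  have h1 := sK h i 1
  have h2 := sK h i 2
  have h3 := sE hE
  rw [GG]
  linear_combination (norm := module) h0 + h1 + h2 + h3

private theorem sU (hE : ERel F e) (h : KRel e (0 : F) 0 1) (h1 : KRel e (-1 : F) 1 0)
    (i : Fin 3) : (9 * MvPolynomial.X i ^ 2 - 9 * s1 ^ 2 : R3 F) • e i
      + (4 * s1 ^ 2 : R3 F) • GG e = 0 := by
  have h2 := sKs hE h1 i
  have h3 := sGs h i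
  linear_combination (norm := module) (3 * MvPolynomial.X i + 3 * s1 : R3 F) • h2
    - (s1 : R3 F) • h3

private theorem sV (h : KRel e (0 : F) 0 1) (i j : Fin 3) :
    (9 * (MvPolynomial.X i * MvPolynomial.X j) : R3 F) • GG e = (s1 ^ 2 : R3 F) • GG e := by
  have h2 := sGs h i
  have h3 := sGs h j
  linear_combination (norm := module) (3 * MvPolynomial.X i : R3 F) • h3 + (s1 : R3 F) • h2

end

/-- At `S`: `K ∋ (0,0,1), (-1,1,0)`, `a = (1, 2)`: `s1 ^ 2 G = 0` (`t_i G = s1 G / 3`,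
`t_i e_i = s1 e_i - s1 G / 3`, `∑ t_i ^ 2 e_i = - s1 ^ 2 G / 3`, `s2 G = s1 ^ 2 G / 3`, and `S1`). -/
theorem caseS_G {F : Type*} [Field F] [CharZero F] {Q : Type*} [AddCommGroup Q] [Module F Q]
    [Module (R3 F) Q] [IsScalarTower F (R3 F) Q] {e : Fin 3 → Q} (hE : ERel F e)
    (h : KRel e (0 : F) 0 1) (h1 : KRel e (-1 : F) 1 0) (hA : ARel e (1 : F) 2) :
    (s1 ^ 2 : R3 F) • GG e = 0 := by
  have hS := hA.S1
  have hc : (3 * 1 - 2 * 2 : F) = -1 := by norm_num
  have h2 : (MvPolynomial.C (2 : F) : R3 F) = 2 := by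
    rw [map_ofNat]
  rw [hc, map_neg, map_one, h2, Fin.sum_univ_three, s2] at hS
  have u0 := sU hE h h1 0
  have u1 := sU hE h h1 1
  have u2 := sU hE h h1 2
  have v01 := sV h 0 1
  have v02 := sV h 0 2
  have v12 := sV h 1 2
  have key : (3 : R3 F) • ((s1 ^ 2 : R3 F) • GG e) = 0 := by
    have hg : (s1 ^ 2 : R3 F) • GG e = (s1 ^ 2 : R3 F) • e 0 + (s1 ^ 2 : R3 F) • e 1
        + (s1 ^ 2 : R3 F) • e 2 := by
      rw [GG, smul_add, smul_add]
    linear_combination (norm := module) (9 : R3 F) • hS + v01 + v02 + v12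
      + (2 : R3 F) • u0 + (2 : R3 F) • u1 + (2 : R3 F) • u2 - (18 : R3 F) • hg
  have h3 : (MvPolynomial.C (1 / 3 : F) : R3 F) * 3 = 1 := by
    have h4 : (3 : R3 F) = MvPolynomial.C (3 : F) := by rw [map_ofNat]
    rw [h4, ← map_mul, one_div_mul_cancel (by norm_num), map_one]
  have h5 := congrArg (fun v => (MvPolynomial.C (1 / 3 : F) : R3 F) • v) key
  simp only [smul_zero] at h5
  rw [smul_smul, h3, one_smul] at h5
  exact h5

section

variable {F : Type*} [Field F] [CharZero F] {Q : Type*} [AddCommGroup Q] [Module F Q]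
    [Module (R3 F) Q] [IsScalarTower F (R3 F) Q] {e : Fin 3 → Q}

private theorem q0v_eq (e : Fin 3 → Q) : q0v (F := F) e
    = (MvPolynomial.X 1 - MvPolynomial.X 2 : R3 F) • e 0
      + (MvPolynomial.X 2 - MvPolynomial.X 0 : R3 F) • e 1
      + (MvPolynomial.X 0 - MvPolynomial.X 1 : R3 F) • e 2 := by
  rw [q0v, Fin.sum_univ_three]
  rfl

private theorem ofF (c : F) (v : Q) : (MvPolynomial.C c : R3 F) • v = c • v := by
  rw [← MvPolynomial.algebraMap_eq, algebraMap_smul]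

private theorem nat_smul_mem (V : Submodule F Q) (n : ℕ) (hn : (n : F) ≠ 0) {v : Q}
    (h : (n : R3 F) • v ∈ V) : v ∈ V := by
  have h1 : (n : R3 F) • v = (n : F) • v := by
    rw [← ofF, map_natCast]
  rw [h1] at h
  exact (Submodule.smul_mem_iff V hn).1 h

private theorem int_smul_mem (V : Submodule F Q) (n : ℤ) {v : Q}
    (h : v ∈ V) : (n : R3 F) • v ∈ V := by
  have h1 : (n : R3 F) • v = (n : F) • v := by
    rw [← ofF, map_intCast]
  rw [h1]
  exact Submodule.smul_mem V _ h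

/-- `s1 ^ (m + 1) w` lies in the span for `w` of degree 1. -/
private theorem deg1_mem (hE : ERel F e)
    (h : KRel e (0 : F) 0 1) (h1 : KRel e (-1 : F) 1 0) (hA : ARel e (1 : F) 2) (m : ℕ)
    (w : Q) (hw : w ∈ Nm (F := F) e 1) :
    (s1 ^ (m + 1) : R3 F) • w ∈ Submodule.span F (Set.range (vS (F := F) e m)) := by
  set V := Submodule.span F (Set.range (vS (F := F) e m)) with hV
  have hv : ∀ i, vS (F := F) e m i ∈ V := fun i => Submodule.subset_span ⟨i, rfl⟩
  have v0 : (s1 ^ (m + 1) : R3 F) • ((s1 : R3 F) • (e 1 - e 2) + q0v (F := F) e) ∈ V := hv 0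
  have v1 : (s1 ^ (m + 1) : R3 F) • ((s1 : R3 F) • (e 2 - e 0) + q0v (F := F) e) ∈ V := hv 1
  have v2 : (s1 ^ (m + 1) : R3 F) • ((s1 : R3 F) • (e 0 - e 1) + q0v (F := F) e) ∈ V := hv 2
  have hG0 := caseS_G hE h h1 hA
  have hG : (s1 ^ (m + 1) : R3 F) • ((s1 : R3 F) • (e 0 + e 1 + e 2)) = 0 := by
    have h2 := congrArg (fun v => (s1 ^ m : R3 F) • v) hG0
    simp only [smul_zero] at h2
    rw [smul_smul] at h2 ⊢
    rw [← h2, GG]
    congr 1
    ring
  have n3 : ((3 : ℕ) : F) ≠ 0 := by norm_num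
  have n6 : ((6 : ℕ) : F) ≠ 0 := by norm_num
  have q' : (s1 ^ (m + 1) : R3 F) • q0v (F := F) e ∈ V := by
    apply nat_smul_mem V 3 n3
    have h2 := Submodule.add_mem V (Submodule.add_mem V v0 v1) v2
    convert h2 using 1
    push_cast
    module
  have e0 : (s1 ^ (m + 1) : R3 F) • ((s1 : R3 F) • e 0) ∈ V := by
    apply nat_smul_mem V 3 n3
    have h2 := Submodule.sub_mem V v2 v1
    convert h2 using 1
    push_cast
    linear_combination (norm := module) hG
  have e1 : (s1 ^ (m + 1) : R3 F) • ((s1 : R3 F) • e 1) ∈ V := by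
    apply nat_smul_mem V 3 n3
    have h2 := Submodule.sub_mem V v0 v2
    convert h2 using 1
    push_cast
    linear_combination (norm := module) hG
  have e2 : (s1 ^ (m + 1) : R3 F) • ((s1 : R3 F) • e 2) ∈ V := by
    apply nat_smul_mem V 3 n3
    have h2 := Submodule.sub_mem V v1 v0
    convert h2 using 1
    push_cast
    linear_combination (norm := module) hG
  -- the nine vectors
  have hQ := q0v_eq (F := F) e
  have t0 := sKs hE h1 0
  have t1 := sKs hE h1 1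
  have t2 := sKs hE h1 2
  have g0 := sGs h 0
  have g1 := sGs h 1
  have g2 := sGs h 2
  rw [GG] at t0 t1 t2 g0 g1 g2
  have comb : ∀ (v : Q) (a b c d : ℤ),
      (6 : R3 F) • v = (a : R3 F) • q0v (F := F) e + (b : R3 F) • ((s1 : R3 F) • e 0)
        + (c : R3 F) • ((s1 : R3 F) • e 1) + (d : R3 F) • ((s1 : R3 F) • e 2) →
      (s1 ^ (m + 1) : R3 F) • v ∈ V := by
    intro v a b c d hv6
    apply nat_smul_mem V 6 n6
    have h2 : ((6 : ℕ) : R3 F) • ((s1 ^ (m + 1) : R3 F) • v)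
        = (a : R3 F) • ((s1 ^ (m + 1) : R3 F) • q0v (F := F) e)
          + (b : R3 F) • ((s1 ^ (m + 1) : R3 F) • ((s1 : R3 F) • e 0))
          + (c : R3 F) • ((s1 ^ (m + 1) : R3 F) • ((s1 : R3 F) • e 1))
          + (d : R3 F) • ((s1 ^ (m + 1) : R3 F) • ((s1 : R3 F) • e 2)) := by
      push_cast
      linear_combination (norm := module) (s1 ^ (m + 1) : R3 F) • hv6
    rw [h2]
    exact Submodule.add_mem _ (Submodule.add_mem _ (Submodule.add_mem _ (int_smul_mem V a q')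
      (int_smul_mem V b e0)) (int_smul_mem V c e1)) (int_smul_mem V d e2)
  have a00 : (s1 ^ (m + 1) : R3 F) • ((MvPolynomial.X 0 : R3 F) • e 0) ∈ V := by
    apply comb _ 0 4 (-2) (-2)
    push_cast
    linear_combination (norm := module) (2 : R3 F) • t0
  have a11 : (s1 ^ (m + 1) : R3 F) • ((MvPolynomial.X 1 : R3 F) • e 1) ∈ V := by
    apply comb _ 0 (-2) 4 (-2)
    push_cast
    linear_combination (norm := module) (2 : R3 F) • t1
  have a22 : (s1 ^ (m + 1) : R3 F) • ((MvPolynomial.X 2 : R3 F) • e 2) ∈ V := by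
    apply comb _ 0 (-2) (-2) 4
    push_cast
    linear_combination (norm := module) (2 : R3 F) • t2
  have d12 := sG h 1 2
  have d20 := sG h 2 0
  have d01 := sG h 0 1
  rw [GG] at d12 d20 d01
  simp only [s1] at t0 t1 t2
  have a01 : (s1 ^ (m + 1) : R3 F) • ((MvPolynomial.X 1 : R3 F) • e 0) ∈ V := by
    apply comb _ 1 1 (-1) 3
    rw [hQ]
    simp only [s1]
    push_cast
    linear_combination (norm := module) t2 - t0 - t1 + (2 : R3 F) • d12
  have a12 : (s1 ^ (m + 1) : R3 F) • ((MvPolynomial.X 2 : R3 F) • e 1) ∈ V := by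
    apply comb _ 1 3 1 (-1)
    rw [hQ]
    simp only [s1]
    push_cast
    linear_combination (norm := module) t0 - t1 - t2 + (2 : R3 F) • d20
  have a20 : (s1 ^ (m + 1) : R3 F) • ((MvPolynomial.X 0 : R3 F) • e 2) ∈ V := by
    apply comb _ 1 (-1) 3 1
    rw [hQ]
    simp only [s1]
    push_cast
    linear_combination (norm := module) t1 - t2 - t0 + (2 : R3 F) • d01
  have a02 : (s1 ^ (m + 1) : R3 F) • ((MvPolynomial.X 2 : R3 F) • e 0) ∈ V := by
    apply comb _ (-1) 1 3 (-1)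
    rw [hQ]
    simp only [s1]
    push_cast
    linear_combination (norm := module) t1 - t0 - t2 - (2 : R3 F) • d12
  have a10 : (s1 ^ (m + 1) : R3 F) • ((MvPolynomial.X 0 : R3 F) • e 1) ∈ V := by
    apply comb _ (-1) (-1) 1 3
    rw [hQ]
    simp only [s1]
    push_cast
    linear_combination (norm := module) t2 - t1 - t0 - (2 : R3 F) • d20
  have a21 : (s1 ^ (m + 1) : R3 F) • ((MvPolynomial.X 1 : R3 F) • e 2) ∈ V := by
    apply comb _ (-1) 3 (-1) 1
    rw [hQ]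
    simp only [s1]
    push_cast
    linear_combination (norm := module) t0 - t2 - t1 - (2 : R3 F) • d01
  -- conclusion
  have hall : ∀ i j : Fin 3, (s1 ^ (m + 1) : R3 F) • ((MvPolynomial.X j : R3 F) • e i) ∈ V := by
    intro i j
    fin_cases i <;> fin_cases j
    · exact a00
    · exact a01
    · exact a02
    · exact a10
    · exact a11
    · exact a12
    · exact a20
    · exact a21
    · exact a22
  rw [Nm_eq] at hw
  induction hw using Submodule.span_induction with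
  | mem x hx =>
    obtain ⟨a, b, c, habc, i, rfl⟩ := hx
    have h3 : (a = 1 ∧ b = 0 ∧ c = 0) ∨ (a = 0 ∧ b = 1 ∧ c = 0) ∨ (a = 0 ∧ b = 0 ∧ c = 1) := by
      omega
    rcases h3 with ⟨rfl, rfl, rfl⟩ | ⟨rfl, rfl, rfl⟩ | ⟨rfl, rfl, rfl⟩
    · rw [pow_one, pow_zero, pow_zero, mul_one, mul_one]
      exact hall i 0
    · rw [pow_one, pow_zero, pow_zero, one_mul, mul_one]
      exact hall i 1
    · rw [pow_one, pow_zero, pow_zero, mul_one, one_mul]
      exact hall i 2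
  | zero =>
    rw [smul_zero]
    exact Submodule.zero_mem _
  | add x y _ _ hx hy =>
    rw [smul_add]
    exact Submodule.add_mem _ hx hy
  | smul c x _ hx =>
    rw [smul_comm]
    exact Submodule.smul_mem _ _ hx

private theorem deg_down (h : KRel e (0 : F) 0 1) (h1 : KRel e (-1 : F) 1 0)
    (hE : ERel F e) (m : ℕ) :
    ∀ v ∈ Nm (F := F) e (m + 1), ∃ w ∈ Nm (F := F) e 1, v = (s1 ^ m : R3 F) • w := by
  induction m with
  | zero =>
    intro v hv
    exact ⟨v, hv, by rw [pow_zero, one_smul]⟩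
  | succ m ih =>
    intro v hv
    obtain ⟨w, hw, rfl⟩ := caseB1 hE h h1 m v hv
    obtain ⟨u, hu, rfl⟩ := ih w hw
    refine ⟨u, hu, ?_⟩
    rw [smul_smul]
    congr 1
    ring

end

/-- Degree `m + 2` is spanned by the three vectors `vS`: degree 1 is spanned by the `s1 e_i` and
`q_0` (`t_i e_i`, the row sums `∑_i t_j e_i = t_j G` and the column sums `∑_j t_j e_i = s1 e_i`
are combinations of the `s1 e_l`, the rest is one-dimensional), and
`Nm (m + 2) = s1 Nm (m + 1)` by `caseB1`. -/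
theorem caseS {F : Type*} [Field F] [CharZero F] {Q : Type*} [AddCommGroup Q] [Module F Q]
    [Module (R3 F) Q] [IsScalarTower F (R3 F) Q] {e : Fin 3 → Q} (hE : ERel F e)
    (h : KRel e (0 : F) 0 1) (h1 : KRel e (-1 : F) 1 0) (hA : ARel e (1 : F) 2) (m : ℕ) :
    Nm (F := F) e (m + 2) ≤ Submodule.span F (Set.range (vS (F := F) e m)) := by
  intro v hv
  obtain ⟨w, hw, rfl⟩ := deg_down h h1 hE (m + 1) v hv
  exact deg1_mem hE h h1 hA m w hw

variable {F : Type u} [Field F]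

/-- The vectors in `FL F`, `i = 1, 2, 3`. -/
def wS (d : ℕ) (i : Fin 3) : FL F := vS (F := F) ev d i

private theorem s1_homog : (s1 : R3 F).IsHomogeneous 1 :=
  ((MvPolynomial.isHomogeneous_X F 0).add (MvPolynomial.isHomogeneous_X F 1)).add
    (MvPolynomial.isHomogeneous_X F 2)

theorem wS_mem (d : ℕ) (i : Fin 3) : wS (F := F) d i ∈ KE (Finset.Icc 1 3) (d + 4) := by
  have h1 : ((s1 : R3 F) • (ev (i + 1) - ev (i + 2) : FL F)) ∈ KE (F := F) (Finset.Icc 1 3) (2 + 1) := by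
    rw [smul_eq_pol]
    exact pol_KE s1_homog (Submodule.sub_mem _ (ev_mem _) (ev_mem _))
  have h2 : q0v (F := F) (ev : Fin 3 → FL F) ∈ KE (F := F) (Finset.Icc 1 3) (2 + 1) := by
    rw [q0v]
    apply Submodule.sum_mem
    intro j _
    rw [smul_eq_pol]
    exact pol_KE ((MvPolynomial.isHomogeneous_X F _).sub (MvPolynomial.isHomogeneous_X F _))
      (ev_mem _)
  have h3 := pol_KE (s1_homog.pow (d + 1)) (Submodule.add_mem _ h1 h2)
  have h4 : 2 + 1 + 1 * (d + 1) = d + 4 := by ring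
  rw [h4] at h3
  exact h3

private theorem rename_s1 (s : Equiv.Perm (Fin 3)) :
    MvPolynomial.rename s (s1 : R3 F) = s1 := by
  have h1 : (s1 : R3 F) = ∑ i : Fin 3, MvPolynomial.X i := by
    rw [Fin.sum_univ_three, s1]
  rw [h1, map_sum, ← Equiv.sum_comp s fun i => (MvPolynomial.X i : R3 F)]
  exact Finset.sum_congr rfl fun i _ => MvPolynomial.rename_X _ _

private theorem perm3 : ∀ (s : Equiv.Perm (Fin 3)) (i : Fin 3),
    (Equiv.Perm.sign s = 1 ∧ s (i + 1) = s i + 1 ∧ s (i + 2) = s i + 2) ∨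
    (Equiv.Perm.sign s = -1 ∧ s (i + 1) = s i + 2 ∧ s (i + 2) = s i + 1) := by
  decide

private theorem ren_smul (s : Equiv.Perm (Fin 3)) (p : R3 F) (f : FL F) :
    ren (up3 s) (p • f) = (MvPolynomial.rename s p : R3 F) • ren (up3 s) f :=
  ren_pol s p f

private theorem ren_q0v (s : Equiv.Perm (Fin 3)) :
    ren (up3 s) (q0v (F := F) (ev : Fin 3 → FL F)) = q0v (F := F) (ev : Fin 3 → FL F) := by
  rw [q0v, map_sum, ← Equiv.sum_comp s fun i => (MvPolynomial.X (i + 1) - MvPolynomial.X (i + 2)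
    : R3 F) • (ev i : FL F)]
  apply Finset.sum_congr rfl
  intro i _
  rw [ren_smul, ren_ev, map_sub, MvPolynomial.rename_X, MvPolynomial.rename_X]
  rcases perm3 s i with ⟨h0, h1, h2⟩ | ⟨h0, h1, h2⟩
  · rw [h0, h1, h2]
    simp only [Units.val_one, Int.cast_one, one_smul]
  · rw [h0, h1, h2]
    simp only [Units.val_neg, Units.val_one, Int.cast_neg, Int.cast_one, neg_smul, one_smul]
    module

theorem ren_wS (s : Equiv.Perm (Fin 3)) (d : ℕ) (i : Fin 3) :
    ren (up3 s) (wS (F := F) d i) = wS d (s i) := by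
  rw [wS, wS, vS, vS, ren_smul, map_add, ren_smul, map_sub, ren_q0v, ren_ev, ren_ev, map_pow,
    rename_s1]
  rcases perm3 s i with ⟨h0, h1, h2⟩ | ⟨h0, h1, h2⟩
  · rw [h0, h1, h2]
    simp only [Units.val_one, Int.cast_one, one_smul]
  · rw [h0, h1, h2]
    simp only [Units.val_neg, Units.val_one, Int.cast_neg, Int.cast_one, neg_smul, one_smul]
    module

/-- Level 3 at S: `KE {1,2,3} (d + 4)` is spanned modulo `T` by the three vectors `wS d i`. -/
theorem level3_S [CharZero F] {T : Submodule F (FL F)} (hT : IsTIdeal F T)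
    (h1 : v321 (F := F) 0 0 1 ∈ T) (h2 : v321 (F := F) (-1) 1 0 ∈ T)
    (h3 : v411 (F := F) 1 2 ∈ T) (d : ℕ) :
    KE (F := F) (Finset.Icc 1 3) (d + 4) ≤ Submodule.span F (Set.range (wS (F := F) d)) ⊔ T := by
  apply KE_le_of_Nm hT (d + 2)
  refine (caseS (eq3_rel hT) (KRel_of_mem hT h1) (KRel_of_mem hT h2) (ARel_of_mem hT h3)
    d).trans (Submodule.span_mono ?_)
  rintro _ ⟨i, rfl⟩
  refine ⟨wS d i, ⟨i, rfl⟩, ?_⟩
  rw [wS, vS, vS, q0v, q0v, map_smul, map_add, map_smul, map_sub, map_sum]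
  simp only [map_smul]
  rfl

end

end Pool.Agent.Lib.MP_b4a71d_al
end

section

/-!
# MP_b4a71d_al, S point, part D: the classes in level four
-/

set_option autoImplicit false
set_option linter.unusedSectionVars false
set_option linter.unusedVariables false

namespace Pool.Agent.Lib.MP_b4a71d_al.SD

universe u

noncomputable section

variable {F : Type u} [Field F] [CharZero F] {J T : Submodule F (FL F)}

/-- Abbreviation: the base of the level `(4, m + 3)` with letters `Y`. -/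
def BT (T : Submodule F (FL F)) (Y : Finset ℕ) (d : ℕ) : Submodule F (FL F) := Lam Y d ⊔ T

theorem BT_congr {Y Z : Finset ℕ} (h : Y = Z) (d : ℕ) {f : FL F} (hf : f ∈ BT T Y d) :
    f ∈ BT T Z d := h ▸ hf

theorem lam_BT {Y : Finset ℕ} {d : ℕ} {f : FL F} (hf : f ∈ Lam Y d) : f ∈ BT T Y d :=
  Submodule.mem_sup_left hf

theorem T_BT {Y : Finset ℕ} {d : ℕ} {f : FL F} (hf : f ∈ T) : f ∈ BT T Y d :=
  Submodule.mem_sup_right hf

theorem D_Lam_of {Y Z : Finset ℕ} {j d : ℕ} (hj : j ∉ Z) (hY : Y = insert j Z) {h : FL F}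
    (hh : h ∈ WW Z (d + 1)) : D j h ∈ Lam Y d := by
  subst hY
  apply D_mem_Lam (Finset.mem_insert_self j Z)
  rwa [Finset.erase_insert hj]

/-- `tt l (D c (D e w)) ∈ Lam` if `w` does not contain `c`, `e`, but contains `l`. -/
theorem tt_DD_gen {Y Z : Finset ℕ} {l c e d : ℕ} (hl : l ∈ Z) (h0 : 0 ∉ Z) (hc : c ∉ Z)
    (he : e ∉ Z) (hce : c ≠ e) (hc0 : c ≠ 0) (he0 : e ≠ 0) (hY : Y = insert c (insert e Z))
    {w : FL F} (hw : w ∈ WW Z (d + 2)) : tt l (D c (D e w)) ∈ Lam Y (d + 1) := by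
  have hl0 : l ≠ 0 := fun h => h0 (h ▸ hl)
  have hlc : l ≠ c := fun h => hc (h ▸ hl)
  have hle : l ≠ e := fun h => he (h ▸ hl)
  have hce' : c ∉ insert e Z := by
    rw [Finset.mem_insert, not_or]; exact ⟨hce, hc⟩
  have h0e : 0 ∉ insert e Z := by
    rw [Finset.mem_insert, not_or]; exact ⟨he0.symm, h0⟩
  have hg : D e w ∈ WW (insert e Z) (d + 1) := D_mem he hw
  have h1 := D_tt (Finset.mem_insert_of_mem hl) h0e hce' hc0 hg
  rw [← sub_eq_iff_eq_add] at h1
  rw [← h1]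
  refine Submodule.sub_mem _ ?_ ?_
  · exact D_Lam_of hce' hY (tt_mem (Finset.mem_insert_of_mem hl) h0e hg)
  · rw [← D_ss he0 hle.symm hl0 hc0]
    have h2 : ss l c w ∈ WW (insert c Z) (d + 2) := ss_mem hl h0 hc hc0 hw
    refine D_Lam_of (Z := insert c Z) ?_ ?_ h2
    · rw [Finset.mem_insert, not_or]; exact ⟨hce.symm, he⟩
    · rw [hY, Finset.insert_comm]

/-- `ss i j (D k w) ∈ Lam` for `k ≠ i, j`. -/
theorem ss_D_Lam {Y Z : Finset ℕ} {i j k d : ℕ} (hi : i ∈ Z) (h0 : 0 ∉ Z) (hj : j ∉ Z)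
    (hk : k ∉ Z) (hkj : k ≠ j) (hj0 : j ≠ 0) (hk0 : k ≠ 0) (hY : Y = insert k (insert j Z))
    {w : FL F} (hw : w ∈ WW Z (d + 1)) : ss i j (D k w) ∈ Lam Y d := by
  have hi0 : i ≠ 0 := fun h => h0 (h ▸ hi)
  have hik : k ≠ i := fun h => hk (h ▸ hi)
  rw [← D_ss hk0 hik hi0 hj0]
  refine D_Lam_of (Z := insert j Z) ?_ hY (ss_mem hi h0 hj hj0 hw)
  rw [Finset.mem_insert, not_or]; exact ⟨hkj, hk⟩

/-- `tt a (D a (D e w_{bc})) ≡ - q(bc|ae)`.
Proof: `D a (D e w) = D e (D a w)`; `tt a (D e g) = D e (tt a g) - ss a e g` (`D_tt`) for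
`g = D a w_{bc} ∈ WW {a, b, c} (m + 3)`, and `D e (tt a g) ∈ Lam`. -/
theorem tt_DD (H : SHyp J T) {m : ℕ} {a b c e : ℕ}
    (ha : a ≠ 0) (hb : b ≠ 0) (hc : c ≠ 0) (he : e ≠ 0)
    (hab : a ≠ b) (hac : a ≠ c) (hae : a ≠ e) (hbc : b ≠ c) (hbe : b ≠ e) (hce : c ≠ e) :
    tt a (D a (D e (wv (F := F) b c (m + 1)))) + qv b c a e m ∈ BT T {a, b, c, e} (m + 3) := by
  have hw : wv (F := F) b c (m + 1) ∈ WW {b, c} (m + 2 + 2) := wv_mem_WW hb hc hbc (m + 1)
  have ha' : a ∉ ({b, c} : Finset ℕ) := by simp [hab, hac]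
  have hg : D a (wv (F := F) b c (m + 1)) ∈ WW (insert a {b, c}) (m + 3) := D_mem ha' hw
  have h0 : 0 ∉ insert a ({b, c} : Finset ℕ) := by
    simp [ha.symm, hb.symm, hc.symm]
  have he' : e ∉ insert a ({b, c} : Finset ℕ) := by
    simp [hae.symm, hbe.symm, hce.symm]
  have haI : a ∈ insert a ({b, c} : Finset ℕ) := Finset.mem_insert_self _ _
  have h1 := D_tt haI h0 he' he hg
  rw [D_comm ha he]
  have h2 : tt a (D e (D a (wv (F := F) b c (m + 1)))) + qv b c a e m =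
      D e (tt a (D a (wv (F := F) b c (m + 1)))) := by
    rw [h1]; rfl
  rw [h2]
  apply lam_BT
  refine D_Lam_of he' ?_ (tt_mem haI h0 hg)
  ext x; simp; tauto

/-- `tt a (D c (D e w_{ab})) ≡ 0`.
Proof: `tt a (D c g) = D c (tt a g) - ss a c g`, `g = D e w`, `ss a c (D e w) = D e (ss a c w)`
(`D_ss`). -/
theorem tt_DD_zero (H : SHyp J T) {m : ℕ} {a b c e : ℕ}
    (ha : a ≠ 0) (hb : b ≠ 0) (hc : c ≠ 0) (he : e ≠ 0)
    (hab : a ≠ b) (hac : a ≠ c) (hae : a ≠ e) (hbc : b ≠ c) (hbe : b ≠ e) (hce : c ≠ e) :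
    tt a (D c (D e (wv (F := F) a b (m + 1)))) ∈ BT T {a, b, c, e} (m + 3) := by
  have hw : wv (F := F) a b (m + 1) ∈ WW {a, b} (m + 2 + 2) := wv_mem_WW ha hb hab (m + 1)
  apply lam_BT
  refine tt_DD_gen (Z := {a, b}) (d := m + 2) (by simp) (by simp [ha.symm, hb.symm])
    (by simp [hac.symm, hbc.symm]) (by simp [hae.symm, hbe.symm]) hce hc he ?_ hw
  ext x; simp; tauto

/-- `q(ab|ce) + q(ab|ec) ≡ 0`.
Proof: with `g = D c (D e w)`, `w = w_{ab}`: `⁅g, x⁆ = ∑ tt l g` over the four letters (`lie_x`);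
`tt a g ≡ 0`, `tt b g ≡ 0` (`tt_DD_zero`, for `b` with `wv a b = ± wv b a` or the same proof),
`tt c g ≡ - q(ab|ce)`, `tt e g ≡ - q(ab|ec)`; and
`⁅D c (D e w), x⁆ = D c ⁅D e w, x⁆ - ⁅D e w, y_c⁆` (`D_lie_x`), the last is
`D e ⁅w, y_c⁆ ∈ T` (`lie_wv_y`, `D_lie_y`). -/
theorem qv_skew (H : SHyp J T) {m : ℕ} {a b c e : ℕ}
    (ha : a ≠ 0) (hb : b ≠ 0) (hc : c ≠ 0) (he : e ≠ 0)
    (hab : a ≠ b) (hac : a ≠ c) (hae : a ≠ e) (hbc : b ≠ c) (hbe : b ≠ e) (hce : c ≠ e) :
    qv (F := F) a b c e m + qv a b e c m ∈ BT T {a, b, c, e} (m + 3) := by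
  have hw : wv (F := F) a b (m + 1) ∈ WW {a, b} (m + 2 + 2) := wv_mem_WW ha hb hab (m + 1)
  have heZ : e ∉ ({a, b} : Finset ℕ) := by simp [hae.symm, hbe.symm]
  have hDe : D e (wv (F := F) a b (m + 1)) ∈ WW (insert e {a, b}) (m + 3) := D_mem heZ hw
  have hcZ : c ∉ insert e ({a, b} : Finset ℕ) := by simp [hce, hac.symm, hbc.symm]
  have hg : D c (D e (wv (F := F) a b (m + 1))) ∈ WW (insert c (insert e {a, b})) (m + 2) :=
    D_mem hcZ hDe
  have hset : insert c (insert e ({a, b} : Finset ℕ)) = {a, b, c, e} := by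
    ext x; simp; tauto
  rw [hset] at hg
  have h0 : 0 ∉ ({a, b, c, e} : Finset ℕ) := by
    simp [ha.symm, hb.symm, hc.symm, he.symm]
  have hsum := lie_x h0 hg
  rw [Finset.sum_insert (by simp [hab, hac, hae]), Finset.sum_insert (by simp [hbc, hbe]),
    Finset.sum_pair hce] at hsum
  have hA := tt_DD_zero H (m := m) ha hb hc he hab hac hae hbc hbe hce
  have hB : tt b (D c (D e (wv (F := F) a b (m + 1)))) ∈ BT T {a, b, c, e} (m + 3) := by
    apply lam_BT
    refine tt_DD_gen (Z := {a, b}) (d := m + 2) (by simp) (by simp [ha.symm, hb.symm])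
      (by simp [hac.symm, hbc.symm]) heZ hce hc he hset.symm hw
  have hC := BT_congr (show ({c, a, b, e} : Finset ℕ) = {a, b, c, e} by ext x; simp; tauto) _
    (tt_DD H (m := m) hc ha hb he hac.symm hbc.symm hce hab hae hbe)
  have hE := BT_congr (show ({e, a, b, c} : Finset ℕ) = {a, b, c, e} by ext x; simp; tauto) _
    (tt_DD H (m := m) he ha hb hc hae.symm hbe.symm hce.symm hab hac hbc)
  rw [D_comm he hc] at hE
  have hL : ⁅D c (D e (wv (F := F) a b (m + 1))), X F 0⁆ ∈ BT T {a, b, c, e} (m + 3) := by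
    have h1 := D_lie_x c (D e (wv (F := F) a b (m + 1)))
    rw [← sub_eq_iff_eq_add] at h1
    rw [← h1]
    refine Submodule.sub_mem _ (lam_BT ?_) (T_BT ?_)
    · exact D_Lam_of hcZ hset.symm (lie_X0_mem_WW hDe)
    · rw [← D_lie_y e hc]
      exact H.hT.dd_mem 0 e (lie_wv_y H ha hb hc hab hac hbc (by omega))
  rw [hsum] at hL
  have h1 := Submodule.sub_mem _ (Submodule.add_mem _ (Submodule.add_mem _ (Submodule.add_mem _ hA hB) hC) hE) hL
  have h2 : tt a (D c (D e (wv (F := F) a b (m + 1)))) + tt b (D c (D e (wv (F := F) a b (m + 1))))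
      + (tt c (D c (D e (wv (F := F) a b (m + 1)))) + qv a b c e m)
      + (tt e (D c (D e (wv (F := F) a b (m + 1)))) + qv a b e c m)
      - (tt a (D c (D e (wv (F := F) a b (m + 1)))) + (tt b (D c (D e (wv (F := F) a b (m + 1))))
      + (tt c (D c (D e (wv (F := F) a b (m + 1)))) + tt e (D c (D e (wv (F := F) a b (m + 1)))))))
      = qv a b c e m + qv a b e c m := by abel
  rwa [h2] at h1

/-- `q(ba|ce) ≡ ε q(ab|ce)`.  Proof: `wv_swap` (index `m + 1`), `IsTIdeal.dd_mem`, `ss_mem`. -/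
theorem qv_swap (H : SHyp J T) {m : ℕ} {ε : F} (hε : ε = (-1 : F) ^ m) {a b c e : ℕ}
    (ha : a ≠ 0) (hb : b ≠ 0) (hc : c ≠ 0) (he : e ≠ 0)
    (hab : a ≠ b) (hac : a ≠ c) (hae : a ≠ e) (hbc : b ≠ c) (hbe : b ≠ e) (hce : c ≠ e) :
    qv (F := F) b a c e m - ε • qv a b c e m ∈ BT T {a, b, c, e} (m + 3) := by
  apply T_BT
  have h1 := wv_swap H.hT H.relA ha hb hab (m + 1)
  have h2 : (-1 : F) ^ (m + 1 + 1) = ε := by
    rw [hε, pow_succ, pow_succ]; ring
  rw [h2] at h1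
  have h3 := H.hT.ss_mem c e (H.hT.dd_mem 0 c h1)
  rw [map_sub, map_smul, map_sub, map_smul] at h3
  exact h3

/-- `ss a e (ss a c (wv a b m)) ≡ c1 q(bc|ae)`.
Proof: `ss a e` of `rel_R`; `ss a e (D b _) = D b (ss a e _)` and `ss a e (D c _) = D c (ss a e _)`
are in `Lam`. -/
theorem ss_ss_one (H : SHyp J T) {m : ℕ} (hm : 1 ≤ m) {ε c1 c2 c3 la mu nu : F}
    (hC : Coef m ε c1 c2 c3 la mu nu) {a b c e : ℕ}
    (ha : a ≠ 0) (hb : b ≠ 0) (hc : c ≠ 0) (he : e ≠ 0)
    (hab : a ≠ b) (hac : a ≠ c) (hae : a ≠ e) (hbc : b ≠ c) (hbe : b ≠ e) (hce : c ≠ e) :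
    ss a e (ss a c (wv (F := F) a b m)) - c1 • qv b c a e m ∈ BT T {a, b, c, e} (m + 3) := by
  have h1 := H.hT.ss_mem a e (rel_R H hm hC ha hb hc hab hac hbc)
  rw [map_sub, map_add, map_add, map_smul, map_smul, map_smul] at h1
  have h2 : ss a e (D b (wv (F := F) a c (m + 1))) ∈ Lam {a, b, c, e} (m + 3) := by
    refine ss_D_Lam (Z := {a, c}) (by simp) (by simp [ha.symm, hc.symm])
      (by simp [hae.symm, hce.symm]) (by simp [hab.symm, hbc]) hbe he hb ?_
      (wv_mem_WW ha hc hac (m + 1))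
    ext x; simp; tauto
  have h3 : ss a e (D c (wv (F := F) a b (m + 1))) ∈ Lam {a, b, c, e} (m + 3) := by
    refine ss_D_Lam (Z := {a, b}) (by simp) (by simp [ha.symm, hb.symm])
      (by simp [hae.symm, hbe.symm]) (by simp [hac.symm, hbc.symm]) hce he hc ?_
      (wv_mem_WW ha hb hab (m + 1))
    ext x; simp; tauto
  have h4 := Submodule.add_mem _ (T_BT (Y := {a, b, c, e}) (d := m + 3) h1)
    (Submodule.add_mem _ (Submodule.smul_mem _ c2 (lam_BT (T := T) h2))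
      (Submodule.smul_mem _ c3 (lam_BT (T := T) h3)))
  have h5 : ss a e (ss a c (wv (F := F) a b m)) - (c1 • ss a e (D a (wv (F := F) b c (m + 1)))
      + c2 • ss a e (D b (wv (F := F) a c (m + 1))) + c3 • ss a e (D c (wv (F := F) a b (m + 1))))
      + (c2 • ss a e (D b (wv (F := F) a c (m + 1))) + c3 • ss a e (D c (wv (F := F) a b (m + 1))))
      = ss a e (ss a c (wv (F := F) a b m)) - c1 • qv b c a e m := by
    rw [qv]; abel
  rwa [h5] at h4

/-- `ss c e (ss a c (wv a b m)) ≡ c3 q(ab|ce)`.  Proof: `ss c e` of `rel_R`. -/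
theorem ss_ss_three (H : SHyp J T) {m : ℕ} (hm : 1 ≤ m) {ε c1 c2 c3 la mu nu : F}
    (hC : Coef m ε c1 c2 c3 la mu nu) {a b c e : ℕ}
    (ha : a ≠ 0) (hb : b ≠ 0) (hc : c ≠ 0) (he : e ≠ 0)
    (hab : a ≠ b) (hac : a ≠ c) (hae : a ≠ e) (hbc : b ≠ c) (hbe : b ≠ e) (hce : c ≠ e) :
    ss c e (ss a c (wv (F := F) a b m)) - c3 • qv a b c e m ∈ BT T {a, b, c, e} (m + 3) := by
  have h1 := H.hT.ss_mem c e (rel_R H hm hC ha hb hc hab hac hbc)
  rw [map_sub, map_add, map_add, map_smul, map_smul, map_smul] at h1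
  have h2 : ss c e (D a (wv (F := F) b c (m + 1))) ∈ Lam {a, b, c, e} (m + 3) := by
    refine ss_D_Lam (Z := {b, c}) (by simp) (by simp [hb.symm, hc.symm])
      (by simp [hbe.symm, hce.symm]) (by simp [hab, hac]) hae he ha ?_
      (wv_mem_WW hb hc hbc (m + 1))
    ext x; simp; tauto
  have h3 : ss c e (D b (wv (F := F) a c (m + 1))) ∈ Lam {a, b, c, e} (m + 3) := by
    refine ss_D_Lam (Z := {a, c}) (by simp) (by simp [ha.symm, hc.symm])
      (by simp [hae.symm, hce.symm]) (by simp [hab.symm, hbc]) hbe he hb ?_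
      (wv_mem_WW ha hc hac (m + 1))
    ext x; simp; tauto
  have h4 := Submodule.add_mem _ (T_BT (Y := {a, b, c, e}) (d := m + 3) h1)
    (Submodule.add_mem _ (Submodule.smul_mem _ c1 (lam_BT (T := T) h2))
      (Submodule.smul_mem _ c2 (lam_BT (T := T) h3)))
  have h5 : ss c e (ss a c (wv (F := F) a b m)) - (c1 • ss c e (D a (wv (F := F) b c (m + 1)))
      + c2 • ss c e (D b (wv (F := F) a c (m + 1))) + c3 • ss c e (D c (wv (F := F) a b (m + 1))))
      + (c1 • ss c e (D a (wv (F := F) b c (m + 1))) + c2 • ss c e (D b (wv (F := F) a c (m + 1))))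
      = ss c e (ss a c (wv (F := F) a b m)) - c3 • qv a b c e m := by
    rw [qv]; abel
  rwa [h5] at h4

/-- Jacobi: `ss c e (ss a c f) = ss a c (ss a e f) - ss a e (ss a c f)` for `f` linear in `y_a`
and without `y_c`, `y_e`.
Proof: `⁅y_a, ⁅y_c, y_e⁆⁆ = ⁅⁅y_a, y_c⁆, y_e⁆ - ⁅⁅y_a, y_e⁆, y_c⁆`; note
`ss a c (ss a e f)` is the substitution `y_a → ⁅⁅y_a, y_c⁆, y_e⁆`.  As in `ss_tt_same`
(Ops.lean), with `sb_if_add`, `sb_if_smul`. -/
theorem ss_jacobi {Y : Finset ℕ} {a c e d : ℕ} (hc : c ≠ 0) (he : e ≠ 0) (haY : a ∈ Y)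
    (h0 : 0 ∉ Y) (hcY : c ∉ Y) (heY : e ∉ Y) (hce : c ≠ e) {f : FL F} (hf : f ∈ WW Y d) :
    ss c e (ss a c f) = ss a c (ss a e f) - ss a e (ss a c f) := by
  have ha0 : a ≠ 0 := fun h => h0 (h ▸ haY)
  have hca : c ≠ a := fun h => hcY (h ▸ haY)
  have hea : e ≠ a := fun h => heY (h ▸ haY)
  have hcc := notMem_cont (d := d) hcY hc
  have hec := notMem_cont (d := d) heY he
  have key : ∀ (φ ψ : FL F →ₗ⁅F⁆ FL F) (v : FL F), ψ (φ (X F a)) = v →
      (∀ i ∈ cont Y d, i ≠ a → ψ (φ (X F i)) = X F i) →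
      ψ (φ f) = sb (fun i => if i = a then v else X F i) f := by
    intro φ ψ v h1 h2
    change (ψ.comp φ) f = _
    apply hom_congr hf
    intro i hi
    rw [LieHom.comp_apply, sb_X]
    by_cases h : i = a
    · subst h
      rw [if_pos rfl, h1]
    · rw [if_neg h, h2 i hi h]
  rw [key (ss a c) (ss c e) ⁅X F a, ⁅X F c, X F e⁆⁆, key (ss a e) (ss a c) ⁅⁅X F a, X F c⁆, X F e⁆,
    key (ss a c) (ss a e) ⁅⁅X F a, X F e⁆, X F c⁆, eq_sub_iff_add_eq,
    ← sb_if_add hf (count_cont haY h0 d)]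
  · apply sb_congr hf
    intro i _
    by_cases h : i = a
    · rw [if_pos h, if_pos h, leibniz_lie (X F a) (X F c) (X F e),
        ← lie_skew (X F c) ⁅X F a, X F e⁆]
      abel
    · rw [if_neg h, if_neg h]
  · rw [ss_X_same, LieHom.map_lie, ss_X_same, ss_X_ne hca]
  · intro i hi h
    rw [ss_X_ne h, ss_X_ne h]
  · rw [ss_X_same, LieHom.map_lie, ss_X_same, ss_X_ne hea]
  · intro i hi h
    rw [ss_X_ne h, ss_X_ne h]
  · rw [ss_X_same, LieHom.map_lie, ss_X_ne hca.symm, ss_X_same]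
  · intro i hi h
    rw [ss_X_ne h, ss_X_ne]
    rintro rfl
    exact hcc hi

/-- (R1): `c3 q(ab|ce) ≡ c1 (q(be|ac) - q(bc|ae))`.
Proof: `ss_jacobi`, `ss_ss_three`, `ss_ss_one` (twice). -/
theorem rel_R1 (H : SHyp J T) {m : ℕ} (hm : 1 ≤ m) {ε c1 c2 c3 la mu nu : F}
    (hC : Coef m ε c1 c2 c3 la mu nu) {a b c e : ℕ}
    (ha : a ≠ 0) (hb : b ≠ 0) (hc : c ≠ 0) (he : e ≠ 0)
    (hab : a ≠ b) (hac : a ≠ c) (hae : a ≠ e) (hbc : b ≠ c) (hbe : b ≠ e) (hce : c ≠ e) :
    c3 • qv (F := F) a b c e m - c1 • (qv b e a c m - qv b c a e m)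
      ∈ BT T {a, b, c, e} (m + 3) := by
  have hj := ss_jacobi (e := e) hc he (show a ∈ ({a, b} : Finset ℕ) by simp)
    (show 0 ∉ ({a, b} : Finset ℕ) by simp [ha.symm, hb.symm])
    (show c ∉ ({a, b} : Finset ℕ) by simp [hac.symm, hbc.symm])
    (show e ∉ ({a, b} : Finset ℕ) by simp [hae.symm, hbe.symm]) hce
    (wv_mem_WW (F := F) ha hb hab m)
  have h1 := ss_ss_three H hm hC ha hb hc he hab hac hae hbc hbe hce
  have h2 := BT_congr (show ({a, b, e, c} : Finset ℕ) = {a, b, c, e} by ext x; simp; tauto) _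
    (ss_ss_one H hm hC ha hb he hc hab hae hac hbe hbc hce.symm)
  have h3 := ss_ss_one H hm hC ha hb hc he hab hac hae hbc hbe hce
  rw [hj] at h1
  have h4 := Submodule.sub_mem _ (Submodule.sub_mem _ h2 h3) h1
  have h5 : ss a c (ss a e (wv (F := F) a b m)) - c1 • qv b e a c m -
      (ss a e (ss a c (wv (F := F) a b m)) - c1 • qv b c a e m) -
      (ss a c (ss a e (wv (F := F) a b m)) - ss a e (ss a c (wv (F := F) a b m))
        - c3 • qv a b c e m) =
      c3 • qv (F := F) a b c e m - c1 • (qv b e a c m - qv b c a e m) := by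
    rw [smul_sub]; abel
  rwa [h5] at h4

/-- (R3): `q(ab|ce) ≡ - la (q(be|ac) - q(bc|ae)) - nu q(ce|ab) + c3 q(ab|ce)`.
Proof: `wv a b (m + 1) = tt a (wv a b m)`; `D c (tt a w) = tt a (D c w) + ss a c w` (`D_tt`);
apply `ss c e`, which commutes with `tt a` (`ss_tt_comm`):
`q(ab|ce) = tt a (ss c e (D c w)) + ss c e (ss a c w)`.  For the first term apply `tt a` to
`rel_Q`, and `tt_DD` (for `D a D c w_{be}`, `D a D e w_{bc}`, `D a D b w_{ce}`), `tt_DD_zero` (for
the terms with `w_{ae}`, `w_{ac}`, where `D_comm`).  For the second `ss_ss_three`. -/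
theorem rel_R3 (H : SHyp J T) {m : ℕ} (hm : 1 ≤ m) (h : JZ J T 4 (m + 2))
    {ε c1 c2 c3 la mu nu : F} (hC : Coef m ε c1 c2 c3 la mu nu) {a b c e : ℕ}
    (ha : a ≠ 0) (hb : b ≠ 0) (hc : c ≠ 0) (he : e ≠ 0)
    (hab : a ≠ b) (hac : a ≠ c) (hae : a ≠ e) (hbc : b ≠ c) (hbe : b ≠ e) (hce : c ≠ e) :
    qv (F := F) a b c e m - (-la • (qv b e a c m - qv b c a e m) - nu • qv c e a b m
      + c3 • qv a b c e m) ∈ BT T {a, b, c, e} (m + 3) := by
  have hw : wv (F := F) a b m ∈ WW {a, b} (m + 3) := wv_mem_WW ha hb hab m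
  have h1 := D_tt (show a ∈ ({a, b} : Finset ℕ) by simp)
    (show 0 ∉ ({a, b} : Finset ℕ) by simp [ha.symm, hb.symm])
    (show c ∉ ({a, b} : Finset ℕ) by simp [hac.symm, hbc.symm]) hc hw
  have hq : qv (F := F) a b c e m = tt a (ss c e (D c (wv (F := F) a b m)))
      + ss c e (ss a c (wv (F := F) a b m)) := by
    rw [qv, ← tt_wv_left ha hb hab m, h1, map_add, ss_tt_comm ha hc hac hae]
  have h2 := H.hT.tt_mem a (rel_Q H hm h hC ha hb hc he hab hac hae hbc hbe hce)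
  rw [map_sub, map_add, map_add, map_smul, map_smul, map_smul, map_sub, map_sub] at h2
  have h3 := BT_congr (show ({a, b, e, c} : Finset ℕ) = {a, b, c, e} by ext x; simp; tauto) _
    (tt_DD H (m := m) ha hb he hc hab hae hac hbe hbc hce.symm)
  have h4 := tt_DD H (m := m) ha hb hc he hab hac hae hbc hbe hce
  have h5 := BT_congr (show ({a, c, e, b} : Finset ℕ) = {a, b, c, e} by ext x; simp; tauto) _
    (tt_DD H (m := m) ha hc he hb hac hae hab hce hbc.symm hbe.symm)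
  have h6 : tt a (D b (D c (wv (F := F) a e (m + 1)))) ∈ BT T {a, b, c, e} (m + 3) := by
    apply lam_BT
    refine tt_DD_gen (Z := {a, e}) (d := m + 2) (by simp) (by simp [ha.symm, he.symm])
      (by simp [hab.symm, hbe]) (by simp [hac.symm, hce]) hbc hb hc ?_
      (wv_mem_WW ha he hae (m + 1))
    ext x; simp; tauto
  have h7 : tt a (D b (D e (wv (F := F) a c (m + 1)))) ∈ BT T {a, b, c, e} (m + 3) := by
    apply lam_BT
    refine tt_DD_gen (Z := {a, c}) (d := m + 2) (by simp) (by simp [ha.symm, hc.symm])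
      (by simp [hab.symm, hbc]) (by simp [hae.symm, hce.symm]) hbe hb he ?_
      (wv_mem_WW ha hc hac (m + 1))
    ext x; simp; tauto
  have h8 := ss_ss_three H hm hC ha hb hc he hab hac hae hbc hbe hce
  have h9 := Submodule.add_mem _ (Submodule.add_mem _ (T_BT (Y := {a, b, c, e}) (d := m + 3) h2) h8)
    (Submodule.add_mem _ (Submodule.add_mem _ (Submodule.smul_mem _ la (Submodule.sub_mem _ h3 h4))
      (Submodule.smul_mem _ mu (Submodule.sub_mem _ h6 h7))) (Submodule.smul_mem _ nu h5))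
  rw [hq]
  convert h9 using 1
  rw [← hq]
  simp only [smul_sub, smul_add, neg_smul]
  rw [hq]
  abel

/-- Proof: from `rel_R1` and `c3 = -ε c1`, `c1 ≠ 0`: `q(be|ac) - q(bc|ae) ≡ -ε q(ab|ce)`; insert
in `rel_R3`: `(1 - la ε - c3) q(ab|ce) + nu q(ce|ab) ≡ 0`; the same with the pairs exchanged
(the letter set is the same); so `((1 - la ε - c3)^2 - nu^2) q(ab|ce) ≡ 0`, and `hdet`. -/
theorem qv_zero (H : SHyp J T) {m : ℕ} (hm : 1 ≤ m) (h : JZ J T 4 (m + 2)) {a b c e : ℕ}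
    (ha : a ≠ 0) (hb : b ≠ 0) (hc : c ≠ 0) (he : e ≠ 0)
    (hab : a ≠ b) (hac : a ≠ c) (hae : a ≠ e) (hbc : b ≠ c) (hbe : b ≠ e) (hce : c ≠ e) :
    qv (F := F) a b c e m ∈ BT T {a, b, c, e} (m + 3) := by
  obtain ⟨ε, c1, c2, c3, la, mu, nu, hC⟩ := exists_coef (F := F) m
  have key : ∀ {a b c e : ℕ}, a ≠ 0 → b ≠ 0 → c ≠ 0 → e ≠ 0 → a ≠ b → a ≠ c → a ≠ e → b ≠ c →
      b ≠ e → c ≠ e → (1 - la * ε - c3) • qv (F := F) a b c e m + nu • qv c e a b m
        ∈ BT T {a, b, c, e} (m + 3) := by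
    intro a b c e ha hb hc he hab hac hae hbc hbe hce
    have h1 := rel_R1 H hm hC ha hb hc he hab hac hae hbc hbe hce
    have h3 := rel_R3 H hm h hC ha hb hc he hab hac hae hbc hbe hce
    have h2 := Submodule.smul_mem _ (la * c1⁻¹) h1
    have h4 := Submodule.add_mem _ h3 h2
    have h5 : qv (F := F) a b c e m - (-la • (qv b e a c m - qv b c a e m) - nu • qv c e a b m
      + c3 • qv a b c e m) + (la * c1⁻¹) • (c3 • qv (F := F) a b c e m
        - c1 • (qv b e a c m - qv b c a e m)) =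
        (1 - la * ε - c3) • qv (F := F) a b c e m + nu • qv c e a b m := by
      have e1 : la * c1⁻¹ * c1 = la := by
        rw [mul_assoc, inv_mul_cancel₀ hC.hc1, mul_one]
      have e2 : la * c1⁻¹ * c3 = -(la * ε) := by
        rw [hC.c31]
        have := hC.hc1
        field_simp
      rw [smul_sub (la * c1⁻¹), smul_smul, smul_smul, e1, e2]
      module
    rwa [h5] at h4
  have k1 := key ha hb hc he hab hac hae hbc hbe hce
  have k2 := BT_congr (show ({c, e, a, b} : Finset ℕ) = {a, b, c, e} by ext x; simp; tauto) _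
    (key hc he ha hb hce hac.symm hbc.symm hae.symm hbe.symm hab)
  have k3 := Submodule.sub_mem _ (Submodule.smul_mem _ (1 - la * ε - c3) k1)
    (Submodule.smul_mem _ nu k2)
  have k4 : (1 - la * ε - c3) • ((1 - la * ε - c3) • qv (F := F) a b c e m + nu • qv c e a b m)
      - nu • ((1 - la * ε - c3) • qv (F := F) c e a b m + nu • qv a b c e m) =
      ((1 - la * ε - c3) ^ 2 - nu ^ 2) • qv (F := F) a b c e m := by
    module
  rw [k4] at k3
  have k5 := Submodule.smul_mem _ ((1 - la * ε - c3) ^ 2 - nu ^ 2)⁻¹ k3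
  rwa [smul_smul, inv_mul_cancel₀ hC.hdet, one_smul] at k5

end

end Pool.Agent.Lib.MP_b4a71d_al.SD
end
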