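import Pool.Agent.Lib.MP_b4a71d_al.SD.Rel
import Pool.Agent.Lib.MP_b4a71d_al.Eng.Glob
import Pool.Agent.Lib.MP_b4a71d_al.SD.Four
import Pool.Agent.Lib.MP_b4a71d_al.SD.Eval
import Pool.Agent.Lib.MP_b4a71d_al.K3a
import Pool.Agent.Lib.MP_b4a71d_al.Sym

section

/-!
# MP_b4a71d_al, S point, part D: the level (4, 3)
-/

set_option autoImplicit false
set_option linter.unusedSectionVars false
set_option linter.unusedVariables false
set_option linter.unusedSimpArgs false
set_option linter.unusedTactic false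

namespace Pool.Agent.Lib.MP_b4a71d_al.SD

universe u

noncomputable section

variable {F : Type u} [Field F]

/-- A vector in `KE {a, b, c} 2`, antisymmetric in `b, c`. -/
def g3 (a b c : ℕ) : FL F :=
  ⁅⁅yx (F := F) a 2, X F b⁆, X F c⁆ + ⁅⁅yx (F := F) a 1, X F b⁆, yx c 1⁆
    - ⁅⁅yx (F := F) a 2, X F c⁆, X F b⁆ - ⁅⁅yx (F := F) a 1, X F c⁆, yx b 1⁆

theorem g3_skew (a b c : ℕ) : g3 (F := F) a c b = - g3 a b c := by
  rw [g3, g3]
  abel

private theorem Seven_lie_WW {Y Z : Finset ℕ} (h : Disjoint Y Z) {d e : ℕ} {f g : FL F}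
    (hf : f ∈ WW Y d) (hg : g ∈ WW Z e) : ⁅f, g⁆ ∈ WW (F := F) (Y ∪ Z) (d + e) := by
  have h1 := lie_mem_homC hf hg
  have h2 : cont Y d + cont Z e = cont (Y ∪ Z) (d + e) := by
    rw [cont, cont, cont, ← Finset.disjUnion_eq_union Y Z h, Multiset.replicate_add]
    change _ = _ + (Y.val + Z.val)
    abel
  rw [h2] at h1
  exact h1

private theorem Seven_E_lie (j : ℕ) (f g : FL F) : E j ⁅f, g⁆ = ⁅f, E j g⁆ + ⁅E j f, g⁆ :=
  dd_lie j 0 f g

private theorem Seven_E_X_same (j : ℕ) : E j (X F j) = X F 0 := dd_X_same j 0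

private theorem Seven_E_X_ne {i j : ℕ} (h : i ≠ j) : E j (X F i) = 0 := dd_X_ne h

private theorem Seven_X_mem (j : ℕ) : X F j ∈ WW (F := F) {j} 0 := yx_mem j 0

private theorem Seven_g3_WW {a b c : ℕ} (hab : a ≠ b) (hac : a ≠ c)
    (hbc : b ≠ c) : g3 a b c ∈ WW (F := F) {a, b, c} 2 := by
  have key : ∀ (b c : ℕ), a ≠ b → a ≠ c → b ≠ c →
      ⁅⁅yx (F := F) a 2, X F b⁆, X F c⁆ ∈ WW (F := F) {a, b, c} 2 ∧
      ⁅⁅yx (F := F) a 1, X F b⁆, yx c 1⁆ ∈ WW (F := F) {a, b, c} 2 := by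
    intro b c hab hac hbc
    have hs : ({a} ∪ {b} ∪ {c} : Finset ℕ) = {a, b, c} := by
      ext x
      simp only [Finset.mem_union, Finset.mem_insert, Finset.mem_singleton]
      tauto
    have d1 : Disjoint ({a} : Finset ℕ) {b} := by
      rw [Finset.disjoint_singleton]; exact hab
    have d2 : Disjoint ({a} ∪ {b} : Finset ℕ) {c} := by
      rw [Finset.disjoint_singleton_right, Finset.mem_union, Finset.mem_singleton,
        Finset.mem_singleton, not_or]
      exact ⟨hac.symm, hbc.symm⟩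
    constructor
    · have h1 := Seven_lie_WW d2 (Seven_lie_WW d1 (yx_mem (F := F) a 2) (Seven_X_mem b))
        (Seven_X_mem (F := F) c)
      rw [hs] at h1
      exact h1
    · have h1 := Seven_lie_WW d2 (Seven_lie_WW d1 (yx_mem (F := F) a 1) (Seven_X_mem b))
        (yx_mem (F := F) c 1)
      rw [hs] at h1
      exact h1
  have k1 := key b c hab hac hbc
  have k2 := key c b hac hab hbc.symm
  have hs : ({a, c, b} : Finset ℕ) = {a, b, c} := by
    ext x
    simp only [Finset.mem_insert, Finset.mem_singleton]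
    tauto
  rw [hs] at k2
  rw [g3]
  exact Submodule.sub_mem _ (Submodule.sub_mem _ (Submodule.add_mem _ k1.1 k1.2) k2.1) k2.2

private theorem Seven_E_mid {a b c : ℕ} (hb : b ≠ 0) (hab : a ≠ b)
    (hbc : b ≠ c) : E b (g3 (F := F) a b c) = 0 := by
  rw [g3, map_sub, map_sub, map_add]
  simp only [Seven_E_lie, E_yx_ne _ hb hab, E_yx_ne _ hb hbc.symm, Seven_E_X_same,
    Seven_E_X_ne hbc.symm, E_yx_succ (F := F) 0 hb, lie_zero, zero_lie, add_zero, zero_add]
  have e1 : ⁅yx (F := F) a 1, X F 0⁆ = yx a 2 := (yx_succ a 1).symm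
  have e2 : yx (F := F) c 1 = ⁅X F c, X F 0⁆ := yx_succ c 0
  rw [e1, e2, leibniz_lie (yx (F := F) a 2) (X F c) (X F 0), ← lie_skew (X F c) ⁅yx a 2, X F 0⁆]
  abel

/-- Proof: the contents; `E b (g3 a b c) = ⁅⁅yx a 2, x⁆, y_c⁆ + ⁅⁅yx a 1, x⁆, yx c 1⁆
- ⁅⁅yx a 2, y_c⁆, x⁆`, which is zero by the Jacobi identity (`yx a 3 = ⁅yx a 2, x⁆`,
`yx a 2 = ⁅yx a 1, x⁆`), `E c` by `g3_skew`, `E a` by `E_yx_succ`. -/
theorem g3_mem {a b c : ℕ} (ha : a ≠ 0) (hb : b ≠ 0) (hc : c ≠ 0) (hab : a ≠ b) (hac : a ≠ c)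
    (hbc : b ≠ c) : g3 a b c ∈ KE (F := F) {a, b, c} 2 := by
  rw [mem_KE]
  refine ⟨Seven_g3_WW hab hac hbc, ?_⟩
  intro j hj
  rw [Finset.mem_insert, Finset.mem_insert, Finset.mem_singleton] at hj
  rcases hj with rfl | rfl | rfl
  · have e1 : E j (yx (F := F) j 2) = 0 := E_yx_succ 1 ha
    have e2 : E j (yx (F := F) j 1) = 0 := E_yx_succ 0 ha
    rw [g3, map_sub, map_sub, map_add]
    simp only [Seven_E_lie, E_yx_ne _ ha hab.symm, E_yx_ne _ ha hac.symm, e1, e2,
      Seven_E_X_ne hab.symm, Seven_E_X_ne hac.symm, lie_zero, zero_lie, add_zero, sub_zero]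
  · exact Seven_E_mid hb hab hbc
  · have := Seven_E_mid (F := F) hc hac hbc.symm
    rw [g3_skew, map_neg, neg_eq_zero] at this
    exact this

theorem ren_g3 (σ : Equiv.Perm ℕ) (h0 : σ 0 = 0) (a b c : ℕ) :
    ren σ (g3 (F := F) a b c) = g3 (σ a) (σ b) (σ c) := by
  simp only [g3, map_sub, map_add, LieHom.map_lie, ren_X, ren_yx σ h0]

/-- A vector in `KE {d, a, b, c} 3`. -/
def gq (d a b c : ℕ) : FL F := ⁅g3 (F := F) a b c, ⁅X F d, X F 0⁆⁆

theorem gq_skew (d a b c : ℕ) : gq (F := F) d a c b = - gq d a b c := by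
  rw [gq, gq, g3_skew, neg_lie]

theorem ren_gq (σ : Equiv.Perm ℕ) (h0 : σ 0 = 0) (d a b c : ℕ) :
    ren σ (gq (F := F) d a b c) = gq (σ d) (σ a) (σ b) (σ c) := by
  rw [gq, gq, LieHom.map_lie, LieHom.map_lie, ren_g3 σ h0, ren_X, ren_X, h0]

/-- Proof: `E j` of a bracket of two elements without common letters, both killed. -/
theorem gq_mem {d a b c : ℕ} (hd : d ≠ 0) (ha : a ≠ 0) (hb : b ≠ 0) (hc : c ≠ 0)
    (hda : d ≠ a) (hdb : d ≠ b) (hdc : d ≠ c) (hab : a ≠ b) (hac : a ≠ c)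
    (hbc : b ≠ c) : gq d a b c ∈ KE (F := F) {d, a, b, c} 3 := by
  have hg := mem_KE.1 (g3_mem (F := F) ha hb hc hab hac hbc)
  have e0 : ⁅X F d, X F 0⁆ = yx (F := F) d 1 := (yx_succ d 0).symm
  have hdn : d ∉ ({a, b, c} : Finset ℕ) := by
    simp only [Finset.mem_insert, Finset.mem_singleton, not_or]
    exact ⟨hda, hdb, hdc⟩
  rw [mem_KE, gq, e0]
  constructor
  · have h1 := Seven_lie_WW (F := F) (Y := {a, b, c}) (Z := {d})
      (by rw [Finset.disjoint_singleton_right]; exact hdn) hg.1 (yx_mem d 1)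
    have hs : ({a, b, c} ∪ {d} : Finset ℕ) = {d, a, b, c} := by
      ext x
      simp only [Finset.mem_union, Finset.mem_insert, Finset.mem_singleton]
      tauto
    rw [hs] at h1
    exact h1
  · intro j hj
    rw [Seven_E_lie]
    by_cases hjd : j = d
    · subst hjd
      have e1 : E j (yx (F := F) j 1) = 0 := E_yx_succ 0 hd
      have e2 : E j (g3 (F := F) a b c) = 0 := dd_eq_zero 0 hg.1 (notMem_cont hdn hd)
      rw [e1, e2, lie_zero, zero_lie, add_zero]
    · have hj' : j ∈ ({a, b, c} : Finset ℕ) := by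
        rw [Finset.mem_insert] at hj
        exact hj.resolve_left hjd
      have hj0 : j ≠ 0 := by
        rintro rfl
        simp only [Finset.mem_insert, Finset.mem_singleton] at hj'
        rcases hj' with h | h | h
        · exact ha h.symm
        · exact hb h.symm
        · exact hc h.symm
      rw [hg.2 j hj', E_yx_ne 1 hj0 (Ne.symm hjd), lie_zero, zero_lie, add_zero]

/-- The sum over the Klein group. -/
def gb (a b c : ℕ) : FL F := gq (F := F) 4 a b c + gq a 4 c b + gq b c 4 a + gq c b a 4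

/-- The two vectors of type (2, 2). -/
def xv : Fin 2 → FL F := ![gb 1 2 3 - gb 2 3 1, gb 2 3 1 - gb 3 1 2]

private theorem Seven_gq_mem (d a b c : ℕ) (h : ({d, a, b, c} : Finset ℕ) = Finset.Icc 1 4) :
    gq (F := F) d a b c ∈ KE (Finset.Icc 1 4) 3 := by
  have hcard : ({d, a, b, c} : Finset ℕ).card = 4 := by
    rw [h]; rfl
  have h0 : (0 : ℕ) ∉ ({d, a, b, c} : Finset ℕ) := by
    rw [h]; decide
  have h0' := h0
  simp only [Finset.mem_insert, Finset.mem_singleton, not_or] at h0'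
  obtain ⟨hd, ha, hb, hc⟩ := h0'
  have hn1 : d ∉ ({a, b, c} : Finset ℕ) := by
    intro hm
    rw [Finset.insert_eq_of_mem hm] at hcard
    have := Finset.card_le_three (a := a) (b := b) (c := c)
    omega
  have hn2 : a ∉ ({b, c} : Finset ℕ) := by
    intro hm
    rw [Finset.insert_eq_of_mem (s := {b, c}) hm] at hcard
    have := Finset.card_le_three (a := d) (b := b) (c := c)
    omega
  have hn3 : b ≠ c := by
    rintro rfl
    have e : ({d, a, b, b} : Finset ℕ) = {d, a, b} := by simp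
    rw [e] at hcard
    have := Finset.card_le_three (a := d) (b := a) (c := b)
    omega
  simp only [Finset.mem_insert, Finset.mem_singleton, not_or] at hn1 hn2
  have := gq_mem (F := F) (Ne.symm hd) (Ne.symm ha) (Ne.symm hb) (Ne.symm hc) hn1.1 hn1.2.1
    hn1.2.2 hn2.1 hn2.2 hn3
  rw [h] at this
  exact this

/-- Proof: `{d, a, b, c} = Icc 1 4` in all cases (`decide`). -/
theorem xv_mem (i : Fin 2) : xv (F := F) i ∈ KE (Finset.Icc 1 4) 3 := by
  have h1 : gb (F := F) 1 2 3 ∈ KE (Finset.Icc 1 4) 3 := by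
    rw [gb]
    exact Submodule.add_mem _ (Submodule.add_mem _ (Submodule.add_mem _
      (Seven_gq_mem _ _ _ _ (by decide)) (Seven_gq_mem _ _ _ _ (by decide)))
      (Seven_gq_mem _ _ _ _ (by decide))) (Seven_gq_mem _ _ _ _ (by decide))
  have h2 : gb (F := F) 2 3 1 ∈ KE (Finset.Icc 1 4) 3 := by
    rw [gb]
    exact Submodule.add_mem _ (Submodule.add_mem _ (Submodule.add_mem _
      (Seven_gq_mem _ _ _ _ (by decide)) (Seven_gq_mem _ _ _ _ (by decide)))
      (Seven_gq_mem _ _ _ _ (by decide))) (Seven_gq_mem _ _ _ _ (by decide))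
  have h3 : gb (F := F) 3 1 2 ∈ KE (Finset.Icc 1 4) 3 := by
    rw [gb]
    exact Submodule.add_mem _ (Submodule.add_mem _ (Submodule.add_mem _
      (Seven_gq_mem _ _ _ _ (by decide)) (Seven_gq_mem _ _ _ _ (by decide)))
      (Seven_gq_mem _ _ _ _ (by decide))) (Seven_gq_mem _ _ _ _ (by decide))
  fin_cases i
  · exact Submodule.sub_mem _ h1 h2
  · exact Submodule.sub_mem _ h2 h3

/-- The sum over the Klein group, four letters. -/
private def G4 (a b c d : ℕ) : FL F := gq (F := F) d a b c + gq a d c b + gq b c d a + gq c b a d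

private theorem G4_f1 (b c d : ℕ) : G4 (F := F) 4 b c d = G4 d c b 4 := by
  rw [G4, G4]; abel

private theorem G4_f2 (a c d : ℕ) : G4 (F := F) a 4 c d = G4 c d a 4 := by
  rw [G4, G4]; abel

private theorem G4_f3 (a b d : ℕ) : G4 (F := F) a b 4 d = G4 b a d 4 := by
  rw [G4, G4]; abel

private theorem G4_skew (a b c : ℕ) : G4 (F := F) a c b 4 = - G4 a b c 4 := by
  rw [G4, G4, gq_skew 4 a b c, gq_skew a 4 c b, gq_skew c b 4 a, gq_skew b c 4 a,
    gq_skew b c a 4]
  have e := gq_skew (F := F) c b a 4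
  rw [e]
  abel

private theorem G4_132 : G4 (F := F) 1 3 2 4 = - G4 1 2 3 4 := G4_skew 1 2 3

private theorem G4_213 : G4 (F := F) 2 1 3 4 = - G4 2 3 1 4 := G4_skew 2 3 1

private theorem G4_321 : G4 (F := F) 3 2 1 4 = - G4 3 1 2 4 := G4_skew 3 1 2

private theorem Seven_xv0 : xv (F := F) 0 = G4 1 2 3 4 - G4 2 3 1 4 := rfl

private theorem Seven_xv1 : xv (F := F) 1 = G4 2 3 1 4 - G4 3 1 2 4 := rfl

private theorem ren_xv (σ : Equiv.Perm ℕ) (h0 : σ 0 = 0) {a b c d : ℕ} (h1 : σ 1 = a)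
    (h2 : σ 2 = b) (h3 : σ 3 = c) (h4 : σ 4 = d) :
    ren σ (xv (F := F) 0) = G4 a b c d - G4 b c a d ∧
      ren σ (xv (F := F) 1) = G4 b c a d - G4 c a b d := by
  subst h1 h2 h3 h4
  rw [Seven_xv0, Seven_xv1]
  simp only [G4, map_sub, map_add, ren_gq σ h0, and_self]

private theorem Seven_swap (x y : ℕ) (hx : x ∈ Finset.Icc 1 4) (hy : y ∈ Finset.Icc 1 4)
    (hxy : x ≠ y) :
    (ren (Equiv.swap x y) (xv (F := F) 0) = - xv 0 - xv 1 ∧
      ren (Equiv.swap x y) (xv (F := F) 1) = xv 1) ∨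
    (ren (Equiv.swap x y) (xv (F := F) 0) = xv 1 ∧
      ren (Equiv.swap x y) (xv (F := F) 1) = xv 0) ∨
    (ren (Equiv.swap x y) (xv (F := F) 0) = xv 0 ∧
      ren (Equiv.swap x y) (xv (F := F) 1) = - xv 0 - xv 1) := by
  have main : ∀ x y : ℕ, x ∈ Finset.Icc 1 4 → y ∈ Finset.Icc 1 4 → x < y →
    (ren (Equiv.swap x y) (xv (F := F) 0) = - xv 0 - xv 1 ∧
      ren (Equiv.swap x y) (xv (F := F) 1) = xv 1) ∨
    (ren (Equiv.swap x y) (xv (F := F) 0) = xv 1 ∧
      ren (Equiv.swap x y) (xv (F := F) 1) = xv 0) ∨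
    (ren (Equiv.swap x y) (xv (F := F) 0) = xv 0 ∧
      ren (Equiv.swap x y) (xv (F := F) 1) = - xv 0 - xv 1) := by
    intro x y hx hy hxy
    rw [Finset.mem_Icc] at hx hy
    obtain ⟨hx1, hx2⟩ := hx
    obtain ⟨hy1, hy2⟩ := hy
    interval_cases x <;> interval_cases y <;> first | (exfalso; omega) | skip
    · -- (1 2)
      right; right
      rw [(ren_xv (F := F) (Equiv.swap 1 2) rfl (a := 2) (b := 1) (c := 3) (d := 4) rfl rfl rfl rfl).1,
        (ren_xv (F := F) (Equiv.swap 1 2) rfl (a := 2) (b := 1) (c := 3) (d := 4) rfl rfl rfl rfl).2,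
        Seven_xv0, Seven_xv1]
      simp only [G4_f1, G4_f2, G4_f3, G4_132, G4_213, G4_321]
      constructor <;> abel
    · -- (1 3)
      right; left
      rw [(ren_xv (F := F) (Equiv.swap 1 3) rfl (a := 3) (b := 2) (c := 1) (d := 4) rfl rfl rfl rfl).1,
        (ren_xv (F := F) (Equiv.swap 1 3) rfl (a := 3) (b := 2) (c := 1) (d := 4) rfl rfl rfl rfl).2,
        Seven_xv0, Seven_xv1]
      simp only [G4_f1, G4_f2, G4_f3, G4_132, G4_213, G4_321]
      constructor <;> abel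
    · -- (1 4)
      left
      rw [(ren_xv (F := F) (Equiv.swap 1 4) rfl (a := 4) (b := 2) (c := 3) (d := 1) rfl rfl rfl rfl).1,
        (ren_xv (F := F) (Equiv.swap 1 4) rfl (a := 4) (b := 2) (c := 3) (d := 1) rfl rfl rfl rfl).2,
        Seven_xv0, Seven_xv1]
      simp only [G4_f1, G4_f2, G4_f3, G4_132, G4_213, G4_321]
      constructor <;> abel
    · -- (2 3)
      left
      rw [(ren_xv (F := F) (Equiv.swap 2 3) rfl (a := 1) (b := 3) (c := 2) (d := 4) rfl rfl rfl rfl).1,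
        (ren_xv (F := F) (Equiv.swap 2 3) rfl (a := 1) (b := 3) (c := 2) (d := 4) rfl rfl rfl rfl).2,
        Seven_xv0, Seven_xv1]
      simp only [G4_f1, G4_f2, G4_f3, G4_132, G4_213, G4_321]
      constructor <;> abel
    · -- (2 4)
      right; left
      rw [(ren_xv (F := F) (Equiv.swap 2 4) rfl (a := 1) (b := 4) (c := 3) (d := 2) rfl rfl rfl rfl).1,
        (ren_xv (F := F) (Equiv.swap 2 4) rfl (a := 1) (b := 4) (c := 3) (d := 2) rfl rfl rfl rfl).2,
        Seven_xv0, Seven_xv1]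
      simp only [G4_f1, G4_f2, G4_f3, G4_132, G4_213, G4_321]
      constructor <;> abel
    · -- (3 4)
      right; right
      rw [(ren_xv (F := F) (Equiv.swap 3 4) rfl (a := 1) (b := 2) (c := 4) (d := 3) rfl rfl rfl rfl).1,
        (ren_xv (F := F) (Equiv.swap 3 4) rfl (a := 1) (b := 2) (c := 4) (d := 3) rfl rfl rfl rfl).2,
        Seven_xv0, Seven_xv1]
      simp only [G4_f1, G4_f2, G4_f3, G4_132, G4_213, G4_321]
      constructor <;> abel
  rcases lt_or_gt_of_ne hxy with h | h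
  · exact main x y hx hy h
  · rw [Equiv.swap_comm]
    exact main y x hy hx h

/-- The span of the two vectors is stable under the permutations of `1, 2, 3, 4`.
Proof: `gb a c b = - gb a b c` for `{a, b, c} = {1, 2, 3}` and `gb` is fixed by the swap `(1 4)`
combined with `(2 3)`: compute the images of `xv 0`, `xv 1` under the swaps `(1 2)`, `(2 3)`,
`(3 4)` with `ren_gq` and `gq_skew` (`simp`, `abel`): for example
`ren (swap 1 2) (gb 1 2 3) = - gb 2 3 1`, `ren (swap 1 2) (gb 3 1 2) = - gb 3 1 2`,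
`ren (swap 3 4) (gb 1 2 3) = ± gb ...` (the swap `(3 4)` is `(1 2)` times an element of the Klein
group, which fixes every `gb`).  The permutations fixing everything outside `Icc 1 4` are products
of these swaps (`Equiv.Perm.mclosure_swap_...` or the transfer to `Equiv.Perm (Icc 1 4)` and an
induction; any route). -/
theorem xv_stab : Stab (Finset.Icc 1 4) (Submodule.span F (Set.range (xv (F := F)))) := by
  have m0 : xv (F := F) 0 ∈ Submodule.span F (Set.range (xv (F := F))) :=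
    Submodule.subset_span ⟨0, rfl⟩
  have m1 : xv (F := F) 1 ∈ Submodule.span F (Set.range (xv (F := F))) :=
    Submodule.subset_span ⟨1, rfl⟩
  have hswap : ∀ x y : ℕ, x ∈ Finset.Icc 1 4 → y ∈ Finset.Icc 1 4 → x ≠ y →
      ∀ f ∈ Submodule.span F (Set.range (xv (F := F))),
      ren (Equiv.swap x y) f ∈ Submodule.span F (Set.range (xv (F := F))) := by
    intro x y hx hy hxy f hf
    induction hf using Submodule.span_induction with
    | mem f h =>
      obtain ⟨i, rfl⟩ := h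
      rcases Seven_swap (F := F) x y hx hy hxy with ⟨h1, h2⟩ | ⟨h1, h2⟩ | ⟨h1, h2⟩ <;> fin_cases i
      · change ren (Equiv.swap x y) (xv 0) ∈ _
        rw [h1]; exact Submodule.sub_mem _ (Submodule.neg_mem _ m0) m1
      · change ren (Equiv.swap x y) (xv 1) ∈ _
        rw [h2]; exact m1
      · change ren (Equiv.swap x y) (xv 0) ∈ _
        rw [h1]; exact m1
      · change ren (Equiv.swap x y) (xv 1) ∈ _
        rw [h2]; exact m0
      · change ren (Equiv.swap x y) (xv 0) ∈ _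
        rw [h1]; exact m0
      · change ren (Equiv.swap x y) (xv 1) ∈ _
        rw [h2]; exact Submodule.sub_mem _ (Submodule.neg_mem _ m0) m1
    | zero => rw [map_zero]; exact Submodule.zero_mem _
    | add a b _ _ h1 h2 => rw [map_add]; exact Submodule.add_mem _ h1 h2
    | smul c a _ h1 => rw [map_smul]; exact Submodule.smul_mem _ c h1
  rw [stab_iff]
  intro g
  induction g using Equiv.Perm.swap_induction_on with
  | one =>
    intro x hx
    rw [map_one]
    exact hx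
  | swap_mul f x y hxy ih =>
    intro v hv
    rw [map_mul]
    change rho _ _ (rho _ f v) ∈ _
    have h1 := ih v hv
    have h2 := hswap x y x.2 y.2 (fun h => hxy (Subtype.ext h)) _ h1
    have h3 : rho (Finset.Icc 1 4) (Equiv.swap x y) (rho (F := F) (Finset.Icc 1 4) f v) =
        ren (Equiv.swap (x : ℕ) (y : ℕ)) (rho (F := F) (Finset.Icc 1 4) f v) := by
      change ren _ _ = _
      congr 1
      rw [← Equiv.Perm.ofSubtype_swap_eq]
    rw [h3]
    exact h2

private theorem Seven_mh_me : ⁅(mh : M2 F), (me : M2 F)⁆ = (2 : F) • (me : M2 F) := by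
  rw [← lie_skew, me_mh, ← neg_smul, neg_neg]

private theorem Seven_mh_mf : ⁅(mh : M2 F), (mf : M2 F)⁆ = (-2 : F) • (mf : M2 F) := by
  rw [← lie_skew, mf_mh, ← neg_smul]

private theorem Seven_mf_me : ⁅(mf : M2 F), (me : M2 F)⁆ = (-1 : F) • (mh : M2 F) := by
  rw [← lie_skew, me_mf, neg_smul, one_smul]

private theorem Seven_yx1 (j : ℕ) : yx (F := F) j 1 = ⁅X F j, X F 0⁆ := yx_succ j 0

private theorem Seven_yx2 (j : ℕ) : yx (F := F) j 2 = ⁅⁅X F j, X F 0⁆, X F 0⁆ := by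
  rw [← Seven_yx1]
  exact yx_succ j 1

/-- The three values: for `y_1, y_2 ↦ f`, `y_3, y_4 ↦ e` (and `x ↦ h`) the vectors `xv 0`, `xv 1`
have the values `-256 h`, `128 h`; for `y_1, y_4 ↦ f`, `y_2, y_3 ↦ e` the values `128 h`,
`-256 h`.  Proof: `evh`, `me_mh`, `mf_mh`, `me_mf`; or entries. -/
theorem xv_val1 : evh (fun i => if i = 1 ∨ i = 2 then mf else me) (xv (F := F) 0)
      = (-256 : F) • mh ∧
    evh (fun i => if i = 1 ∨ i = 2 then mf else me) (xv (F := F) 1) = (128 : F) • mh := by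
  set w : ℕ → M2 F := fun i => if i = 1 ∨ i = 2 then mf else me with hw
  have e0 : evh w (X F 0) = mh := evh_zero w
  have e1 : evh w (X F 1) = mf := by rw [evh_ne w (by norm_num), hw]; simp
  have e2 : evh w (X F 2) = mf := by rw [evh_ne w (by norm_num), hw]; simp
  have e3 : evh w (X F 3) = me := by rw [evh_ne w (by norm_num), hw]; simp
  have e4 : evh w (X F 4) = me := by rw [evh_ne w (by norm_num), hw]; simp
  rw [Seven_xv0, Seven_xv1]
  simp only [G4, gq, g3, Seven_yx1, Seven_yx2, map_sub, map_add, LieHom.map_lie, e0, e1, e2, e3,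
    e4, me_mh, mf_mh, me_mf, Seven_mh_me, Seven_mh_mf, Seven_mf_me, lie_self, lie_smul, smul_lie,
    smul_zero, lie_zero, zero_lie, sub_zero, zero_sub, add_zero, zero_add, lie_neg, neg_lie,
    add_lie, sub_lie, smul_smul]
  constructor
  · module
  · module

theorem xv_val2 : evh (fun i => if i = 1 ∨ i = 4 then mf else me) (xv (F := F) 0)
      = (128 : F) • mh ∧
    evh (fun i => if i = 1 ∨ i = 4 then mf else me) (xv (F := F) 1) = (-256 : F) • mh := by
  set w : ℕ → M2 F := fun i => if i = 1 ∨ i = 4 then mf else me with hw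
  have e0 : evh w (X F 0) = mh := evh_zero w
  have e1 : evh w (X F 1) = mf := by rw [evh_ne w (by norm_num), hw]; simp
  have e2 : evh w (X F 2) = me := by rw [evh_ne w (by norm_num), hw]; simp
  have e3 : evh w (X F 3) = me := by rw [evh_ne w (by norm_num), hw]; simp
  have e4 : evh w (X F 4) = mf := by rw [evh_ne w (by norm_num), hw]; simp
  rw [Seven_xv0, Seven_xv1]
  simp only [G4, gq, g3, Seven_yx1, Seven_yx2, map_sub, map_add, LieHom.map_lie, e0, e1, e2, e3,
    e4, me_mh, mf_mh, me_mf, Seven_mh_me, Seven_mh_mf, Seven_mf_me, lie_self, lie_smul, smul_lie,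
    smul_zero, lie_zero, zero_lie, sub_zero, zero_sub, add_zero, zero_add, lie_neg, neg_lie,
    add_lie, sub_lie, smul_smul]
  constructor
  · module
  · module

/-- `a • xv 0 + b • xv 1 ∈ Isl` only for `a = b = 0`. -/
theorem xv_indep [CharZero F] {a b : F} (h : a • xv (F := F) 0 + b • xv 1 ∈ Isl F) :
    a = 0 ∧ b = 0 := by
  have key : ∀ (w : ℕ → M2 F) (p q : F), evh w (xv (F := F) 0) = p • mh →
      evh w (xv (F := F) 1) = q • mh → a * p + b * q = 0 := by
    intro w p q hp hq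
    have h1 := h (evh w)
    rw [map_add, map_smul, map_smul, hp, hq] at h1
    have h2 := congrFun (congrFun h1 0) 0
    simpa [mh] using h2
  have k1 := key _ _ _ (xv_val1 (F := F)).1 xv_val1.2
  have k2 := key _ _ _ (xv_val2 (F := F)).1 xv_val2.2
  have h128 : (128 : F) ≠ 0 := by norm_num
  have h384 : (384 : F) ≠ 0 := by norm_num
  constructor
  · have : (384 : F) * a = 0 := by linear_combination (-2) * k1 - k2
    exact (mul_eq_zero.1 this).resolve_left h384
  · have : (384 : F) * b = 0 := by linear_combination (-1) * k1 + (-2) * k2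
    exact (mul_eq_zero.1 this).resolve_left h384

/-- The level (4, 3) from the engine.
Proof: let `N = Lam ⊔ (T ⊓ W 4 3) ⊔ span (range xv)`.  A functional on `FL F` which vanishes on
`N` is zero on `W 4 3` by `hE`; so `W 4 3 ≤ N` (separate `f` from `N`, for example
`Submodule.exists_le_ker_of_notMem` or `Submodule.exists_dual_map_eq_bot`...).  For
`f ∈ Isl ⊓ KE (Icc 1 4) 3` write `f = l + t + a xv 0 + b xv 1`; then
`f - a xv 0 - b xv 1 ∈ KE ⊓ (Lam ⊔ T)` is in `T` (`mem_T_of_KE'`), `T ≤ Isl`, so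
`a xv 0 + b xv 1 ∈ Isl` and `a = b = 0` by `xv_indep`. -/
theorem JZ43 [CharZero F] {T : Submodule F (FL F)} (hT : IsTIdeal F T) (hTs : T ≤ Isl F)
    (hE : ∀ φ : FL F →ₗ[F] F, Eng.LF T 4 3 φ → φ (xv 0) = 0 → φ (xv 1) = 0 →
      ∀ f ∈ W (F := F) 4 3, φ f = 0) : JZ (Isl F) T 4 3 := by
  have h0 : (0 : ℕ) ∉ Finset.Icc 1 4 := by simp
  set N : Submodule F (FL F) := Lam (Finset.Icc 1 4) 3 ⊔ (T ⊓ W 4 3) ⊔
    Submodule.span F (Set.range (xv (F := F))) with hN
  have hWN : W (F := F) 4 3 ≤ N := by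
    intro f hf
    by_contra hcon
    obtain ⟨φ, hφ1, hφ2⟩ := Submodule.exists_le_ker_of_notMem hcon
    have h1 : ∀ w ∈ N, φ w = 0 := fun w hw => hφ2 hw
    refine hφ1 (hE φ ⟨?_, ?_⟩ ?_ ?_ f hf)
    · intro w hw
      exact h1 w (Submodule.mem_sup_left (Submodule.mem_sup_left hw))
    · intro w hw hw2
      exact h1 w (Submodule.mem_sup_left (Submodule.mem_sup_right ⟨hw, hw2⟩))
    · exact h1 _ (Submodule.mem_sup_right (Submodule.subset_span ⟨0, rfl⟩))
    · exact h1 _ (Submodule.mem_sup_right (Submodule.subset_span ⟨1, rfl⟩))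
  rintro f ⟨hfI, hfK⟩
  have h2 : f ∈ N := hWN (KE_le _ _ hfK)
  rw [hN] at h2
  obtain ⟨u, hu, s, hs, rfl⟩ := Submodule.mem_sup.1 h2
  obtain ⟨c, hc⟩ := (Submodule.mem_span_range_iff_exists_fun F).1 hs
  rw [Fin.sum_univ_two] at hc
  have hsK : s ∈ KE (F := F) (Finset.Icc 1 4) 3 := by
    rw [← hc]
    exact Submodule.add_mem _ (Submodule.smul_mem _ _ (xv_mem 0)) (Submodule.smul_mem _ _ (xv_mem 1))
  have huK : u ∈ KE (F := F) (Finset.Icc 1 4) 3 := by
    have := Submodule.sub_mem _ hfK hsK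
    rwa [add_sub_cancel_right] at this
  have hu2 : u ∈ Lam (F := F) (Finset.Icc 1 4) 3 ⊔ T :=
    (sup_le_sup_left inf_le_left _ : _ ≤ Lam (F := F) (Finset.Icc 1 4) 3 ⊔ T) hu
  have huT : u ∈ T := mem_T_of_KE' hT h0 huK hu2
  have hsI : s ∈ Isl F := by
    have := Submodule.sub_mem _ hfI (hTs huT)
    rwa [add_sub_cancel_left] at this
  rw [← hc] at hsI
  obtain ⟨hc0, hc1⟩ := xv_indep hsI
  rw [← hc, hc0, hc1, zero_smul, zero_smul, add_zero, add_zero]
  exact huT

end

end Pool.Agent.Lib.MP_b4a71d_al.SD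
end

section

section

/-!
# MP_b4a71d_al, S point, part D: `w3` is a consequence of the law
-/

set_option autoImplicit false

namespace Pool.Agent.Lib.MP_b4a71d_al.SD

universe u

noncomputable section

open S.Tr in
theorem law_w3 {L : Type u} [LieRing L] (h : S.Law L) (x y z : L) :
    (2 : ℤ) • ⁅⁅⁅y, x⁆, ⁅z, x⁆⁆, x⁆ = 0 := by
  have h1 := check_spec (S.val5 x y z 0 0) 1
    ((2, S.Tr.b (S.Tr.b (S.Tr.b (S.Tr.v 1) (S.Tr.v 0)) (S.Tr.b (S.Tr.v 2) (S.Tr.v 0))) (S.Tr.v 0)) ::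
      thT (S.Tr.v 0) (S.Tr.v 0) (S.Tr.v 0) (S.Tr.v 1) (S.Tr.v 2)) (by decide +kernel)
  rw [← List.singleton_append, cev_append, cev_thT_zero h, add_zero] at h1
  simp only [cev, List.map_cons, List.map_nil, List.sum_cons, List.sum_nil, ev, S.val5,
    add_zero] at h1
  exact h1

variable {F : Type u} [Field F]

theorem w3_mem_J [CharZero F] {J : Submodule F (FL F)} (hJ : IsTIdeal F J)
    (h : S.lawFL F ∈ J) : w3 F ∈ J := by
  have hl := S.law_relFree hJ h
  rw [← hJ.proj_eq_zero, w3]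
  simp only [LieHom.map_lie]
  have h1 := law_w3 hl (hJ.proj (X F 0)) (hJ.proj (X F 1)) (hJ.proj (X F 2))
  have h2 : ((2 : ℤ) : F) • ⁅⁅⁅hJ.proj (X F 1), hJ.proj (X F 0)⁆, ⁅hJ.proj (X F 2),
      hJ.proj (X F 0)⁆⁆, hJ.proj (X F 0)⁆ = 0 := by
    rw [Int.cast_smul_eq_zsmul]
    exact h1
  rcases smul_eq_zero.1 h2 with h3 | h3
  · exact absurd h3 (by norm_num)
  · exact h3

end

end Pool.Agent.Lib.MP_b4a71d_al.SD
end

section

/-!
# MP_b4a71d_al, S point, part D: the recursion in level four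
-/

set_option autoImplicit false
set_option linter.unusedSectionVars false
set_option linter.unusedVariables false

namespace Pool.Agent.Lib.MP_b4a71d_al.SD

universe u

noncomputable section

variable {F : Type u} [Field F] [CharZero F] {J T : Submodule F (FL F)}

/-- Low elements of three letters: `J ⊓ WW Y (m + 3) ≤ T ⊔ span {D c (wv a b (m + 1))}`.
Proof: `le_low` with `n = m + 6` and `JZ J T 3 (m + 3)`; an `IsLow` element has one operator,
and `w ∈ J ⊓ WW {a, b} (m + 4)` is in `KE` (`two_KE`) and so a multiple of `wv a b (m + 1)`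
modulo `T` (`two`). -/
theorem low_three (H : SHyp J T) {m : ℕ} (hm : 1 ≤ m) {Y : Finset ℕ} (h0 : 0 ∉ Y)
    (hY : Y.card = 3) : J ⊓ WW Y (m + 3) ≤ T ⊔ Submodule.span F
      {f | ∃ a b c, a ≠ 0 ∧ b ≠ 0 ∧ c ≠ 0 ∧ a ≠ b ∧ a ≠ c ∧ b ≠ c ∧ Y = {a, b, c} ∧
        f = D c (wv a b (m + 1))} := by
  refine le_trans (le_low H.hJ H.hT (n := m + 6) Y h0 (by omega) (by omega) ?_) ?_
  · intro k h3 hk
    obtain rfl : k = 3 := by omega
    obtain ⟨m', rfl⟩ : ∃ m', m = m' + 1 := ⟨m - 1, by omega⟩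
    exact H.three m'
  · refine sup_le le_sup_left ?_
    rw [Low, Submodule.span_le]
    rintro f ⟨l, Z, w, hnd, hZ, hlZ, hYl, hw, hwW, rfl⟩
    have hc := IsLow.card (J := J) hnd hZ hlZ hYl
    obtain ⟨c, rfl⟩ : ∃ c, l = [c] := List.length_eq_one_iff.1 (by omega)
    obtain ⟨a, b, hab, rfl⟩ := Finset.card_eq_two.1 hZ
    have hcZ := hlZ c (by simp)
    rw [Finset.mem_insert, Finset.mem_singleton, not_or] at hcZ
    have hY' : Y = {a, b, c} := by
      rw [hYl]
      ext i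
      simp only [Finset.mem_union, Finset.mem_insert, Finset.mem_singleton, List.mem_toFinset,
        List.mem_cons, List.not_mem_nil, or_false]
      tauto
    have ha0 : a ≠ 0 := by
      rintro rfl
      exact h0 (by rw [hY']; simp)
    have hb0 : b ≠ 0 := by
      rintro rfl
      exact h0 (by rw [hY']; simp)
    have hc0 : c ≠ 0 := by
      rintro rfl
      exact h0 (by rw [hY']; simp)
    have hK := two_KE ha0 hb0 hab (H.sl hw) hwW
    obtain ⟨z, hz⟩ := two H.hT H.relA ha0 hb0 hab (m + 1) (H.sl hw) hK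
    have h1 : D c w = D c (w - z • wv a b (m + 1)) + z • D c (wv a b (m + 1)) := by
      rw [map_sub, map_smul, sub_add_cancel]
    rw [DL_cons, DL_nil, SetLike.mem_coe, h1]
    refine Submodule.add_mem _ (Submodule.mem_sup_left (H.hT.dd_mem 0 c hz))
      (Submodule.mem_sup_right (Submodule.smul_mem _ _ (Submodule.subset_span ?_)))
    exact ⟨a, b, c, ha0, hb0, hc0, hab, fun h => hcZ.1 h.symm, fun h => hcZ.2 h.symm, hY', rfl⟩

/-- Low elements of four letters, in the same degree `m + 6`. -/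
theorem low_four (H : SHyp J T) {m : ℕ} (hm : 1 ≤ m) (h : JZ J T 4 (m + 2)) {Y : Finset ℕ}
    (h0 : 0 ∉ Y) (hY : Y.card = 4) : J ⊓ WW Y (m + 2) ≤ T ⊔ Submodule.span F
      {f | ∃ a b c e, a ≠ 0 ∧ b ≠ 0 ∧ c ≠ 0 ∧ e ≠ 0 ∧ a ≠ b ∧ a ≠ c ∧ a ≠ e ∧ b ≠ c ∧ b ≠ e ∧
        c ≠ e ∧ Y = {a, b, c, e} ∧ f = D c (D e (wv a b (m + 1)))} := by
  refine le_trans (le_low H.hJ H.hT (n := m + 6) Y h0 (by omega) (by omega) ?_) ?_
  · intro k h3 hk
    rcases Nat.lt_or_ge k 4 with h4 | h4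
    · obtain rfl : k = 3 := by omega
      obtain ⟨m', rfl⟩ : ∃ m', m = m' + 1 := ⟨m - 1, by omega⟩
      exact H.three m'
    · obtain rfl : k = 4 := by omega
      exact h
  · refine sup_le le_sup_left ?_
    rw [Low, Submodule.span_le]
    rintro f ⟨l, Z, w, hnd, hZ, hlZ, hYl, hw, hwW, rfl⟩
    have hc := IsLow.card (J := J) hnd hZ hlZ hYl
    obtain ⟨c, e, rfl⟩ : ∃ c e, l = [c, e] := List.length_eq_two.1 (by omega)
    obtain ⟨a, b, hab, rfl⟩ := Finset.card_eq_two.1 hZ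
    have hcZ := hlZ c (by simp)
    have heZ := hlZ e (by simp)
    rw [Finset.mem_insert, Finset.mem_singleton, not_or] at hcZ heZ
    have hce : c ≠ e := by
      simpa using hnd
    have hY' : Y = {a, b, c, e} := by
      rw [hYl]
      ext i
      simp only [Finset.mem_union, Finset.mem_insert, Finset.mem_singleton, List.mem_toFinset,
        List.mem_cons, List.not_mem_nil, or_false]
      tauto
    have ha0 : a ≠ 0 := by
      rintro rfl
      exact h0 (by rw [hY']; simp)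
    have hb0 : b ≠ 0 := by
      rintro rfl
      exact h0 (by rw [hY']; simp)
    have hc0 : c ≠ 0 := by
      rintro rfl
      exact h0 (by rw [hY']; simp)
    have he0 : e ≠ 0 := by
      rintro rfl
      exact h0 (by rw [hY']; simp)
    have hK := two_KE ha0 hb0 hab (H.sl hw) hwW
    obtain ⟨z, hz⟩ := two H.hT H.relA ha0 hb0 hab (m + 1) (H.sl hw) hK
    have h1 : D c (D e w) = D c (D e (w - z • wv a b (m + 1))) +
        z • D c (D e (wv a b (m + 1))) := by
      rw [map_sub, map_sub, map_smul, map_smul, sub_add_cancel]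
    rw [DL_cons, DL_cons, DL_nil, SetLike.mem_coe, h1]
    refine Submodule.add_mem _ (Submodule.mem_sup_left (H.hT.dd_mem 0 c (H.hT.dd_mem 0 e hz)))
      (Submodule.mem_sup_right (Submodule.smul_mem _ _ (Submodule.subset_span ?_)))
    exact ⟨a, b, c, e, ha0, hb0, hc0, he0, hab, fun h => hcZ.1 h.symm, fun h => heZ.1 h.symm,
      fun h => hcZ.2 h.symm, fun h => heZ.2 h.symm, hce, hY', rfl⟩

private theorem sup_span_map {L T : Submodule F (FL F)} {S : Set (FL F)} (φ : FL F →ₗ[F] FL F)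
    (hT : ∀ f ∈ T, φ f ∈ L) (hS : ∀ f ∈ S, φ f ∈ L) {g : FL F} (hg : g ∈ T ⊔ Submodule.span F S) :
    φ g ∈ L := by
  have h1 : T ⊔ Submodule.span F S ≤ L.comap φ :=
    sup_le (fun f hf => hT f hf) (Submodule.span_le.2 fun f hf => hS f hf)
  exact h1 hg

/-- The recursion in level four.
Proof: `Y = Icc 1 4`; by `mem_T_of_KE'` it is enough that `J ⊓ WW Y (m + 3) ≤ BT T Y (m + 3)`;
`H.gen` (`5 < 4 + (m + 3)`), then for the three kinds of generators: `tt i g` with `g` from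
`low_four`: `tt i` of `D c (D e w_{ab})` is `≡ 0` for `i = a, b` (`tt_DD_zero`, `wv_swap`), and
`≡ - q` for `i = c, e` (`tt_DD`, `D_comm`), which is `≡ 0` by `qv_zero`;
`⁅g, y_j⁆` with `g = D c w_{ab}` from `low_three`: `D c ⁅w, y_j⁆ ∈ T`;
`ss i j g`, `g = D c w_{ab}`: for `i = a, b` it is `D c (ss i j w) ∈ Lam` (`D_ss`), for `i = c` it
is `qv a b c j m ≡ 0`. -/
theorem JZ_four (H : SHyp J T) {m : ℕ} (hm : 1 ≤ m) (h : JZ J T 4 (m + 2)) :
    JZ J T 4 (m + 3) := by
  rintro f ⟨hfJ, hf⟩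
  have h0 := zero_notMem_Icc 4
  have hc : (Finset.Icc 1 4).card = 4 := by rw [Nat.card_Icc]
  apply mem_T_of_KE' H.hT h0 hf
  have hT := H.hT
  have hTL : ∀ {g : FL F}, g ∈ T → g ∈ Lam (F := F) (Finset.Icc 1 4) (m + 3) ⊔ T :=
    fun hg => Submodule.mem_sup_right hg
  refine (?_ : Gn J (Finset.Icc 1 4) (m + 2) ≤ _)
    (H.gen (Finset.Icc 1 4) (m + 2) h0 (by omega) ⟨hfJ, KE_le _ _ hf⟩)
  refine sup_le (sup_le ?_ ?_) ?_
  · -- `tt i g`
    refine iSup₂_le fun i hi => ?_
    rintro _ ⟨g, ⟨hgJ, hgW⟩, rfl⟩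
    have hg := low_four H hm h h0 hc ⟨hgJ, hgW⟩
    refine sup_span_map ((tt (F := F) i : FL F →ₗ⁅F⁆ FL F) : FL F →ₗ[F] FL F)
      (fun f hf => hTL (hT.tt_mem i hf)) ?_ hg
    rintro _ ⟨a, b, c, e, ha, hb, hc', he, hab, hac, hae, hbc, hbe, hce, hY, rfl⟩
    change tt i (D c (D e (wv a b (m + 1)))) ∈ Lam (Finset.Icc 1 4) (m + 3) ⊔ T
    have hi' := hi
    rw [hY, Finset.mem_insert, Finset.mem_insert, Finset.mem_insert, Finset.mem_singleton] at hi'
    rcases hi' with rfl | rfl | rfl | rfl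
    · have h1 := tt_DD_zero H (m := m) ha hb hc' he hab hac hae hbc hbe hce
      rw [← hY] at h1
      exact h1
    · have h1 := tt_DD_zero H (m := m) hb ha hc' he hab.symm hbc hbe hac hae hce
      have h2 : ({i, a, c, e} : Finset ℕ) = Finset.Icc 1 4 := by
        rw [hY]
        ext j
        simp only [Finset.mem_insert, Finset.mem_singleton]
        tauto
      rw [h2] at h1
      have h3 := wv_swap hT H.relA hb ha hab.symm (m + 1)
      have h4 := hT.tt_mem i (hT.dd_mem 0 c (hT.dd_mem 0 e h3))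
      have h5 : tt i (D c (D e (wv (F := F) a i (m + 1)))) =
          tt i (dd 0 c (dd 0 e (wv a i (m + 1) - (-1 : F) ^ (m + 1 + 1) • wv i a (m + 1)))) +
          (-1 : F) ^ (m + 1 + 1) • tt i (D c (D e (wv i a (m + 1)))) := by
        rw [map_sub, map_sub, map_sub, map_smul, map_smul, map_smul]
        exact (sub_add_cancel _ _).symm
      rw [h5]
      exact Submodule.add_mem _ (hTL h4) (Submodule.smul_mem _ _ h1)
    · have h1 := tt_DD H (m := m) hc' ha hb he hac.symm hbc.symm hce hab hae hbe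
      have h2 : ({i, a, b, e} : Finset ℕ) = Finset.Icc 1 4 := by
        rw [hY]
        ext j
        simp only [Finset.mem_insert, Finset.mem_singleton]
        tauto
      rw [h2] at h1
      have h3 := qv_zero H hm h ha hb hc' he hab hac hae hbc hbe hce
      rw [← hY] at h3
      have h4 := Submodule.sub_mem _ h1 h3
      rwa [add_sub_cancel_right] at h4
    · have h1 := tt_DD H (m := m) he ha hb hc' hae.symm hbe.symm hce.symm hab hac hbc
      have h2 : ({i, a, b, c} : Finset ℕ) = Finset.Icc 1 4 := by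
        rw [hY]
        ext j
        simp only [Finset.mem_insert, Finset.mem_singleton]
        tauto
      rw [h2] at h1
      have h3 := qv_zero H hm h ha hb he hc' hab hae hac hbe hbc hce.symm
      have h2' : ({a, b, i, c} : Finset ℕ) = Finset.Icc 1 4 := by
        rw [hY]
        ext j
        simp only [Finset.mem_insert, Finset.mem_singleton]
        tauto
      rw [h2'] at h3
      have h4 := Submodule.sub_mem _ h1 h3
      rw [add_sub_cancel_right] at h4
      rw [D_comm hc' he]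
      exact h4
  · -- `⁅g, y_j⁆`
    refine iSup₂_le fun j hj => ?_
    rintro _ ⟨g, ⟨hgJ, hgW⟩, rfl⟩
    have hj0 : j ≠ 0 := fun h' => h0 (h' ▸ hj)
    have hg := low_three H hm (Y := (Finset.Icc 1 4).erase j)
      (fun h' => h0 (Finset.mem_of_mem_erase h')) (by rw [Finset.card_erase_of_mem hj, hc])
      ⟨hgJ, hgW⟩
    refine sup_span_map (lieBy (X F j)) (fun f hf => hTL (hT.lie_mem f hf _)) ?_ hg
    rintro _ ⟨a, b, c, ha, hb, hc', hab, hac, hbc, hY, rfl⟩
    rw [lieBy_apply]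
    have hne : ∀ {i : ℕ}, i ∈ ({a, b, c} : Finset ℕ) → i ≠ j := by
      intro i hi
      rw [← hY] at hi
      exact Finset.ne_of_mem_erase hi
    have haj : a ≠ j := hne (by simp)
    have hbj : b ≠ j := hne (by simp)
    rw [← D_lie_y c hj0]
    exact hTL (hT.dd_mem 0 c (lie_wv_y H ha hb hj0 hab haj hbj (by omega)))
  · -- `ss i j g`
    refine iSup₂_le fun j hj => iSup₂_le fun i hi => ?_
    rintro _ ⟨g, ⟨hgJ, hgW⟩, rfl⟩
    have hj0 : j ≠ 0 := fun h' => h0 (h' ▸ hj)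
    have hg := low_three H hm (Y := (Finset.Icc 1 4).erase j)
      (fun h' => h0 (Finset.mem_of_mem_erase h')) (by rw [Finset.card_erase_of_mem hj, hc])
      ⟨hgJ, hgW⟩
    refine sup_span_map ((ss (F := F) i j : FL F →ₗ⁅F⁆ FL F) : FL F →ₗ[F] FL F)
      (fun f hf => hTL (hT.ss_mem i j hf)) ?_ hg
    rintro _ ⟨a, b, c, ha, hb, hc', hab, hac, hbc, hY, rfl⟩
    change ss i j (D c (wv a b (m + 1))) ∈ Lam (Finset.Icc 1 4) (m + 3) ⊔ T
    have hne : ∀ {i : ℕ}, i ∈ ({a, b, c} : Finset ℕ) → i ≠ j := by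
      intro i hi
      rw [← hY] at hi
      exact Finset.ne_of_mem_erase hi
    have haj : a ≠ j := hne (by simp)
    have hbj : b ≠ j := hne (by simp)
    have hcj : c ≠ j := hne (by simp)
    have hYj : Finset.Icc 1 4 = {a, b, c, j} := by
      rw [← Finset.insert_erase hj, hY]
      ext k
      simp only [Finset.mem_insert, Finset.mem_singleton]
      tauto
    have hcY : c ∈ Finset.Icc 1 4 := by
      rw [hYj]
      simp
    have hi' := hi
    rw [hY, Finset.mem_insert, Finset.mem_insert, Finset.mem_singleton] at hi'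
    have hw := wv_mem_WW (F := F) ha hb hab (m + 1)
    have h0' : (0 : ℕ) ∉ ({a, b} : Finset ℕ) := by
      rw [Finset.mem_insert, Finset.mem_singleton, not_or]
      exact ⟨ha.symm, hb.symm⟩
    have hj' : j ∉ ({a, b} : Finset ℕ) := by
      rw [Finset.mem_insert, Finset.mem_singleton, not_or]
      exact ⟨haj.symm, hbj.symm⟩
    have hYc : insert j ({a, b} : Finset ℕ) = (Finset.Icc 1 4).erase c := by
      rw [hYj]
      ext k
      simp only [Finset.mem_insert, Finset.mem_singleton, Finset.mem_erase]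
      constructor
      · rintro (h1 | h1 | h1)
        · rw [h1]
          exact ⟨hcj.symm, by simp⟩
        · rw [h1]
          exact ⟨hac, by simp⟩
        · rw [h1]
          exact ⟨hbc, by simp⟩
      · rintro ⟨h1, h2 | h2 | h2 | h2⟩
        · exact Or.inr (Or.inl h2)
        · exact Or.inr (Or.inr h2)
        · exact absurd h2 h1
        · exact Or.inl h2
    rcases hi' with rfl | rfl | rfl
    · rw [← D_ss hc' hac.symm ha hj0]
      refine Submodule.mem_sup_left (D_mem_Lam hcY ?_)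
      have h1 := ss_mem (F := F) (l := i) (by simp) h0' hj' hj0 hw
      rw [hYc] at h1
      exact h1
    · rw [← D_ss hc' hbc.symm hb hj0]
      refine Submodule.mem_sup_left (D_mem_Lam hcY ?_)
      have h1 := ss_mem (F := F) (l := i) (by simp) h0' hj' hj0 hw
      rw [hYc] at h1
      exact h1
    · have h1 := qv_zero H hm h ha hb hc' hj0 hab hac haj hbc hbj hcj
      rw [← hYj] at h1
      exact h1

end

end Pool.Agent.Lib.MP_b4a71d_al.SD
end

section

/-!
# MP_b4a71d_al, S point, part D: the relations at S hold in `gl₂`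
-/

set_option autoImplicit false
set_option linter.unusedSectionVars false
set_option linter.unusedVariables false

namespace Pool.Agent.Lib.MP_b4a71d_al.SD

universe u

noncomputable section

variable {F : Type u} [Field F]

/-- Traceless matrices. -/
def tm (a : Fin 3 → F) : M2 F := !![a 0, a 1; a 2, - a 0]

/-- Proof: entries. -/
theorem lie_tm (a b : Fin 3 → F) : ⁅tm a, tm b⁆ =
    tm ![a 1 * b 2 - a 2 * b 1, 2 * (a 0 * b 1 - a 1 * b 0), 2 * (a 2 * b 0 - a 0 * b 2)] := by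
  ext i j
  fin_cases i <;> fin_cases j <;>
  · simp [tm, lie_M2]
    ring

/-- Every matrix is a traceless one plus a scalar one (char `≠ 2`). -/
theorem exists_tm [CharZero F] (A : M2 F) : ∃ (a : Fin 3 → F) (c : F), A = tm a + c • 1 := by
  refine ⟨![(A 0 0 - A 1 1) / 2, A 0 1, A 1 0], (A 0 0 + A 1 1) / 2, ?_⟩
  ext i j
  fin_cases i <;> fin_cases j <;>
  · simp [tm]
    try ring

/-- It is enough to test multilinear brackets on traceless matrices.
Proof: for `φ` choose `a i`, `c i` with `φ (X i) = tm (a i) + c i • 1`; the homomorphism `ψ` with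
`ψ (X i) = tm (a i)` agrees with `φ` on all elements of `HomC s`, `2 ≤ card s`, because
`⁅A + c, B + d⁆ = ⁅A, B⁆` (prove: for every `f`, `φ f - ψ f` is a scalar matrix, by
`fl_induction`/`homC_induction`, and it is zero on brackets). -/
theorem mem_Isl_of_tm [CharZero F] {s : Multiset ℕ} (hs : 2 ≤ Multiset.card s) {f : FL F}
    (hf : f ∈ HomC s) (h : ∀ a : ℕ → Fin 3 → F, sb (fun i => tm (a i)) f = 0) : f ∈ Isl F := by
  intro φ
  choose a c hac using fun i => exists_tm (φ (X F i))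
  rw [← h a]
  have key : (∃ c : F, φ f = sb (fun i => tm (a i)) f + c • (1 : M2 F)) ∧
      (2 ≤ Multiset.card s → φ f = sb (fun i => tm (a i)) f) := by
    refine homC_induction (p := fun s f => (∃ c : F, φ f = sb (fun i => tm (a i)) f + c • (1 : M2 F)) ∧
      (2 ≤ Multiset.card s → φ f = sb (fun i => tm (a i)) f)) ?_ ?_ ?_ ?_ ?_ hf
    · intro i
      refine ⟨⟨c i, by rw [sb_X]; exact hac i⟩, ?_⟩
      intro h
      rw [Multiset.card_singleton] at h
      omega
    · intro s t x y _ _ hx hy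
      have e : φ ⁅x, y⁆ = sb (fun i => tm (a i)) ⁅x, y⁆ := by
        obtain ⟨⟨c, hc⟩, -⟩ := hx
        obtain ⟨⟨d, hd⟩, -⟩ := hy
        rw [LieHom.map_lie, LieHom.map_lie, hc, hd, lie_M2, lie_M2]
        simp only [add_mul, mul_add, smul_mul_assoc, mul_smul_comm, one_mul, mul_one]
        module
      exact ⟨⟨0, by rw [e, zero_smul, add_zero]⟩, fun _ => e⟩
    · intro s
      exact ⟨⟨0, by rw [map_zero, map_zero, zero_smul, add_zero]⟩,
        fun _ => by rw [map_zero, map_zero]⟩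
    · intro s x y _ _ hx hy
      obtain ⟨⟨c, hc⟩, h1⟩ := hx
      obtain ⟨⟨d, hd⟩, h2⟩ := hy
      refine ⟨⟨c + d, ?_⟩, fun hs => by rw [map_add, map_add, h1 hs, h2 hs]⟩
      rw [map_add, map_add, hc, hd, add_smul]
      abel
    · intro s r x _ hx
      obtain ⟨⟨c, hc⟩, h1⟩ := hx
      refine ⟨⟨r * c, ?_⟩, fun hs => by rw [map_smul, map_smul, h1 hs]⟩
      rw [map_smul, map_smul, hc, smul_add, smul_smul]
  exact key.2 hs

/-- The bracket of traceless matrices in coordinates. -/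
def RIcr (a b : Fin 3 → F) : Fin 3 → F :=
  ![a 1 * b 2 - a 2 * b 1, 2 * (a 0 * b 1 - a 1 * b 0), 2 * (a 2 * b 0 - a 0 * b 2)]

theorem RI_lie (a b : Fin 3 → F) : ⁅tm a, tm b⁆ = tm (RIcr a b) := lie_tm a b

/-- Evaluation at `b, y1, y2, y3`. -/
def RIw (b y1 y2 y3 : Fin 3 → F) (i : ℕ) : Fin 3 → F :=
  if i = 0 then b else if i = 1 then y1 else if i = 2 then y2 else if i = 3 then y3 else 0

def RIG (b y1 y2 y3 : Fin 3 → F) : FL F →ₗ⁅F⁆ M2 F := sb (fun i => tm (RIw b y1 y2 y3 i))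

theorem RIG_X (b y1 y2 y3 : Fin 3 → F) (i : ℕ) :
    RIG b y1 y2 y3 (X F i) = tm (RIw b y1 y2 y3 i) := by
  rw [RIG, sb_X]

theorem RIG_tt1 (b y1 y2 y3 : Fin 3 → F) (f : FL F) :
    RIG b y1 y2 y3 (tt 1 f) = RIG b (RIcr y1 b) y2 y3 f := by
  have : (RIG b y1 y2 y3).comp (tt 1) = RIG b (RIcr y1 b) y2 y3 := by
    apply FreeLieAlgebra.hom_ext
    intro i
    rw [LieHom.comp_apply, ← X, RIG_X]
    by_cases h : i = 1
    · subst h
      rw [tt_X_same, LieHom.map_lie, RIG_X, RIG_X, RI_lie]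
      simp [RIw]
    · rw [tt_X_ne h, RIG_X]
      simp [RIw, h]
  rw [← this]
  rfl

theorem RIG_tt2 (b y1 y2 y3 : Fin 3 → F) (f : FL F) :
    RIG b y1 y2 y3 (tt 2 f) = RIG b y1 (RIcr y2 b) y3 f := by
  have : (RIG b y1 y2 y3).comp (tt 2) = RIG b y1 (RIcr y2 b) y3 := by
    apply FreeLieAlgebra.hom_ext
    intro i
    rw [LieHom.comp_apply, ← X, RIG_X]
    by_cases h : i = 2
    · subst h
      rw [tt_X_same, LieHom.map_lie, RIG_X, RIG_X, RI_lie]
      simp [RIw]
    · rw [tt_X_ne h, RIG_X]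
      simp [RIw, h]
  rw [← this]
  rfl

theorem RIG_tt3 (b y1 y2 y3 : Fin 3 → F) (f : FL F) :
    RIG b y1 y2 y3 (tt 3 f) = RIG b y1 y2 (RIcr y3 b) f := by
  have : (RIG b y1 y2 y3).comp (tt 3) = RIG b y1 y2 (RIcr y3 b) := by
    apply FreeLieAlgebra.hom_ext
    intro i
    rw [LieHom.comp_apply, ← X, RIG_X]
    by_cases h : i = 3
    · subst h
      rw [tt_X_same, LieHom.map_lie, RIG_X, RIG_X, RI_lie]
      simp [RIw]
    · rw [tt_X_ne h, RIG_X]
      simp [RIw, h]
  rw [← this]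
  rfl

theorem RIG_bb0 (b y1 y2 y3 : Fin 3 → F) :
    RIG b y1 y2 y3 (bb 0) = tm (RIcr (RIcr y2 y3) y1) := by
  show RIG b y1 y2 y3 ⁅⁅X F 2, X F 3⁆, X F 1⁆ = _
  rw [LieHom.map_lie, LieHom.map_lie, RIG_X, RIG_X, RIG_X, RI_lie, RI_lie]
  simp [RIw]

theorem RIG_bb1 (b y1 y2 y3 : Fin 3 → F) :
    RIG b y1 y2 y3 (bb 1) = tm (RIcr (RIcr y3 y1) y2) := by
  show RIG b y1 y2 y3 ⁅⁅X F 3, X F 1⁆, X F 2⁆ = _
  rw [LieHom.map_lie, LieHom.map_lie, RIG_X, RIG_X, RIG_X, RI_lie, RI_lie]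
  simp [RIw]

theorem RIG_bb2 (b y1 y2 y3 : Fin 3 → F) :
    RIG b y1 y2 y3 (bb 2) = tm (RIcr (RIcr y1 y2) y3) := by
  show RIG b y1 y2 y3 ⁅⁅X F 1, X F 2⁆, X F 3⁆ = _
  rw [LieHom.map_lie, LieHom.map_lie, RIG_X, RIG_X, RIG_X, RI_lie, RI_lie]
  simp [RIw]

theorem RI_v321 [CharZero F] (x y z : F)
    (h : ∀ b y1 y2 y3 : Fin 3 → F, RIG b y1 y2 y3 (v321 x y z) = 0) : v321 x y z ∈ Isl F := by
  have h1 : v321 x y z ∈ HomC (F := F) (cont (Finset.Icc 1 3) 3) := KE_le _ _ (v321_mem x y z)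
  refine mem_Isl_of_tm ?_ h1 ?_
  · rw [cont, Multiset.card_add, Multiset.card_replicate]
    omega
  · intro a
    rw [← h (a 0) (a 1) (a 2) (a 3), RIG]
    apply sb_congr h1
    intro i hi
    rcases mem_cont hi with rfl | hi
    · rfl
    · have h2 := Finset.mem_Icc.1 hi
      have h3 : i = 1 ∨ i = 2 ∨ i = 3 := by omega
      rcases h3 with rfl | rfl | rfl <;> rfl

theorem RI_pol0 (f : FL F) : pol (MvPolynomial.X 0) f = tt 1 f := pol_X 0 f
theorem RI_pol1 (f : FL F) : pol (MvPolynomial.X 1) f = tt 2 f := pol_X 1 f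
theorem RI_pol2 (f : FL F) : pol (MvPolynomial.X 2) f = tt 3 f := pol_X 2 f

theorem RI_ev0 : ev (F := F) 0 = pol (- (MvPolynomial.X 1 * MvPolynomial.X 2)
      + MvPolynomial.X 1 * MvPolynomial.X 0 + MvPolynomial.X 2 ^ 2
      + MvPolynomial.X 2 * MvPolynomial.X 0) (bb 0)
    + pol (MvPolynomial.X 2 ^ 2 - MvPolynomial.X 1 ^ 2) (bb 1) := rfl

theorem RI_ev1 : ev (F := F) 1 = pol (- (MvPolynomial.X 2 * MvPolynomial.X 0)
      + MvPolynomial.X 2 * MvPolynomial.X 1 + MvPolynomial.X 0 ^ 2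
      + MvPolynomial.X 0 * MvPolynomial.X 1) (bb 1)
    + pol (MvPolynomial.X 0 ^ 2 - MvPolynomial.X 2 ^ 2) (bb 2) := rfl

theorem RI_ev2 : ev (F := F) 2 = pol (- (MvPolynomial.X 0 * MvPolynomial.X 1)
      + MvPolynomial.X 0 * MvPolynomial.X 2 + MvPolynomial.X 1 ^ 2
      + MvPolynomial.X 1 * MvPolynomial.X 2) (bb 2)
    + pol (MvPolynomial.X 1 ^ 2 - MvPolynomial.X 0 ^ 2) (bb 0) := rfl

theorem RI_tm_add (a b : Fin 3 → F) : tm a + tm b = tm (a + b) := by
  ext i j
  fin_cases i <;> fin_cases j <;> simp [tm]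
  ring

theorem RI_tm_sub (a b : Fin 3 → F) : tm a - tm b = tm (a - b) := by
  ext i j
  fin_cases i <;> fin_cases j <;> simp [tm]
  ring

theorem RI_tm_neg (a : Fin 3 → F) : - tm a = tm (- a) := by
  ext i j
  fin_cases i <;> fin_cases j <;> simp [tm]

theorem RI_tm_smul (c : F) (a : Fin 3 → F) : c • tm a = tm (c • a) := by
  ext i j
  fin_cases i <;> fin_cases j <;> simp [tm]

theorem RI_tm_zero : tm (0 : Fin 3 → F) = 0 := by
  ext i j
  fin_cases i <;> fin_cases j <;> simp [tm]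

/-- `Z = v321 0 0 1` holds in `gl₂`.
Proof: `mem_Isl_of_tm`; unfold `v321`, `ev`, `bb`, expand `pol` into `tt`'s and brackets
(`pol_mul`, `pol_X`, `map_add`, `tt_X_same`, `tt_X_ne`, `LieHom.map_lie`), evaluate with `lie_tm`
(cross products), compare coordinates, `ring`. -/
theorem v321_a [CharZero F] : v321 (F := F) 0 0 1 ∈ Isl F := by
  apply RI_v321
  intro b y1 y2 y3
  rw [v321, RI_ev0, RI_ev1, RI_ev2]
  simp only [map_zero, zero_mul, map_one, one_mul, map_add, map_sub, map_neg, pow_two,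
    LinearMap.add_apply, LinearMap.sub_apply, LinearMap.neg_apply, LinearMap.zero_apply,
    pol_mul, RI_pol0, RI_pol1, RI_pol2, RIG_tt1, RIG_tt2, RIG_tt3, RIG_bb0, RIG_bb1, RIG_bb2,
    RI_tm_add, RI_tm_sub, RI_tm_neg, sub_self, zero_add]
  rw [← RI_tm_zero]
  congr 1
  funext i
  fin_cases i <;>
  · simp [RIcr]
    ring

/-- `-X + Y = v321 (-1) 1 0` holds in `gl₂`.  Proof: as `v321_a`. -/
theorem v321_b [CharZero F] : v321 (F := F) (-1) 1 0 ∈ Isl F := by
  apply RI_v321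
  intro b y1 y2 y3
  rw [v321, RI_ev0, RI_ev1, RI_ev2, s1]
  simp only [map_zero, zero_mul, map_one, one_mul, map_add, map_sub, map_neg, pow_two,
    LinearMap.add_apply, LinearMap.sub_apply, LinearMap.neg_apply, LinearMap.zero_apply,
    pol_mul, RI_pol0, RI_pol1, RI_pol2, RIG_tt1, RIG_tt2, RIG_tt3, RIG_bb0, RIG_bb1, RIG_bb2,
    RI_tm_add, RI_tm_sub, RI_tm_neg, sub_self, add_zero, neg_zero, neg_mul]
  rw [← RI_tm_zero]
  congr 1
  funext i
  fin_cases i <;>
  · simp [RIcr]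
    ring

end

end Pool.Agent.Lib.MP_b4a71d_al.SD
end

section

/-!
# MP_b4a71d_al, S point, part D: the relations at S and level three
-/

set_option autoImplicit false
set_option linter.unusedSectionVars false
set_option linter.unusedVariables false

namespace Pool.Agent.Lib.MP_b4a71d_al.SD

universe u

noncomputable section

variable {F : Type u} [Field F]

/-- The T-ideal generated by the relations at S. -/
def TS0 (F : Type u) [Field F] : Submodule F (FL F) :=
  genT {v321 0 0 1, v321 (-1) 1 0, v411 1 2}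

theorem TS0_isTIdeal : IsTIdeal F (TS0 F) := genT_isTIdeal _

theorem TS0_le {T : Submodule F (FL F)} (hT : IsTIdeal F T) (h1 : v321 (F := F) 0 0 1 ∈ T)
    (h2 : v321 (F := F) (-1) 1 0 ∈ T) (h3 : v411 (F := F) 1 2 ∈ T) : TS0 F ≤ T := by
  apply genT_le hT
  rintro f (rfl | rfl | rfl)
  · exact h1
  · exact h2
  · exact h3

theorem Three_y12 : ⁅X F 1, X F 2⁆ ∈ WW (F := F) {1, 2} 0 := by
  have h2 : cont ({1, 2} : Finset ℕ) 0 = {1} + {2} := by decide
  have h := lie_mem_homC (X_mem (F := F) 1) (X_mem 2)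
  rw [WW, h2]
  exact h

theorem Three_y12_eq : tt 1 (tt 2 ⁅X F 1, X F 2⁆) = ⁅⁅X F 1, X F 0⁆, ⁅X F 2, X F 0⁆⁆ := by
  rw [LieHom.map_lie, tt_X_ne (by norm_num), tt_X_same, LieHom.map_lie, LieHom.map_lie, tt_X_same,
    tt_X_ne (by norm_num), tt_X_ne (by norm_num)]

theorem Three_pol_add {d : ℕ} {f : FL F} (hf : f ∈ WW (F := F) {1, 2} d) :
    pol (MvPolynomial.X 0 + MvPolynomial.X 1) f = ⁅f, X F 0⁆ := by
  rw [lie_x (by decide) hf, Finset.sum_pair (by norm_num), map_add, LinearMap.add_apply, pol_X, pol_X]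
  rfl

/-- Proof: both sides are `t1 t2 (t1 + t2)^2 [y1, y2]`; expand `pol` (`pol_mul`, `pol_X`, `map_add`)
on the left and use `⁅f, x⁆ = tt 1 f + tt 2 f` (`lie_x`) on the right, or the Jacobi identity. -/
theorem v411_eq : v411 (F := F) 1 2 =
    ⁅⁅⁅⁅X F 1, X F 0⁆, ⁅X F 2, X F 0⁆⁆, X F 0⁆, X F 0⁆ := by
  have h1 : (MvPolynomial.X 0 * MvPolynomial.X 1 * (MvPolynomial.C 1 * (MvPolynomial.X 0 ^ 2
      + MvPolynomial.X 1 ^ 2) + MvPolynomial.C 2 * (MvPolynomial.X 0 * MvPolynomial.X 1)) : R3 F) =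
      (MvPolynomial.X 0 + MvPolynomial.X 1) * ((MvPolynomial.X 0 + MvPolynomial.X 1) *
        (MvPolynomial.X 0 * MvPolynomial.X 1)) := by
    have h2 : (MvPolynomial.C (2 : F) : R3 F) = 2 := by rw [map_ofNat]
    rw [h2, map_one]
    ring
  have h3 : pol (MvPolynomial.X 0 * MvPolynomial.X 1) ⁅X F 1, X F 2⁆ =
      ⁅⁅X F 1, X F 0⁆, ⁅X F 2, X F 0⁆⁆ := by
    rw [pol_mul, pol_X, pol_X, ← Three_y12_eq]
    rfl
  have h4 : ⁅⁅X F 1, X F 0⁆, ⁅X F 2, X F 0⁆⁆ ∈ WW (F := F) {1, 2} 2 := by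
    rw [← Three_y12_eq]
    exact tt_mem (by decide) (by decide) (tt_mem (by decide) (by decide) Three_y12)
  rw [v411, h1, pol_mul, pol_mul, h3, Three_pol_add h4, Three_pol_add (lie_X0_mem_WW h4)]

theorem TS0_le_Isl [CharZero F] : TS0 F ≤ Isl F := by
  apply genT_le Isl_isTIdeal
  rintro f (rfl | rfl | rfl)
  · exact v321_a
  · exact v321_b
  · rw [v411_eq]
    exact Isl_isTIdeal.lie_mem _ w3_mem_Isl _

theorem relA_TS0 : RelA (TS0 F) := by
  rw [RelA, ← v411_eq]
  exact subset_genT _ (Or.inr (Or.inr rfl))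

/-! ### Level three -/

/-- The eigenvalues: `y_{j+1} ↦ f`, the others `↦ e`. -/
def cw (j i : Fin 3) : F := if i = j then 2 else -2

/-- Evaluation of polynomials in the `tt`.
Proof: induction on `p` (`MvPolynomial.induction_on`), for all `d` and `f` at once; `pol_mul`,
`pol_X`, `tt_mem`, `evh_tt` with `mf_mh`, `me_mh`. -/
theorem evh_pol (j : Fin 3) (p : R3 F) {d : ℕ} {f : FL F} (hf : f ∈ W 3 d) :
    evh (fun n => if n = (j : ℕ) + 1 then mf else me) (pol p f) =
      MvPolynomial.eval (cw (F := F) j) p •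
        evh (fun n => if n = (j : ℕ) + 1 then mf else me) f := by
  induction p using MvPolynomial.induction_on generalizing d f with
  | C c => rw [pol_C, map_smul, MvPolynomial.eval_C]
  | add p q hp hq => rw [map_add, LinearMap.add_apply, map_add, hp hf, hq hf, map_add, add_smul]
  | mul_X p i hp =>
    have h1 : tt ((i : ℕ) + 1) f ∈ W 3 (d + 1) :=
      tt_mem (by rw [Finset.mem_Icc]; omega) (zero_notMem_Icc 3) hf
    rw [pol_mul, pol_X, hp h1, MvPolynomial.eval_mul, MvPolynomial.eval_X, mul_smul]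
    congr 1
    apply evh_tt (Y := Finset.Icc 1 3) (by rw [Finset.mem_Icc]; omega) (zero_notMem_Icc 3) hf
    by_cases hij : i = j
    · rw [cw, if_pos hij, if_pos (by rw [hij])]
      exact mf_mh
    · have hij' : (i : ℕ) + 1 ≠ (j : ℕ) + 1 := by
        intro h
        apply hij
        ext
        omega
      rw [cw, if_neg hij, if_neg hij']
      exact me_mh

theorem Three_fin : ∀ j : Fin 3, j + 1 + 1 = j + 2 ∧ j + 1 + 2 = j ∧ j + 2 + 1 = j ∧ j + 2 + 2 = j + 1 ∧
    j + 1 ≠ j ∧ j + 2 ≠ j := by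
  decide

theorem Three_fin' : ∀ i j : Fin 3, i = j ∨ i = j + 1 ∨ i = j + 2 := by
  decide

theorem Three_bb_mem (i : Fin 3) : bb (F := F) i ∈ W (F := F) 3 0 := by
  have h : ∀ a b c : ℕ, cont (Finset.Icc 1 3) 0 = {a} + {b} + {c} →
      ⁅⁅X F a, X F b⁆, X F c⁆ ∈ W (F := F) 3 0 := by
    intro a b c habc
    have h := lie_mem_homC (lie_mem_homC (X_mem (F := F) a) (X_mem b)) (X_mem c)
    rw [W, WW, habc]
    exact h
  fin_cases i
  · exact h 2 3 1 (by decide)
  · exact h 3 1 2 (by decide)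
  · exact h 1 2 3 (by decide)

theorem Three_evh_lie (w : ℕ → M2 F) (a b c : ℕ) :
    evh w ⁅⁅X F (a + 1), X F (b + 1)⁆, X F (c + 1)⁆ = ⁅⁅w (a + 1), w (b + 1)⁆, w (c + 1)⁆ := by
  rw [LieHom.map_lie, LieHom.map_lie, evh_ne _ (Nat.succ_ne_zero a), evh_ne _ (Nat.succ_ne_zero b),
    evh_ne _ (Nat.succ_ne_zero c)]

theorem Three_lie1 : ⁅⁅(me : M2 F), (me : M2 F)⁆, (mf : M2 F)⁆ = 0 := by
  rw [lie_self, zero_lie]

theorem Three_lie2 : ⁅⁅(me : M2 F), (mf : M2 F)⁆, (me : M2 F)⁆ = (2 : F) • me := by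
  rw [me_mf, ← lie_skew, me_mh, neg_smul, neg_neg]

theorem Three_lie3 : ⁅⁅(mf : M2 F), (me : M2 F)⁆, (me : M2 F)⁆ = (-2 : F) • me := by
  rw [← lie_skew (mf : M2 F) me, me_mf, neg_lie, ← lie_skew, neg_neg, me_mh]

theorem Three_evh_bb (j : Fin 3) :
    evh (fun n => if n = (j : ℕ) + 1 then mf else me) (bb (F := F) j) = 0 ∧
    evh (fun n => if n = (j : ℕ) + 1 then mf else me) (bb (F := F) (j + 1)) = (2 : F) • me ∧
    evh (fun n => if n = (j : ℕ) + 1 then mf else me) (bb (F := F) (j + 2)) = (-2 : F) • me := by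
  fin_cases j
  · refine ⟨?_, ?_, ?_⟩
    · exact (Three_evh_lie _ 1 2 0).trans Three_lie1
    · exact (Three_evh_lie _ 2 0 1).trans Three_lie2
    · exact (Three_evh_lie _ 0 1 2).trans Three_lie3
  · refine ⟨?_, ?_, ?_⟩
    · exact (Three_evh_lie _ 2 0 1).trans Three_lie1
    · exact (Three_evh_lie _ 0 1 2).trans Three_lie2
    · exact (Three_evh_lie _ 1 2 0).trans Three_lie3
  · refine ⟨?_, ?_, ?_⟩
    · exact (Three_evh_lie _ 0 1 2).trans Three_lie1
    · exact (Three_evh_lie _ 1 2 0).trans Three_lie2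
    · exact (Three_evh_lie _ 2 0 1).trans Three_lie3

theorem Three_cw (j : Fin 3) : cw (F := F) j j = 2 ∧ cw (F := F) j (j + 1) = -2 ∧
    cw (F := F) j (j + 2) = -2 := by
  have h : j + 1 ≠ j ∧ j + 2 ≠ j := by
    revert j
    decide
  exact ⟨if_pos rfl, if_neg h.1, if_neg h.2⟩

theorem Three_ev (j i : Fin 3) :
    evh (fun n => if n = (j : ℕ) + 1 then mf else me) (ev (F := F) i) =
      (-(cw j (i + 1) * cw j (i + 2)) + cw j (i + 1) * cw j i + cw j (i + 2) ^ 2
        + cw j (i + 2) * cw j i : F) •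
          evh (fun n => if n = (j : ℕ) + 1 then mf else me) (bb (F := F) i)
      + (cw j (i + 2) ^ 2 - cw j (i + 1) ^ 2 : F) •
          evh (fun n => if n = (j : ℕ) + 1 then mf else me) (bb (F := F) (i + 1)) := by
  rw [ev, map_add, evh_pol j _ (Three_bb_mem i), evh_pol j _ (Three_bb_mem (i + 1))]
  simp only [map_add, map_sub, map_neg, map_mul, map_pow, MvPolynomial.eval_X]

/-- For `y_{j+1} ↦ f` and the others `↦ e`: `bb j ↦ 0`, `bb (j+1) ↦ 2 e`, `bb (j+2) ↦ -2 e`, so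
`ev j ↦ 0`, `ev (j+1) ↦ 16 e`, `ev (j+2) ↦ -16 e`. -/
theorem evh_ev (j : Fin 3) :
    evh (fun n => if n = (j : ℕ) + 1 then mf else me) (ev (F := F) j) = 0 ∧
    evh (fun n => if n = (j : ℕ) + 1 then mf else me) (ev (F := F) (j + 1)) = (16 : F) • me ∧
    evh (fun n => if n = (j : ℕ) + 1 then mf else me) (ev (F := F) (j + 2)) = (-16 : F) • me := by
  obtain ⟨b0, b1, b2⟩ := Three_evh_bb (F := F) j
  obtain ⟨c0, c1, c2⟩ := Three_cw (F := F) j
  obtain ⟨e1, e2, e3, e4, n1, n2⟩ := Three_fin j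
  refine ⟨?_, ?_, ?_⟩
  · rw [Three_ev, b0, b1, c0, c1, c2]
    module
  · rw [Three_ev, e1, e2, b1, b2, c0, c1, c2]
    module
  · rw [Three_ev, e3, e4, b2, b0, c0, c1, c2]
    module

theorem Three_s1 (j : Fin 3) : MvPolynomial.eval (cw (F := F) j) (s1 : R3 F) = -2 := by
  rw [s1, map_add, map_add, MvPolynomial.eval_X, MvPolynomial.eval_X, MvPolynomial.eval_X]
  have hs : cw (F := F) j 0 + cw j 1 + cw j 2 = cw j j + cw j (j + 1) + cw j (j + 2) := by
    fin_cases j
    · rfl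
    · change cw (F := F) 1 0 + cw 1 1 + cw 1 2 = cw 1 1 + cw 1 2 + cw 1 0
      ring
    · change cw (F := F) 2 0 + cw 2 1 + cw 2 2 = cw 2 2 + cw 2 0 + cw 2 1
      ring
  obtain ⟨c0, c1, c2⟩ := Three_cw (F := F) j
  rw [hs, c0, c1, c2]
  ring

theorem Three_ev_W (i : Fin 3) : ev (F := F) i ∈ W 3 2 := (mem_KE.mp (ev_mem i)).1

theorem Three_q0v (j : Fin 3) :
    evh (fun n => if n = (j : ℕ) + 1 then mf else me) (q0v (F := F) (ev : Fin 3 → FL F)) =
      (-128 : F) • me := by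
  have h : evh (fun n => if n = (j : ℕ) + 1 then mf else me) (q0v (F := F) (ev : Fin 3 → FL F)) =
      ∑ i : Fin 3, (cw j (i + 1) - cw j (i + 2) : F) •
        evh (fun n => if n = (j : ℕ) + 1 then mf else me) (ev (F := F) i) := by
    rw [q0v, map_sum]
    apply Finset.sum_congr rfl
    intro i _
    rw [smul_eq_pol, evh_pol j _ (Three_ev_W i), map_sub, MvPolynomial.eval_X, MvPolynomial.eval_X]
  obtain ⟨b0, b1, b2⟩ := evh_ev (F := F) j
  obtain ⟨c0, c1, c2⟩ := Three_cw (F := F) j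
  obtain ⟨e1, e2, e3, e4, n1, n2⟩ := Three_fin j
  have hs : ∀ g : Fin 3 → M2 F, ∑ i : Fin 3, g i = g j + g (j + 1) + g (j + 2) := by
    intro g
    rw [Fin.sum_univ_three]
    fin_cases j
    · rfl
    · change g 0 + g 1 + g 2 = g 1 + g 2 + g 0
      abel
    · change g 0 + g 1 + g 2 = g 2 + g 0 + g 1
      abel
  rw [h, hs, b0, b1, b2, e1, e2, e3, e4, c0, c1, c2]
  module

/-- Proof: `wS`, `vS`, `q0v`, `smul_eq_pol`, `evh_pol` (`s1 ↦ -2`), `evh_ev`:
`q0v ↦ -128 e`; `s1 (ev (i+1) - ev (i+2)) ↦ -64 e` for `i = j` and `32 e` otherwise. -/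
theorem evh_wS (d : ℕ) (i j : Fin 3) :
    evh (fun n => if n = (j : ℕ) + 1 then mf else me) (wS (F := F) d i) =
      ((-2) ^ (d + 1) * (if i = j then -192 else -96) : F) • me := by
  have hd : (s1 : R3 F) • (ev (F := F) (i + 1) - ev (F := F) (i + 2)) + q0v (F := F) (ev : Fin 3 → FL F) ∈
      W (F := F) 3 3 := by
    have h1 : (s1 : R3 F) • (ev (F := F) (i + 1) - ev (F := F) (i + 2)) ∈ W (F := F) 3 (2 + 1) := by
      rw [smul_eq_pol]
      exact pol_mem (((MvPolynomial.isHomogeneous_X F 0).add (MvPolynomial.isHomogeneous_X F 1)).add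
        (MvPolynomial.isHomogeneous_X F 2)) (Submodule.sub_mem _ (Three_ev_W _) (Three_ev_W _))
    have h2 : q0v (F := F) (ev : Fin 3 → FL F) ∈ W (F := F) 3 (2 + 1) := by
      rw [q0v]
      apply Submodule.sum_mem
      intro k _
      rw [smul_eq_pol]
      exact pol_mem ((MvPolynomial.isHomogeneous_X F _).sub (MvPolynomial.isHomogeneous_X F _))
        (Three_ev_W k)
    exact Submodule.add_mem _ h1 h2
  have hdiff : ev (F := F) (i + 1) - ev (F := F) (i + 2) ∈ W (F := F) 3 2 :=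
    Submodule.sub_mem _ (Three_ev_W _) (Three_ev_W _)
  rw [wS, vS, smul_eq_pol, evh_pol j _ hd, map_add, smul_eq_pol, evh_pol j _ hdiff, Three_q0v, map_pow,
    Three_s1, map_sub]
  obtain ⟨b0, b1, b2⟩ := evh_ev (F := F) j
  have hc := Three_fin' i j
  obtain ⟨e1, e2, e3, e4, n1, n2⟩ := Three_fin j
  rcases hc with rfl | rfl | rfl
  · rw [if_pos rfl, b1, b2]
    module
  · rw [if_neg n1, e1, e2, b0, b2]
    module
  · rw [if_neg n2, e3, e4, b0, b1]
    module

/-- Proof: for `f ∈ Isl ⊓ KE {1,2,3} (d + 4)` by `level3_S` (for `T = TS0 F`)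
`f = ∑ c i • wS d i + t`, `t ∈ TS0 F ≤ Isl F`; by `evh_wS` for the three `j`:
`c j + ∑ i, c i = 0`, so `c = 0`. -/
theorem three_S [CharZero F] (d : ℕ) : JZ (Isl F) (TS0 F) 3 (d + 4) := by
  rintro f ⟨hf, hfK⟩
  have h1 := level3_S (F := F) TS0_isTIdeal (subset_genT _ (Or.inl rfl))
    (subset_genT _ (Or.inr (Or.inl rfl))) (subset_genT _ (Or.inr (Or.inr rfl))) d hfK
  obtain ⟨g, hg, t, ht, rfl⟩ := Submodule.mem_sup.1 h1
  have hgI : g ∈ Isl F := by
    have h2 := (Isl F).sub_mem hf (TS0_le_Isl ht)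
    rwa [add_sub_cancel_right] at h2
  obtain ⟨c, rfl⟩ := (Submodule.mem_span_range_iff_exists_fun F).1 hg
  have key : ∀ j : Fin 3, c j + (c 0 + c 1 + c 2) = 0 := by
    intro j
    have h3 := hgI (evh (fun n => if n = (j : ℕ) + 1 then mf else me))
    rw [map_sum] at h3
    simp only [map_smul, evh_wS, smul_smul] at h3
    rw [← Finset.sum_smul] at h3
    have hme : (me : M2 F) ≠ 0 := by
      intro h
      have h5 := congrFun (congrFun h 0) 1
      simp [me] at h5
    have h4 := (smul_eq_zero.1 h3).resolve_right hme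
    have h6 : ((-2 : F) ^ (d + 1) * -96) ≠ 0 := by
      apply mul_ne_zero (pow_ne_zero _ (by norm_num)) (by norm_num)
    apply (mul_eq_zero.1 _).resolve_left h6
    rw [← h4, Fin.sum_univ_three]
    fin_cases j
    · simp
      ring
    · simp
      ring
    · simp
      ring
  have k0 := key 0
  have k1 := key 1
  have k2 := key 2
  have hs : (4 : F) * (c 0 + c 1 + c 2) = 0 := by linear_combination k0 + k1 + k2
  have hs' : c 0 + c 1 + c 2 = 0 := (mul_eq_zero.1 hs).resolve_left (by norm_num)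
  have z0 : c 0 = 0 := by linear_combination k0 - hs'
  have z1 : c 1 = 0 := by linear_combination k1 - hs'
  have z2 : c 2 = 0 := by linear_combination k2 - hs'
  rw [Fin.sum_univ_three, z0, z1, z2, zero_smul, zero_smul, zero_smul, add_zero, add_zero, zero_add]
  exact ht

theorem SHyp_TS0 [CharZero F] : SHyp (J5 F) (TS0 F) where
  hJ := J5_isTIdeal
  hT := TS0_isTIdeal
  sl := J5_le_Isl
  relA := relA_TS0
  w3 := w3_mem_J J5_isTIdeal lawFL_mem_J5
  gen := isGen_J5
  three d := fun f hf => three_S d ⟨J5_le_Isl hf.1, hf.2⟩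

end

end Pool.Agent.Lib.MP_b4a71d_al.SD
end

section

/-!
# MP_b4a71d_al, S point, part D: all levels
-/

set_option autoImplicit false
set_option linter.unusedSectionVars false
set_option linter.unusedVariables false

namespace Pool.Agent.Lib.MP_b4a71d_al.SD

universe u

noncomputable section

variable {F : Type u} [Field F]

/-- The facts in degrees 7 and 8 at S provided by the engine. -/
structure EngS (T : Submodule F (FL F)) : Prop where
  s52 : ∀ v ∈ KE (F := F) (Finset.Icc 1 5) 2, ∀ i ∈ Finset.Icc 1 5, ∀ j ∈ Finset.Icc 1 5,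
    i ≠ j → v + ren (Equiv.swap i j) v ∈ T
  s53 : ∀ f ∈ KE (F := F) (Finset.Icc 1 5) 3, altL [1, 2, 3, 4] f ∈ T
  s62 : LZ T 6 2

variable [CharZero F] {J T : Submodule F (FL F)}

theorem Fin_altL_mem_T (hT : IsTIdeal F T) (l : List ℕ) {f : FL F} (hf : f ∈ T) : altL l f ∈ T := by
  induction l generalizing f with
  | nil => exact hf
  | cons t A ih =>
    rw [altL_cons]
    apply ih
    refine Submodule.sub_mem _ hf (list_sum_mem (S := T) ?_)
    intro x hx
    obtain ⟨a, _, rfl⟩ := List.mem_map.1 hx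
    exact hT.ren_mem _ hf

/-- If all transpositions of the letters of `l` act by `-1` modulo `T` then `altL l` multiplies
by the factorial of the length. -/
theorem Fin_altL_of_skew (hT : IsTIdeal F T) {v : FL F} (l : List ℕ) (hl : l.Nodup)
    (h : ∀ i ∈ l, ∀ j ∈ l, i ≠ j → v + ren (Equiv.swap i j) v ∈ T) :
    altL l v - ((l.length.factorial : ℕ) : F) • v ∈ T := by
  induction l with
  | nil =>
    have h1 : altL ([] : List ℕ) v = v := rfl
    rw [h1, List.length_nil, Nat.factorial_zero, Nat.cast_one, one_smul, sub_self]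
    exact Submodule.zero_mem _
  | cons t A ih =>
    rw [List.nodup_cons] at hl
    have ih' := ih hl.2 (fun i hi j hj => h i (List.mem_cons_of_mem _ hi) j
      (List.mem_cons_of_mem _ hj))
    have hsum : ∀ B : List ℕ, (∀ a ∈ B, v + ren (Equiv.swap a t) v ∈ T) →
        (B.map (fun a => ren (Equiv.swap a t) v)).sum + (B.length : F) • v ∈ T := by
      intro B
      induction B with
      | nil =>
        intro _
        rw [List.map_nil, List.sum_nil, List.length_nil, Nat.cast_zero, zero_smul, add_zero]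
        exact Submodule.zero_mem _
      | cons b B ihB =>
        intro hB
        have h1 := ihB (fun a ha => hB a (List.mem_cons_of_mem _ ha))
        have h2 := hB b (by simp)
        have h3 := Submodule.add_mem _ h1 h2
        convert h3 using 1
        rw [List.map_cons, List.sum_cons, List.length_cons, Nat.cast_add, Nat.cast_one, add_smul,
          one_smul]
        abel
    have h1 := hsum A (fun a ha => h a (List.mem_cons_of_mem _ ha) t (by simp)
      (by rintro rfl; exact hl.1 ha))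
    have h2 := Fin_altL_mem_T hT A h1
    rw [altL_cons]
    have h3 : altL A (v - (A.map (fun a => ren (Equiv.swap a t) v)).sum) =
        ((A.length : F) + 1) • altL A v -
          altL A ((A.map (fun a => ren (Equiv.swap a t) v)).sum + (A.length : F) • v) := by
      rw [← map_smul, ← map_sub]
      congr 1
      rw [add_smul, one_smul]
      abel
    rw [h3]
    have h4 : (((t :: A).length.factorial : ℕ) : F) • v =
        ((A.length : F) + 1) • (((A.length.factorial : ℕ) : F) • v) := by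
      rw [smul_smul, List.length_cons, Nat.factorial_succ, Nat.cast_mul, Nat.cast_add,
        Nat.cast_one]
    rw [h4]
    have h5 := Submodule.sub_mem _ (Submodule.smul_mem T ((A.length : F) + 1) ih') h2
    convert h5 using 1
    rw [smul_sub]
    abel

theorem Fin_tt_five (hT : IsTIdeal F T) (hE : EngS T) {κ : FL F}
    (hκ : κ ∈ KE (Finset.Icc 1 5) 2) : tt 5 κ ∈ T := by
  have h1 : altL [1, 2, 3, 4] (tt 5 κ) ∈ T :=
    hE.s53 _ (tt_KE (by simp) (zero_notMem_Icc 5) hκ)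
  have h2 := Fin_altL_of_skew hT (v := tt 5 κ) [1, 2, 3, 4] (by decide) (by
    intro i hi j hj hij
    have hi' : i ∈ Finset.Icc 1 5 ∧ i ≠ 5 := by
      simp only [List.mem_cons, List.not_mem_nil, or_false] at hi
      rw [Finset.mem_Icc]
      omega
    have hj' : j ∈ Finset.Icc 1 5 ∧ j ≠ 5 := by
      simp only [List.mem_cons, List.not_mem_nil, or_false] at hj
      rw [Finset.mem_Icc]
      omega
    have h3 := hT.tt_mem 5 (hE.s52 κ hκ i hi'.1 j hj'.1 hij)
    have h4 : Equiv.swap i j 0 = 0 := by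
      apply Equiv.swap_apply_of_ne_of_ne
      · have := (Finset.mem_Icc.1 hi'.1).1
        omega
      · have := (Finset.mem_Icc.1 hj'.1).1
        omega
    have h5 : Equiv.swap i j 5 = 5 := Equiv.swap_apply_of_ne_of_ne hi'.2.symm hj'.2.symm
    rw [map_add] at h3
    rw [ren_tt _ h4, h5]
    exact h3)
  have h3 := Submodule.sub_mem _ h1 h2
  rw [sub_sub_cancel] at h3
  have h4 : ((([1, 2, 3, 4] : List ℕ).length.factorial : ℕ) : F) ≠ 0 := by
    rw [Nat.cast_ne_zero]
    decide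
  exact (Submodule.smul_mem_iff _ h4).1 h3

/-- `tt i` of the surviving vectors of the level (5, 2) vanishes.
Proof: for `i = 5`: by `s52` `ren (swap a b) κ ≡ -κ`, so `altL [1,2,3,4] κ ≡ 24 κ` modulo `T`
(`altL_cons` four times) and `altL [1,2,3,4] (tt 5 κ) = tt 5 (altL [1,2,3,4] κ) ≡ 24 tt 5 κ`
(`ren_tt`); `tt 5 κ ∈ KE (Icc 1 5) 3` (`tt_KE`), so `24 tt 5 κ ∈ T` by `s53`.  In general
`tt i κ = ren (swap i 5) (tt 5 (ren (swap i 5) κ))` (`ren_tt`, `ren_KE`). -/
theorem tt_five (hT : IsTIdeal F T) (hE : EngS T) {κ : FL F}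
    (hκ : κ ∈ KE (Finset.Icc 1 5) 2) {i : ℕ} (hi : i ∈ Finset.Icc 1 5) : tt i κ ∈ T := by
  have hi1 := (Finset.mem_Icc.1 hi).1
  have hi5 := (Finset.mem_Icc.1 hi).2
  have h0 : Equiv.swap i 5 0 = 0 := by
    apply Equiv.swap_apply_of_ne_of_ne <;> omega
  have him : (Finset.Icc 1 5).image (Equiv.swap i 5) = Finset.Icc 1 5 := by
    apply image_eq_of_fix
    intro j hj
    rw [Finset.mem_Icc] at hj
    apply Equiv.swap_apply_of_ne_of_ne <;> omega
  have h1 := Fin_tt_five hT hE (ren_KE (Equiv.swap i 5) h0 him hκ)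
  have h2 := hT.ren_mem (Equiv.swap i 5) h1
  rw [ren_tt _ h0, Equiv.swap_apply_right, ren_ren] at h2
  have h3 : (Equiv.swap i 5 : ℕ → ℕ) ∘ (Equiv.swap i 5 : ℕ → ℕ) = id := by
    funext j
    simp
  rwa [h3, ren_id'] at h2

/-- The level (5, 3).
Proof: `Y = Icc 1 5`.  By `mem_T_of_KE'` it is enough that `J ⊓ WW Y 3 ≤ Lam Y 3 ⊔ T`.  Use
`H.gen` (`5 < 5 + 3`): the generators are `tt i g`, `g ∈ J ⊓ WW Y 2`; by `le_low'` (`n = 7`,
`JZ J T 3 4` from `H.three 0`, and `h43`) `g ∈ (J ⊓ KE Y 2) ⊔ (T ⊔ Low J Y 2)`; `tt_five` for the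
first part, `tt_low` for the rest.  And `⁅g, y_j⁆`, `ss i j g` with
`g ∈ J ⊓ WW (Y.erase j) 3 ≤ T ⊔ Low J (Y.erase j) 3` (`le_low`, `n = 7`): `lie_low`, `ss_low`. -/
theorem JZ53 (H : SHyp J T) (hE : EngS T) (h43 : JZ J T 4 3) : JZ J T 5 3 := by
  rintro f ⟨hfJ, hf⟩
  have h0 := zero_notMem_Icc 5
  have hc : (Finset.Icc 1 5).card = 5 := by rw [Nat.card_Icc]
  have hJ := H.hJ
  have hT := H.hT
  apply mem_T_of_KE' hT h0 hf
  have h1 := H.gen (Finset.Icc 1 5) 2 h0 (by omega) ⟨hfJ, KE_le _ _ hf⟩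
  have hlev : ∀ k, 3 ≤ k → k ≤ 4 → JZ J T k (7 - k) := by
    intro k h3 h4
    rcases Nat.lt_or_ge k 4 with h5 | h5
    · obtain rfl : k = 3 := by omega
      exact H.three 0
    · obtain rfl : k = 4 := by omega
      exact h43
  have hlow : J ⊓ WW (Finset.Icc 1 5) 2 ≤
      (J ⊓ KE (Finset.Icc 1 5) 2) ⊔ (T ⊔ Low J (Finset.Icc 1 5) 2) :=
    le_low' hJ hT _ h0 (by omega) (n := 7) (by omega) (fun k h3 h4 => hlev k h3 (by omega))
  have hlow' : ∀ j ∈ Finset.Icc 1 5, J ⊓ WW ((Finset.Icc 1 5).erase j) 3 ≤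
      T ⊔ Low J ((Finset.Icc 1 5).erase j) 3 := by
    intro j hj
    have hc' := Finset.card_erase_of_mem hj
    exact le_low hJ hT _ (fun h => h0 (Finset.mem_of_mem_erase h)) (by omega) (n := 7)
      (by omega) (fun k h3 h4 => hlev k h3 (by omega))
  have h2 : Gn J (Finset.Icc 1 5) 2 ≤ Lam (Finset.Icc 1 5) 3 ⊔ T := by
    refine sup_le (sup_le ?_ ?_) ?_
    · refine iSup₂_le fun i hi => ?_
      rw [Submodule.map_le_iff_le_comap]
      intro g hg
      obtain ⟨κ, hκ, r, hr, rfl⟩ := Submodule.mem_sup.1 (hlow hg)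
      change tt i (κ + r) ∈ Lam (F := F) (Finset.Icc 1 5) 3 ⊔ T
      rw [map_add]
      exact Submodule.add_mem _ (Submodule.mem_sup_right (tt_five hT hE hκ.2 hi))
        (tt_low hJ hT h0 (by omega) hi hr)
    · refine iSup₂_le fun j hj => ?_
      rw [Submodule.map_le_iff_le_comap]
      intro g hg
      exact lie_low hJ hT h0 (by omega) hj (hlow' j hj hg)
    · refine iSup₂_le fun j hj => iSup₂_le fun i hi => ?_
      rw [Submodule.map_le_iff_le_comap]
      intro g hg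
      exact ss_low hJ hT h0 (by omega) hj hi (hlow' j hj hg)
  exact h2 h1

/-- All levels from degree 8 on.
Proof: induction on `n`.  For `k = 3`: `H.three`.  `n = 8`: `k = 4`: `JZ_four` with `m = 1`;
`k = 5`: `JZ53`; `k = 6`: `hE.s62`; `k = 7`: `LZ_one_right`; `k = 8`: `LZ_zero_right`.  Step from
`n` to `n + 1`: `k = 4`: `JZ_four` with `m = n - 6`; `5 ≤ k ≤ n`: `JZ_succ_of_five` with
`d = n - k`; `k = n + 1`: `LZ_zero_right`. -/
theorem JZ_all (H : SHyp J T) (hE : EngS T) (h43 : JZ J T 4 3) (n : ℕ) (hn : 8 ≤ n) :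
    ∀ k, 3 ≤ k → k ≤ n → JZ J T k (n - k) := by
  have hLZ : ∀ {k d : ℕ}, LZ T k d → JZ J T k d := fun h => inf_le_right.trans h
  have hthree : ∀ n, 7 ≤ n → JZ J T 3 (n - 3) := by
    intro n hn
    have h1 := H.three (n - 7)
    rwa [show n - 7 + 4 = n - 3 by omega] at h1
  induction n, hn using Nat.le_induction with
  | base =>
    intro k h3 hk
    obtain h | h | h | h | h | h : k = 3 ∨ k = 4 ∨ k = 5 ∨ k = 6 ∨ k = 7 ∨ k = 8 := by omega
    · subst h
      exact hthree 8 (by omega)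
    · subst h
      exact JZ_four H (m := 1) le_rfl h43
    · subst h
      exact JZ53 H hE h43
    · subst h
      exact hLZ hE.s62
    · subst h
      exact hLZ (LZ_one_right H.hT (by omega))
    · subst h
      exact hLZ (LZ_zero_right H.hT (by omega))
  | succ n hn ih =>
    intro k h3 hk
    obtain h | h | h | h : k = 3 ∨ k = 4 ∨ (5 ≤ k ∧ k ≤ n) ∨ k = n + 1 := by omega
    · subst h
      exact hthree (n + 1) (by omega)
    · subst h
      have h1 := ih 4 (by omega) (by omega)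
      rw [show n - 4 = (n - 6) + 2 by omega] at h1
      have h2 := JZ_four H (m := n - 6) (by omega) h1
      rwa [show n - 6 + 3 = n + 1 - 4 by omega] at h2
    · have h1 := JZ_succ_of_five H.hJ H.hT H.gen (k := k) (d := n - k) h.1 (by omega)
        (fun k' h4 h5 => by
          have h6 := ih k' h4 (by omega)
          rwa [show n - k' = k + (n - k) - k' by omega] at h6)
      rwa [show n - k + 1 = n + 1 - k by omega] at h1
    · subst h
      rw [Nat.sub_self]
      exact hLZ (LZ_zero_right H.hT (by omega))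

/-- Proof: `SHyp_TS0` and `TS0 F ≤ T`. -/
theorem SHyp_of_le (hT : IsTIdeal F T) (h : TS0 F ≤ T) : SHyp (J5 F) T where
  hJ := J5_isTIdeal
  hT := hT
  sl := J5_le_Isl
  relA := h relA_TS0
  w3 := w3_mem_J J5_isTIdeal lawFL_mem_J5
  gen := isGen_J5
  three d := (SHyp_TS0.three d).trans h

/-- The situation at S: levels of `T ⊇ TS0` for `k ≥ 3`, `k + d ≥ 8`.
Proof: `JZ (Isl F) (TS0 F) 4 3` from `JZ43` and `he43`, so `JZ (J5 F) T 4 3` (`J5_le_Isl`,
`TS0_le`); `JZ_all` for `J5 F`, `T` (`SHyp_of_le`); `levelGood_of_sup` with `hR`. -/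
theorem levelGood_S (hT : IsTIdeal F T) (h1 : v321 (F := F) 0 0 1 ∈ T)
    (h2 : v321 (F := F) (-1) 1 0 ∈ T) (h3 : v411 (F := F) 1 2 ∈ T) (hE : EngS T)
    (he43 : ∀ φ : FL F →ₗ[F] F, Eng.LF (TS0 F) 4 3 φ → φ (xv 0) = 0 → φ (xv 1) = 0 →
      ∀ f ∈ W (F := F) 4 3, φ f = 0)
    (hR : ∀ J : Submodule F (FL F), IsTIdeal F J → S.lawFL F ∈ J → ∀ k d, LevelGood J k d)
    {k d : ℕ} (hk : 3 ≤ k) (hkd : 8 ≤ k + d) : LevelGood T k d := by
  have h : TS0 F ≤ T := TS0_le hT h1 h2 h3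
  have h43 : JZ (J5 F) T 4 3 :=
    (inf_le_inf_right _ J5_le_Isl).trans ((JZ43 TS0_isTIdeal TS0_le_Isl he43).trans h)
  have hall := JZ_all (SHyp_of_le hT h) hE h43 (k + d) hkd k hk (by omega)
  rw [Nat.add_sub_cancel_left] at hall
  exact levelGood_of_sup J5_isTIdeal hT (by omega) hall
    (hR (T ⊔ J5 F) (hT.sup J5_isTIdeal) (Submodule.mem_sup_right lawFL_mem_J5) k d)

end

end Pool.Agent.Lib.MP_b4a71d_al.SD
end
end
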